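import Pool.Agent.Helper37.Fol.Reduce

/-! # No conjugate points at real times; two orbits cross at most once

Orbits are interpolated linearly between consecutive integer times. -/

set_option autoImplicit false

namespace Pool.Agent.Helper37.FTM

open Set Filter Topology

variable {F : ℝ × ℝ → ℝ × ℝ} {U : ℝ → ℝ → ℝ}

/-- position at time `k + τ` of the orbit through `p` -/
noncomputable def pos (F : ℝ × ℝ → ℝ × ℝ) (p : ℝ × ℝ) (k : ℕ) (τ : ℝ) : ℝ :=
  (1 - τ) * (F^[k] p).1 + τ * (F^[k + 1] p).1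

/-- the derivative of the position at time `k + τ` in direction `v` -/
noncomputable def jac (F : ℝ × ℝ → ℝ × ℝ) (p v : ℝ × ℝ) (k : ℕ) (τ : ℝ) : ℝ :=
  (1 - τ) * (fderiv ℝ (F^[k]) p v).1 + τ * (fderiv ℝ (F^[k + 1]) p v).1

namespace Fol0

variable (h : Fol0 F U)
include h

theorem fderiv_iter_succ' (n : ℕ) (p : ℝ × ℝ) :
    fderiv ℝ (F^[n + 1]) p = (fderiv ℝ (F^[n]) (F p)).comp (fderiv ℝ F p) := by
  rw [Function.iterate_succ]
  exact fderiv_comp p (h.differentiable_iter n _) (h.differentiableAt_F p)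

theorem twist' (p : ℝ × ℝ) : 0 < (fderiv ℝ F p (0, 1)).1 := by
  have := h.deriv_iter_pos 0 p
  simpa using this

theorem hasFDerivAt_pos (p : ℝ × ℝ) (k : ℕ) (τ : ℝ) :
    HasFDerivAt (fun q => pos F q k τ)
      ((1 - τ) • (ContinuousLinearMap.fst ℝ ℝ ℝ).comp (fderiv ℝ (F^[k]) p) +
        τ • (ContinuousLinearMap.fst ℝ ℝ ℝ).comp (fderiv ℝ (F^[k + 1]) p)) p := by
  have h1 : ∀ n, HasFDerivAt (fun q => (F^[n] q).1)
      ((ContinuousLinearMap.fst ℝ ℝ ℝ).comp (fderiv ℝ (F^[n]) p)) p := fun n =>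
    (ContinuousLinearMap.fst ℝ ℝ ℝ).hasFDerivAt.comp p (h.differentiable_iter n p).hasFDerivAt
  exact ((h1 k).const_mul (1 - τ)).add ((h1 (k + 1)).const_mul τ)

theorem fderiv_pos (p v : ℝ × ℝ) (k : ℕ) (τ : ℝ) :
    fderiv ℝ (fun q => pos F q k τ) p v = jac F p v k τ := by
  rw [(h.hasFDerivAt_pos p k τ).fderiv]
  simp [jac]

theorem eq_zero_of_two {p v : ℝ × ℝ} (h0 : v.1 = 0) (h1 : (fderiv ℝ F p v).1 = 0) : v = 0 := by
  have := app_eq (fderiv ℝ F p : ℝ × ℝ →ₗ[ℝ] ℝ × ℝ) v
  have h4 := congrArg Prod.fst this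
  simp only [ContinuousLinearMap.coe_coe, Prod.fst_add, Prod.smul_fst, smul_eq_mul] at h4
  rw [h1, h0, zero_mul, zero_add] at h4
  have h5 : v.2 = 0 := by
    rcases mul_eq_zero.1 h4.symm with h5 | h5
    · exact h5
    · exact absurd h5 (h.twist' p).ne'
  exact Prod.ext h0 h5

/-- a nonzero Jacobi field which is `≤ 0` at time `0` and `≥ 0` at time `1` is positive at all
later times -/
theorem jac_pos {p v : ℝ × ℝ} (hv : v ≠ 0) (h0 : v.1 ≤ 0) (h1 : 0 ≤ (fderiv ℝ F p v).1) (n : ℕ) :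
    0 < (fderiv ℝ (F^[n + 2]) p v).1 := by
  have hb := h.twist' p
  have hbn := h.deriv_iter_pos (n + 1) p
  have hβ := h.deriv_iter_pos n (F p)
  have e1 : ∀ w, fderiv ℝ (F^[n + 2]) p w = fderiv ℝ (F^[n + 1]) (F p) (fderiv ℝ F p w) := by
    intro w
    rw [h.fderiv_iter_succ' (n + 1)]; rfl
  have key : (fderiv ℝ F p (0, 1)).1 * (fderiv ℝ (F^[n + 2]) p v).1 =
      (fderiv ℝ (F^[n + 2]) p (0, 1)).1 * (fderiv ℝ F p v).1 -
        (fderiv ℝ (F^[n + 1]) (F p) (0, 1)).1 * v.1 := by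
    have a1 := congrArg Prod.fst
      (app_eq (fderiv ℝ (F^[n + 1]) (F p) : ℝ × ℝ →ₗ[ℝ] ℝ × ℝ) (fderiv ℝ F p v))
    have a2 := congrArg Prod.fst
      (app_eq (fderiv ℝ (F^[n + 1]) (F p) : ℝ × ℝ →ₗ[ℝ] ℝ × ℝ) (fderiv ℝ F p (0, 1)))
    have a3 := inv_fst (h.det p) v
    simp only [ContinuousLinearMap.coe_coe, Prod.fst_add, Prod.smul_fst, smul_eq_mul] at a1 a2 a3
    rw [e1, e1, a1, a2]
    linear_combination ((fderiv ℝ (F^[n + 1]) (F p) (0, 1)).1) * a3
  have hge : 0 ≤ (fderiv ℝ F p (0, 1)).1 * (fderiv ℝ (F^[n + 2]) p v).1 := by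
    rw [key]
    have := mul_nonneg hbn.le h1
    have := mul_nonneg hβ.le (neg_nonneg.2 h0)
    linarith
  refine lt_of_le_of_ne (nonneg_of_mul_nonneg_right hge hb) fun e => ?_
  rw [← e, mul_zero] at key
  have c1 := mul_nonneg hbn.le h1
  have c2 := mul_nonneg hβ.le (neg_nonneg.2 h0)
  have d1 : (fderiv ℝ (F^[n + 2]) p (0, 1)).1 * (fderiv ℝ F p v).1 = 0 := by linarith
  have d2 : (fderiv ℝ (F^[n + 1]) (F p) (0, 1)).1 * v.1 = 0 := by linarith
  have d3 : (fderiv ℝ F p v).1 = 0 := by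
    rcases mul_eq_zero.1 d1 with h5 | h5
    · exact absurd h5 hbn.ne'
    · exact h5
  have d4 : v.1 = 0 := by
    rcases mul_eq_zero.1 d2 with h5 | h5
    · exact absurd h5 hβ.ne'
    · exact h5
  exact hv (h.eq_zero_of_two d4 d3)

/-- **no conjugate points, real times**: a Jacobi field with a zero at time `s ∈ [0, 1]` has no
zero at any later time `k + t` -/
theorem no_conj {p v : ℝ × ℝ} (hv : v ≠ 0) {s t : ℝ} {k : ℕ} (hs : s ∈ Icc (0:ℝ) 1)
    (ht : t ∈ Icc (0:ℝ) 1) (hst : s < k + t) (h0 : jac F p v 0 s = 0) : jac F p v k t ≠ 0 := by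
  -- reduce to the case of a sign change from `≤ 0` to `≥ 0`
  have main : ∀ v : ℝ × ℝ, v ≠ 0 → v.1 ≤ 0 → 0 ≤ (fderiv ℝ F p v).1 → jac F p v 0 s = 0 →
      jac F p v k t ≠ 0 := by
    intro v hv a0 a1 h0
    have e0 : jac F p v 0 s = (1 - s) * v.1 + s * (fderiv ℝ F p v).1 := by
      simp [jac]
    rw [e0] at h0
    rcases k with _ | _ | k
    · intro hz
      have e1 : jac F p v 0 t = (1 - t) * v.1 + t * (fderiv ℝ F p v).1 := by
        simp [jac]
      rw [e1] at hz
      have hst' : s < t := by simpa using hst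
      have h2 : (t - s) * ((fderiv ℝ F p v).1 - v.1) = 0 := by linear_combination hz - h0
      have h3 : (fderiv ℝ F p v).1 = v.1 := by
        rcases mul_eq_zero.1 h2 with h4 | h4
        · linarith
        · linarith
      have h4 : v.1 = 0 := le_antisymm a0 (by rw [← h3]; exact a1)
      exact hv (h.eq_zero_of_two h4 (by rw [h3, h4]))
    · intro hz
      have e1 : jac F p v (0 + 1) t = (1 - t) * (fderiv ℝ F p v).1 +
          t * (fderiv ℝ (F^[0 + 2]) p v).1 := by
        simp [jac]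
      rw [e1] at hz
      have h2 := h.jac_pos hv a0 a1 0
      have c1 : 0 ≤ (1 - t) * (fderiv ℝ F p v).1 := mul_nonneg (by linarith [ht.2]) a1
      have c2 : 0 ≤ t * (fderiv ℝ (F^[0 + 2]) p v).1 := mul_nonneg ht.1 h2.le
      have c3 : t * (fderiv ℝ (F^[0 + 2]) p v).1 = 0 := by linarith
      have c4 : t = 0 := by
        rcases mul_eq_zero.1 c3 with h5 | h5
        · exact h5
        · exact absurd h5 h2.ne'
      rw [c4] at hz hst
      have c5 : (fderiv ℝ F p v).1 = 0 := by linarith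
      have c6 : s < 1 := by simpa using hst
      rw [c5, mul_zero, add_zero] at h0
      have c7 : v.1 = 0 := by
        rcases mul_eq_zero.1 h0 with h5 | h5
        · linarith
        · exact h5
      exact hv (h.eq_zero_of_two c7 c5)
    · have h2 := h.jac_pos hv a0 a1 k
      have h3 := h.jac_pos hv a0 a1 (k + 1)
      refine ne_of_gt ?_
      show 0 < (1 - t) * (fderiv ℝ (F^[k + 2]) p v).1 + t * (fderiv ℝ (F^[k + 1 + 2]) p v).1
      rcases eq_or_lt_of_le ht.1 with h4 | h4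
      · rw [← h4]; simpa using h2
      · have := mul_pos h4 h3
        have := mul_nonneg (by linarith [ht.2] : (0:ℝ) ≤ 1 - t) h2.le
        linarith
  have hneg : ∀ (v : ℝ × ℝ) (k : ℕ) (t : ℝ), jac F p (-v) k t = -jac F p v k t := by
    intro v k t
    simp only [jac, map_neg, Prod.fst_neg]; ring
  have e0 : jac F p v 0 s = (1 - s) * v.1 + s * (fderiv ℝ F p v).1 := by
    simp [jac]
  have h0' := h0
  rw [e0] at h0'
  have hcase : (v.1 ≤ 0 ∧ 0 ≤ (fderiv ℝ F p v).1) ∨ (0 ≤ v.1 ∧ (fderiv ℝ F p v).1 ≤ 0) := by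
    rcases lt_trichotomy v.1 0 with hv1 | hv1 | hv1
    · left
      refine ⟨hv1.le, ?_⟩
      by_contra hc
      push Not at hc
      have c1 : (1 - s) * v.1 ≤ 0 := mul_nonpos_of_nonneg_of_nonpos (by linarith [hs.2]) hv1.le
      have c2 : s * (fderiv ℝ F p v).1 ≤ 0 := mul_nonpos_of_nonneg_of_nonpos hs.1 hc.le
      have c3 : (1 - s) * v.1 = 0 := by linarith
      have c4 : s * (fderiv ℝ F p v).1 = 0 := by linarith
      have c5 : s = 0 := (mul_eq_zero.1 c4).resolve_right hc.ne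
      rw [c5] at c3
      linarith
    · rcases le_total 0 (fderiv ℝ F p v).1 with h5 | h5
      · exact Or.inl ⟨hv1.le, h5⟩
      · exact Or.inr ⟨hv1.ge, h5⟩
    · right
      refine ⟨hv1.le, ?_⟩
      by_contra hc
      push Not at hc
      have c1 : 0 ≤ (1 - s) * v.1 := mul_nonneg (by linarith [hs.2]) hv1.le
      have c2 : 0 ≤ s * (fderiv ℝ F p v).1 := mul_nonneg hs.1 hc.le
      have c3 : (1 - s) * v.1 = 0 := by linarith
      have c4 : s * (fderiv ℝ F p v).1 = 0 := by linarith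
      have c5 : s = 0 := (mul_eq_zero.1 c4).resolve_right hc.ne'
      rw [c5] at c3
      linarith
  rcases hcase with ⟨a0, a1⟩ | ⟨a0, a1⟩
  · exact main v hv a0 a1 h0
  · have := main (-v) (neg_ne_zero.2 hv) (by simpa using a0) (by
      rw [map_neg, Prod.fst_neg]; linarith) (by rw [hneg, h0, neg_zero])
    rw [hneg] at this
    exact fun e => this (by rw [e, neg_zero])

/-- the positions at two different real times determine the tangent vector -/
theorem jac_injective (p : ℝ × ℝ) {s t : ℝ} {k : ℕ} (hs : s ∈ Icc (0:ℝ) 1)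
    (ht : t ∈ Icc (0:ℝ) 1) (hst : s < k + t) {v : ℝ × ℝ} (h0 : jac F p v 0 s = 0)
    (h1 : jac F p v k t = 0) : v = 0 := by
  by_contra hv
  exact h.no_conj hv hs ht hst h0 h1

theorem iter_lab (p : ℝ × ℝ) (n : ℕ) : (F^[n] p).1 = (ff F U (lab U p.1 p.2))^[n] p.1 :=
  h.iter_fst n p.1 p.2

theorem step_lt {Y Y' a b : ℝ} (hY : Y < Y') (hab : a ≤ b) : ff F U Y a < ff F U Y' b :=
  lt_of_lt_of_le (h.ff_mono_left hY a) ((h.ff_strictMono Y').monotone hab)

theorem steps_lt {Y Y' a b : ℝ} (hY : Y < Y') (hab : a ≤ b) (n : ℕ) :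
    (ff F U Y)^[n + 1] a < (ff F U Y')^[n + 1] b := by
  induction n with
  | zero => simpa using h.step_lt hY hab
  | succ n ih =>
    rw [Function.iterate_succ_apply', Function.iterate_succ_apply' (ff F U Y')]
    exact h.step_lt hY ih.le

/-- **two orbits on different leaves cross at most once**, from left to right: if at the time
`s ∈ [0, 1]` the orbit of `q` (on the higher leaf) is not to the left of the orbit of `p`, then
at all later times `k + t` it is strictly to the right -/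
theorem cross_once {p q : ℝ × ℝ} (hl : lab U p.1 p.2 < lab U q.1 q.2) {s t : ℝ} {k : ℕ}
    (hs : s ∈ Icc (0:ℝ) 1) (ht : t ∈ Icc (0:ℝ) 1) (hst : s < k + t)
    (h0 : pos F p 0 s ≤ pos F q 0 s) : pos F p k t < pos F q k t := by
  have e0 : ∀ r : ℝ × ℝ, ∀ τ, pos F r 0 τ = (1 - τ) * r.1 + τ * (F r).1 := fun r τ => by
    simp [pos]
  rw [e0, e0] at h0
  set Y := lab U p.1 p.2
  set Y' := lab U q.1 q.2
  have f1 : (F p).1 = ff F U Y p.1 := by simpa using h.iter_lab p 1
  have g1 : (F q).1 = ff F U Y' q.1 := by simpa using h.iter_lab q 1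
  -- at time `1` the order is already right
  have hone : (F p).1 ≤ (F q).1 := by
    rcases le_or_gt p.1 q.1 with hpq | hpq
    · rw [f1, g1]; exact (h.step_lt hl hpq).le
    · by_contra hc
      push Not at hc
      have c1 : (1 - s) * q.1 ≤ (1 - s) * p.1 :=
        mul_le_mul_of_nonneg_left hpq.le (by linarith [hs.2])
      have c2 : s * (F q).1 ≤ s * (F p).1 := mul_le_mul_of_nonneg_left hc.le hs.1
      rcases eq_or_lt_of_le hs.1 with h5 | h5
      · rw [← h5] at h0; linarith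
      · have := mul_lt_mul_of_pos_left hc h5
        linarith
  have hn : ∀ n, (F^[n + 2] p).1 < (F^[n + 2] q).1 := by
    intro n
    have a1 : (F^[n + 2] p).1 = (ff F U Y)^[n + 1] (F p).1 := by
      rw [h.iter_lab, Function.iterate_succ_apply, ← f1]
    have a2 : (F^[n + 2] q).1 = (ff F U Y')^[n + 1] (F q).1 := by
      rw [h.iter_lab, Function.iterate_succ_apply, ← g1]
    rw [a1, a2]
    exact h.steps_lt hl hone n
  rcases k with _ | _ | k
  · have hst' : s < t := by simpa using hst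
    rw [e0, e0]
    rcases le_or_gt p.1 q.1 with hpq | hpq
    · have a3 : (F p).1 < (F q).1 := by rw [f1, g1]; exact h.step_lt hl hpq
      have ht0 : 0 < t := lt_of_le_of_lt hs.1 hst'
      have := mul_lt_mul_of_pos_left a3 ht0
      have := mul_le_mul_of_nonneg_left hpq (by linarith [ht.2] : (0:ℝ) ≤ 1 - t)
      linarith
    · -- the difference increases
      have d1 : 0 < (F q).1 - (F p).1 + (p.1 - q.1) := by linarith
      have d2 := mul_pos (sub_pos.2 hst') d1
      nlinarith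
  · have e1 : ∀ r : ℝ × ℝ, pos F r (0 + 1) t = (1 - t) * (F r).1 + t * (F^[0 + 2] r).1 := fun r => by
      simp [pos]
    rw [e1, e1]
    have h2 := hn 0
    rcases eq_or_lt_of_le ht.1 with h5 | h5
    · -- `t = 0`: time `1`, strict since `s < 1`
      rw [← h5] at hst ⊢
      have hs1 : s < 1 := by simpa using hst
      simp only [sub_zero, one_mul, zero_mul, add_zero]
      rcases le_or_gt p.1 q.1 with hpq | hpq
      · rw [f1, g1]; exact h.step_lt hl hpq
      · by_contra hc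
        push Not at hc
        have c1 := mul_lt_mul_of_pos_left hpq (by linarith : (0:ℝ) < 1 - s)
        have c2 := mul_le_mul_of_nonneg_left hc hs.1
        linarith
    · have := mul_lt_mul_of_pos_left h2 h5
      have := mul_le_mul_of_nonneg_left hone (by linarith [ht.2] : (0:ℝ) ≤ 1 - t)
      linarith
  · show (1 - t) * (F^[k + 2] p).1 + t * (F^[k + 1 + 2] p).1 <
      (1 - t) * (F^[k + 2] q).1 + t * (F^[k + 1 + 2] q).1
    have h2 := hn k
    have h3 := hn (k + 1)
    rcases eq_or_lt_of_le ht.1 with h5 | h5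
    · rw [← h5]; simpa using h2
    · have := mul_lt_mul_of_pos_left h3 h5
      have := mul_le_mul_of_nonneg_left h2.le (by linarith [ht.2] : (0:ℝ) ≤ 1 - t)
      linarith

/-- two orbits on the same leaf never cross -/
theorem cross_never {p q : ℝ × ℝ} (hl : lab U p.1 p.2 = lab U q.1 q.2) (hpq : p.1 < q.1)
    (k : ℕ) {t : ℝ} (ht : t ∈ Icc (0:ℝ) 1) : pos F p k t < pos F q k t := by
  have hn : ∀ n, (F^[n] p).1 < (F^[n] q).1 := by
    intro n
    rw [h.iter_lab, h.iter_lab, hl]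
    exact (h.ff_strictMono _).iterate n hpq
  have h2 := hn k
  have h3 := hn (k + 1)
  show (1 - t) * (F^[k] p).1 + t * (F^[k + 1] p).1 < (1 - t) * (F^[k] q).1 + t * (F^[k + 1] q).1
  rcases eq_or_lt_of_le ht.1 with h5 | h5
  · rw [← h5]; simpa using h2
  · have := mul_lt_mul_of_pos_left h3 h5
    have := mul_le_mul_of_nonneg_left h2.le (by linarith [ht.2] : (0:ℝ) ≤ 1 - t)
    linarith

end Fol0

end Pool.Agent.Helper37.FTM
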