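import Pool.Agent.Helper37.Fol.CxSer

/-! # Holomorphic extension of a real analytic function of two variables, 1-periodic in `x` -/

set_option autoImplicit false

namespace Pool.Agent.Helper37.FTM

open Set Filter Topology

/-- the real plane in `ℂ²` -/
def rc (p : ℝ × ℝ) : ℂ × ℂ := ((p.1 : ℂ), (p.2 : ℂ))

/-- identity theorem, one variable -/
theorem id_one {D : Set ℂ} (hD : IsOpen D) (hc : IsPreconnected D)
    (hre : ∀ z ∈ D, ((z.re : ℝ) : ℂ) ∈ D) {h : ℂ → ℂ} (hh : DifferentiableOn ℂ h D)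
    (h0 : ∀ x : ℝ, (x : ℂ) ∈ D → h x = 0) : ∀ z ∈ D, h z = 0 := by
  intro z hz
  have hz0 := hre z hz
  have hfr : ∃ᶠ w in 𝓝[≠] ((z.re : ℝ) : ℂ), h w = 0 := by
    have ht : Tendsto (fun x : ℝ => (x : ℂ)) (𝓝[≠] z.re) (𝓝[≠] ((z.re : ℝ) : ℂ)) := by
      refine tendsto_nhdsWithin_iff.2 ⟨?_, ?_⟩
      · exact (Complex.continuous_ofReal.tendsto _).mono_left nhdsWithin_le_nhds
      · filter_upwards [self_mem_nhdsWithin] with x hx
        simpa using hx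
    refine ht.frequently (Eventually.frequently ?_)
    have hD' : ∀ᶠ x : ℝ in 𝓝 z.re, (x : ℂ) ∈ D :=
      Complex.continuous_ofReal.continuousAt.eventually (hD.mem_nhds hz0)
    filter_upwards [hD'.filter_mono nhdsWithin_le_nhds] with x hx
    exact h0 x hx
  exact (hh.analyticOnNhd hD).eqOn_zero_of_preconnected_of_frequently_eq_zero hc hz0 hfr hz

/-- identity theorem, two variables -/
theorem id_two {D E : Set ℂ} (hD : IsOpen D) (hE : IsOpen E) (hDc : IsPreconnected D)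
    (hEc : IsPreconnected E) (hDre : ∀ z ∈ D, ((z.re : ℝ) : ℂ) ∈ D)
    (hEre : ∀ z ∈ E, ((z.re : ℝ) : ℂ) ∈ E) {h : ℂ × ℂ → ℂ} (hh : DifferentiableOn ℂ h (D ×ˢ E))
    (h0 : ∀ x y : ℝ, (x : ℂ) ∈ D → (y : ℂ) ∈ E → h (x, y) = 0) : ∀ z ∈ D ×ˢ E, h z = 0 := by
  have h1 : ∀ x : ℝ, (x : ℂ) ∈ D → ∀ w ∈ E, h (x, w) = 0 := by
    intro x hx
    refine id_one hE hEc hEre (h := fun w => h (x, w)) ?_ fun y hy => h0 x y hx hy
    refine hh.comp (f := fun w : ℂ => ((x : ℂ), w)) ?_ fun w hw => ⟨hx, hw⟩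
    exact ((differentiable_const _).prodMk differentiable_id).differentiableOn
  rintro ⟨a, b⟩ ⟨ha, hb⟩
  refine id_one hD hDc hDre (h := fun a => h (a, b)) ?_ (fun x hx => h1 x hx b hb) a ha
  refine hh.comp (f := fun w : ℂ => (w, b)) ?_ fun w hw => ⟨hw, hb⟩
  exact (differentiable_id.prodMk (differentiable_const _)).differentiableOn

theorem re_mem_ball {c r : ℝ} {z : ℂ} (hz : z ∈ Metric.ball (c : ℂ) r) :
    ((z.re : ℝ) : ℂ) ∈ Metric.ball (c : ℂ) r := by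
  rw [Metric.mem_ball, dist_eq_norm] at hz ⊢
  have e : ((z.re : ℝ) : ℂ) - (c : ℂ) = (((z - c).re : ℝ) : ℂ) := by simp
  rw [e, Complex.norm_real]
  exact lt_of_le_of_lt (Complex.abs_re_le_norm _) hz

theorem ball_rc (p : ℝ × ℝ) (r : ℝ) :
    Metric.ball (rc p) r = Metric.ball (p.1 : ℂ) r ×ˢ Metric.ball (p.2 : ℂ) r :=
  (ball_prod_same _ _ _).symm

theorem isPreconnected_inter (a b : ℂ) (r s : ℝ) :
    IsPreconnected (Metric.ball a r ∩ Metric.ball b s) :=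
  ((convex_ball a r).inter (convex_ball b s)).isPreconnected

/-- two holomorphic functions on balls with real centres which agree on the reals agree -/
theorem eq_of_balls {p p' : ℝ × ℝ} {r r' : ℝ} {h h' : ℂ × ℂ → ℂ}
    (hh : DifferentiableOn ℂ h (Metric.ball (rc p) r))
    (hh' : DifferentiableOn ℂ h' (Metric.ball (rc p') r'))
    (he : ∀ q : ℝ × ℝ, rc q ∈ Metric.ball (rc p) r → rc q ∈ Metric.ball (rc p') r' →
      h (rc q) = h' (rc q)) {z : ℂ × ℂ}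
    (hz : z ∈ Metric.ball (rc p) r) (hz' : z ∈ Metric.ball (rc p') r') : h z = h' z := by
  have hB : Metric.ball (rc p) r ∩ Metric.ball (rc p') r' =
      (Metric.ball (p.1 : ℂ) r ∩ Metric.ball (p'.1 : ℂ) r') ×ˢ
        (Metric.ball (p.2 : ℂ) r ∩ Metric.ball (p'.2 : ℂ) r') := by
    rw [ball_rc, ball_rc, prod_inter_prod]
  have key := id_two (D := Metric.ball (p.1 : ℂ) r ∩ Metric.ball (p'.1 : ℂ) r')
    (E := Metric.ball (p.2 : ℂ) r ∩ Metric.ball (p'.2 : ℂ) r')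
    (Metric.isOpen_ball.inter Metric.isOpen_ball) (Metric.isOpen_ball.inter Metric.isOpen_ball)
    (isPreconnected_inter _ _ _ _) (isPreconnected_inter _ _ _ _)
    (fun w hw => ⟨re_mem_ball hw.1, re_mem_ball hw.2⟩)
    (fun w hw => ⟨re_mem_ball hw.1, re_mem_ball hw.2⟩)
    (h := fun w => h w - h' w) ?_ ?_ z (by rw [← hB]; exact ⟨hz, hz'⟩)
  · exact sub_eq_zero.1 key
  · rw [← hB]
    exact (hh.mono inter_subset_left).sub (hh'.mono inter_subset_right)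
  · intro x y hx hy
    have hm : rc (x, y) ∈ Metric.ball (rc p) r ∩ Metric.ball (rc p') r' := by
      rw [hB]; exact ⟨hx, hy⟩
    exact sub_eq_zero.2 (he (x, y) hm.1 hm.2)

/-- domains around the real plane -/
structure CxDom (O : Set (ℂ × ℂ)) : Prop where
  isOpen : IsOpen O
  real_mem : ∀ p : ℝ × ℝ, rc p ∈ O
  trans_mem : ∀ z, z + (1, 0) ∈ O ↔ z ∈ O
  conj_mem : ∀ z ∈ O, cj z ∈ O
  core : ∀ z ∈ O, ∃ (p : ℝ × ℝ) (r : ℝ), 0 < r ∧ z ∈ Metric.ball (rc p) r ∧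
    Metric.ball (rc p) r ⊆ O

/-- the union of the balls with real centre contained in a set -/
def coreOf (A : Set (ℂ × ℂ)) : Set (ℂ × ℂ) :=
  {z | ∃ (p : ℝ × ℝ) (r : ℝ), 0 < r ∧ z ∈ Metric.ball (rc p) r ∧ Metric.ball (rc p) r ⊆ A}

theorem coreOf_subset (A : Set (ℂ × ℂ)) : coreOf A ⊆ A := fun _ ⟨_, _, _, hz, hA⟩ => hA hz

theorem rc_add_one (p : ℝ × ℝ) : rc p + (1, 0) = rc (p + (1, 0)) := by
  ext <;> simp [rc]

theorem rc_sub_one (p : ℝ × ℝ) : rc p - (1, 0) = rc (p - (1, 0)) := by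
  ext <;> simp [rc]

theorem cj_rc (p : ℝ × ℝ) : cj (rc p) = rc p := by ext <;> simp [cj, rc]

theorem cj_cj (z : ℂ × ℂ) : cj (cj z) = z := by ext <;> simp [cj]

theorem dist_cj (z w : ℂ × ℂ) : dist (cj z) (cj w) = dist z w := by
  rw [Prod.dist_eq, Prod.dist_eq]
  simp only [cj]
  congr 1
  · rw [dist_eq_norm, dist_eq_norm, ← map_sub, RCLike.norm_conj]
  · rw [dist_eq_norm, dist_eq_norm, ← map_sub, RCLike.norm_conj]

theorem cj_mem_ball {p : ℝ × ℝ} {r : ℝ} {z : ℂ × ℂ} (hz : z ∈ Metric.ball (rc p) r) :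
    cj z ∈ Metric.ball (rc p) r := by
  rw [Metric.mem_ball, ← cj_rc p, dist_cj]; exact hz

theorem add_mem_ball {c z a : ℂ × ℂ} {r : ℝ} :
    z + a ∈ Metric.ball (c + a) r ↔ z ∈ Metric.ball c r := by
  rw [Metric.mem_ball, Metric.mem_ball, dist_add_right]

theorem cxDom_coreOf {A : Set (ℂ × ℂ)} (hA : IsOpen A) (hr : ∀ p, rc p ∈ A)
    (ht : ∀ z, z + (1, 0) ∈ A ↔ z ∈ A) : CxDom (coreOf A) := by
  refine ⟨?_, ?_, ?_, ?_, ?_⟩
  · rw [isOpen_iff_mem_nhds]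
    rintro z ⟨p, r, h0, hz, hpA⟩
    filter_upwards [Metric.isOpen_ball.mem_nhds hz] with w hw
    exact ⟨p, r, h0, hw, hpA⟩
  · intro p
    obtain ⟨r, h0, hrA⟩ := Metric.isOpen_iff.1 hA _ (hr p)
    exact ⟨p, r, h0, Metric.mem_ball_self h0, hrA⟩
  · intro z
    constructor
    · rintro ⟨p, r, h0, hz, hpA⟩
      refine ⟨p - (1, 0), r, h0, ?_, fun w hw => ?_⟩
      · rw [← rc_sub_one, ← add_mem_ball (a := (1, 0)), sub_add_cancel]; exact hz
      · rw [← ht]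
        apply hpA
        rw [← rc_sub_one, ← add_mem_ball (a := (1, 0)), sub_add_cancel] at hw
        exact hw
    · rintro ⟨p, r, h0, hz, hpA⟩
      refine ⟨p + (1, 0), r, h0, ?_, fun w hw => ?_⟩
      · rw [← rc_add_one, add_mem_ball]; exact hz
      · have e : w = (w - (1, 0)) + (1, 0) := by rw [sub_add_cancel]
        rw [e, ht]
        apply hpA
        rw [e, ← rc_add_one, add_mem_ball] at hw
        exact hw
  · rintro z ⟨p, r, h0, hz, hpA⟩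
    exact ⟨p, r, h0, cj_mem_ball hz, hpA⟩
  · rintro z ⟨p, r, h0, hz, hpA⟩
    exact ⟨p, r, h0, hz, fun w hw => ⟨p, r, h0, hw, hpA⟩⟩

theorem add_int_mem {A : Set (ℂ × ℂ)} (ht : ∀ z, z + (1, 0) ∈ A ↔ z ∈ A) (z : ℂ × ℂ) (m : ℤ) :
    z + ((m : ℂ), 0) ∈ A ↔ z ∈ A := by
  induction m with
  | zero =>
    have e : z + (((0 : ℤ) : ℂ), 0) = z := by ext <;> simp
    rw [e]
  | succ i hi =>
    rw [← hi, ← ht (z + (((i : ℤ) : ℂ), 0))]
    have e : z + (((i + 1 : ℤ) : ℂ), 0) = z + (((i : ℤ) : ℂ), 0) + (1, 0) := by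
      ext <;> push_cast <;> simp; ring
    rw [e]
  | pred i hi =>
    rw [← hi, ← ht (z + (((-(i : ℤ) - 1 : ℤ) : ℂ), 0))]
    have e : z + (((-(i : ℤ) - 1 : ℤ) : ℂ), 0) + (1, 0) = z + (((-(i : ℤ) : ℤ) : ℂ), 0) := by
      ext <;> push_cast <;> simp; ring
    rw [e]

/-- uniform width over bounded heights -/
theorem exists_unif {A : Set (ℂ × ℂ)} (hA : IsOpen A) (hr : ∀ p, rc p ∈ A)
    (ht : ∀ z, z + (1, 0) ∈ A ↔ z ∈ A) (M : ℝ) :
    ∃ r : ℝ, 0 < r ∧ ∀ p : ℝ × ℝ, |p.2| ≤ M → Metric.ball (rc p) r ⊆ A := by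
  have hK : IsCompact (rc '' (Icc 0 1 ×ˢ Icc (-M) M)) := by
    refine (isCompact_Icc.prod isCompact_Icc).image ?_
    exact (Complex.continuous_ofReal.comp continuous_fst).prodMk
      (Complex.continuous_ofReal.comp continuous_snd)
  obtain ⟨r, h0, hrA⟩ := hK.exists_thickening_subset_open hA (by
    rintro _ ⟨p, -, rfl⟩; exact hr p)
  refine ⟨r, h0, fun p hp w hw => ?_⟩
  rw [← add_int_mem ht w (-⌊p.1⌋)]
  apply hrA
  rw [Metric.mem_thickening_iff]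
  refine ⟨rc (Int.fract p.1, p.2), mem_image_of_mem _ ⟨⟨Int.fract_nonneg _,
    (Int.fract_lt_one _).le⟩, ⟨by linarith [(abs_le.1 hp).1], (abs_le.1 hp).2⟩⟩, ?_⟩
  have e : rc (Int.fract p.1, p.2) = rc p + (((-⌊p.1⌋ : ℤ) : ℂ), 0) := by
    have e1 : ((Int.fract p.1 : ℝ) : ℂ) = (p.1 : ℂ) + ((-⌊p.1⌋ : ℤ) : ℂ) := by
      rw [show Int.fract p.1 = p.1 - ⌊p.1⌋ from rfl]
      push_cast; ring
    ext
    · exact e1
    · simp [rc]
  rw [e, dist_add_right]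
  exact hw

theorem CxDom.exists_unif {O : Set (ℂ × ℂ)} (hO : CxDom O) (M : ℝ) :
    ∃ r : ℝ, 0 < r ∧ ∀ z : ℂ × ℂ, |z.1.im| < r → |z.2.im| < r → |z.2.re| ≤ M → z ∈ O := by
  obtain ⟨r, h0, hr⟩ := FTM.exists_unif hO.isOpen hO.real_mem hO.trans_mem M
  refine ⟨r, h0, fun z h1 h2 h3 => hr (z.1.re, z.2.re) h3 ?_⟩
  rw [Metric.mem_ball, Prod.dist_eq, dist_eq_norm, dist_eq_norm]
  have e1 : z.1 - ((z.1.re : ℝ) : ℂ) = (z.1.im : ℂ) * Complex.I := by
    apply Complex.ext <;> simp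
  have e2 : z.2 - ((z.2.re : ℝ) : ℂ) = (z.2.im : ℂ) * Complex.I := by
    apply Complex.ext <;> simp
  refine max_lt ?_ ?_
  · show ‖z.1 - ((z.1.re : ℝ) : ℂ)‖ < r
    rw [e1, norm_mul, Complex.norm_I, mul_one, Complex.norm_real]; exact h1
  · show ‖z.2 - ((z.2.re : ℝ) : ℂ)‖ < r
    rw [e2, norm_mul, Complex.norm_I, mul_one, Complex.norm_real]; exact h2

/-- identity theorem on a domain around the real plane -/
theorem CxDom.eqOn {O : Set (ℂ × ℂ)} (hO : CxDom O) {h h' : ℂ × ℂ → ℂ}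
    (hh : DifferentiableOn ℂ h O) (hh' : DifferentiableOn ℂ h' O)
    (he : ∀ q : ℝ × ℝ, h (rc q) = h' (rc q)) : EqOn h h' O := by
  intro z hz
  obtain ⟨p, r, h0, hzb, hb⟩ := hO.core z hz
  exact eq_of_balls (hh.mono hb) (hh'.mono hb) (fun q _ _ => he q) hzb hzb

end Pool.Agent.Helper37.FTM
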