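import Pool.Agent.Helper37.Fol.CxMap

/-! # The complexified map: inverse, determinant, twist -/

set_option autoImplicit false

namespace Pool.Agent.Helper37.FTM

open Set Filter Topology

/-- the real plane in `ℂ²` as a linear map -/
noncomputable def rcL : (ℝ × ℝ) →L[ℝ] (ℂ × ℂ) :=
  (Complex.ofRealCLM.comp (ContinuousLinearMap.fst ℝ ℝ ℝ)).prod
    (Complex.ofRealCLM.comp (ContinuousLinearMap.snd ℝ ℝ ℝ))

theorem rcL_apply (p : ℝ × ℝ) : rcL p = rc p := rfl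

theorem continuous_rc : Continuous rc := rcL.continuous

theorem rc_injective : Function.Injective rc := fun p q e => by
  have h1 := congrArg Prod.fst e
  have h2 := congrArg Prod.snd e
  simp only [rc, Complex.ofReal_inj] at h1 h2
  exact Prod.ext h1 h2

/-- the determinant of a complex linear map of the plane, by columns -/
noncomputable def cdet (A : (ℂ × ℂ) →L[ℂ] (ℂ × ℂ)) : ℂ :=
  (A (1, 0)).1 * (A (0, 1)).2 - (A (0, 1)).1 * (A (1, 0)).2

theorem continuous_cdet : Continuous cdet := by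
  unfold cdet; fun_prop

namespace CxMap

variable {F : ℝ × ℝ → ℝ × ℝ} {O : Set (ℂ × ℂ)} {G : ℂ × ℂ → ℂ × ℂ} (h : CxMap F O G)
include h

theorem differentiableAt {z : ℂ × ℂ} (hz : z ∈ O) : DifferentiableAt ℂ G z :=
  (h.an z hz).differentiableAt

theorem continuousOn : ContinuousOn G O := h.an.continuousOn

theorem fderiv_real {p : ℝ × ℝ} (hF : DifferentiableAt ℝ F p) (v : ℝ × ℝ) :
    fderiv ℂ G (rc p) (rc v) = rc (fderiv ℝ F p v) := by
  have h1 : HasFDerivAt G (fderiv ℂ G (rc p)) (rc p) :=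
    (h.differentiableAt (h.real_mem p)).hasFDerivAt
  have h2 : HasFDerivAt (fun q => G (rcL q)) (((fderiv ℂ G (rc p)).restrictScalars ℝ).comp rcL) p :=
    (h1.restrictScalars ℝ).comp p rcL.hasFDerivAt
  have h3 : HasFDerivAt (fun q => rcL (F q)) (rcL.comp (fderiv ℝ F p)) p :=
    rcL.hasFDerivAt.comp p hF.hasFDerivAt
  have e : (fun q => G (rcL q)) = fun q => rcL (F q) := by
    funext q; exact h.real q
  rw [e] at h2
  have h4 := h2.unique h3
  exact congrArg (fun A => A v) h4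

theorem an_fderiv : AnalyticOnNhd ℂ (fderiv ℂ G) O := h.an.fderiv

theorem an_cdet : AnalyticOnNhd ℂ (fun z => cdet (fderiv ℂ G z)) O := by
  intro z hz
  have h1 := h.an_fderiv z hz
  have h2 : ∀ v : ℂ × ℂ, AnalyticAt ℂ (fun z => fderiv ℂ G z v) z := fun v =>
    ((ContinuousLinearMap.apply ℂ (ℂ × ℂ) v).analyticAt _).comp_of_eq h1 rfl
  have h3 : ∀ v : ℂ × ℂ, AnalyticAt ℂ (fun z => (fderiv ℂ G z v).1) z := fun v =>
    analyticAt_fst.comp_of_eq (h2 v) rfl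
  have h4 : ∀ v : ℂ × ℂ, AnalyticAt ℂ (fun z => (fderiv ℂ G z v).2) z := fun v =>
    analyticAt_snd.comp_of_eq (h2 v) rfl
  exact ((h3 _).mul (h4 _)).sub ((h3 _).mul (h4 _))

theorem cdet_eq_one (hF : ∀ p, DifferentiableAt ℝ F p)
    (hdet : ∀ p : ℝ × ℝ, LinearMap.det (fderiv ℝ F p : ℝ × ℝ →ₗ[ℝ] ℝ × ℝ) = 1)
    {z : ℂ × ℂ} (hz : z ∈ O) : cdet (fderiv ℂ G z) = 1 := by
  refine h.toCxDom.eqOn (h' := fun _ => 1) h.an_cdet.differentiableOn
    (differentiableOn_const _) (fun p => ?_) hz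
  have e1 : ((1 : ℂ), (0 : ℂ)) = rc (1, 0) := by ext <;> simp [rc]
  have e2 : ((0 : ℂ), (1 : ℂ)) = rc (0, 1) := by ext <;> simp [rc]
  have hd := hdet p
  rw [det_eq] at hd
  simp only [cdet, e1, e2, h.fderiv_real (hF p)]
  have : (((fderiv ℝ F p (1, 0)).1 * (fderiv ℝ F p (0, 1)).2 -
    (fderiv ℝ F p (0, 1)).1 * (fderiv ℝ F p (1, 0)).2 : ℝ) : ℂ) = 1 := by
    exact_mod_cast hd
  simp only [rc]
  rw [← this]
  push_cast
  rfl

theorem trans_fderiv {z : ℂ × ℂ} (hz : z ∈ O) : fderiv ℂ G (z + (1, 0)) = fderiv ℂ G z := by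
  have h1 : (fun w => G (w + (1, 0))) =ᶠ[𝓝 z] fun w => G w + (1, 0) := by
    filter_upwards [h.isOpen.mem_nhds hz] with w hw
    exact h.map_trans w hw
  have h2 : fderiv ℂ (fun w => G (w + (1, 0))) z = fderiv ℂ G (z + (1, 0)) :=
    fderiv_comp_add_right _
  rw [← h2, h1.fderiv_eq, fderiv_add_const]

/-- restriction to a smaller domain where an open translation invariant condition holds -/
theorem restrict {A : Set (ℂ × ℂ)} (hA : IsOpen A) (hr : ∀ p, rc p ∈ A)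
    (ht : ∀ z, z + (1, 0) ∈ A ↔ z ∈ A) : ∃ O' ⊆ O ∩ A, CxMap F O' G := by
  refine ⟨coreOf (O ∩ A), coreOf_subset _, h.mono ?_ ((coreOf_subset _).trans inter_subset_left)⟩
  refine cxDom_coreOf (h.isOpen.inter hA) (fun p => ⟨h.real_mem p, hr p⟩) fun z => ?_
  constructor
  · rintro ⟨a, b⟩; exact ⟨(h.trans_mem z).1 a, (ht z).1 b⟩
  · rintro ⟨a, b⟩; exact ⟨(h.trans_mem z).2 a, (ht z).2 b⟩

end CxMap

theorem add_one_mem_of {A B : Set (ℂ × ℂ)} {G : ℂ × ℂ → ℂ × ℂ}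
    (hA : ∀ z, z + (1, 0) ∈ A ↔ z ∈ A) (hB : ∀ z, z + (1, 0) ∈ B ↔ z ∈ B)
    (hG : ∀ z ∈ A, G (z + (1, 0)) = G z + (1, 0)) (z : ℂ × ℂ) :
    z + (1, 0) ∈ A ∩ G ⁻¹' B ↔ z ∈ A ∩ G ⁻¹' B := by
  constructor
  · rintro ⟨a, b⟩
    have ha := (hA z).1 a
    refine ⟨ha, ?_⟩
    have b' : G (z + (1, 0)) ∈ B := b
    rw [hG z ha, hB] at b'
    exact b'
  · rintro ⟨a, b⟩
    refine ⟨(hA z).2 a, ?_⟩
    show G (z + (1, 0)) ∈ B
    rw [hG z a, hB]
    exact b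

/-- composition of complexified maps -/
theorem CxMap.comp {F F' : ℝ × ℝ → ℝ × ℝ} {O O' : Set (ℂ × ℂ)} {G G' : ℂ × ℂ → ℂ × ℂ}
    (h : CxMap F O G) (h' : CxMap F' O' G') :
    ∃ O1 ⊆ O ∩ G ⁻¹' O', CxMap (F' ∘ F) O1 (G' ∘ G) := by
  have hopen : IsOpen (O ∩ G ⁻¹' O') := h.continuousOn.isOpen_inter_preimage h.isOpen h'.isOpen
  have hreal : ∀ p, rc p ∈ O ∩ G ⁻¹' O' := fun p => ⟨h.real_mem p, by
    show G (rc p) ∈ O'
    rw [h.real]; exact h'.real_mem _⟩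
  have hD := cxDom_coreOf hopen hreal
    (add_one_mem_of h.trans_mem h'.trans_mem h.map_trans)
  have hs := coreOf_subset (O ∩ G ⁻¹' O')
  refine ⟨_, hs, hD, ?_, ?_, ?_, ?_⟩
  · intro z hz
    exact (h'.an _ (hs hz).2).comp_of_eq (h.an z (hs hz).1) rfl
  · intro p
    show G' (G (rc p)) = _
    rw [h.real, h'.real]; rfl
  · intro z hz
    show G' (G (z + (1, 0))) = G' (G z) + (1, 0)
    rw [h.map_trans z (hs hz).1, h'.map_trans _ (hs hz).2]
  · intro z hz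
    show G' (G (cj z)) = cj (G' (G z))
    rw [h.map_conj z (hs hz).1, h'.map_conj _ (hs hz).2]

/-- two complexifications of the same map agree -/
theorem CxMap.eqOn {F : ℝ × ℝ → ℝ × ℝ} {O O' : Set (ℂ × ℂ)} {G G' : ℂ × ℂ → ℂ × ℂ}
    (h : CxMap F O G) (h' : CxMap F O' G') (hs : O ⊆ O') : EqOn G G' O := by
  have hd := h'.diff.mono hs
  have e1 := h.toCxDom.eqOn (h := fun z => (G z).1) (h' := fun z => (G' z).1)
    h.diff.fst hd.fst (fun q => by rw [h.real, h'.real])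
  have e2 := h.toCxDom.eqOn (h := fun z => (G z).2) (h' := fun z => (G' z).2)
    h.diff.snd hd.snd (fun q => by rw [h.real, h'.real])
  exact fun z hz => Prod.ext (e1 hz) (e2 hz)

theorem cxMap_id (O : Set (ℂ × ℂ)) (hO : CxDom O) : CxMap id O id :=
  ⟨hO, analyticOnNhd_id, fun _ => rfl, fun _ _ => rfl, fun _ _ => rfl⟩

variable {F : ℝ × ℝ → ℝ × ℝ} {U : ℝ → ℝ → ℝ}

theorem Fol0.Fi_per' (h : Fol0 F U) (x y : ℝ) :
    Fi F (x + 1, y) = ((Fi F (x, y)).1 + 1, (Fi F (x, y)).2) := by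
  have := h.Fi_per (x + 1) y
  rw [add_sub_cancel_right] at this
  rw [this]; simp

/-- **R4**: complexification of a foliated twist map and of its inverse.  On `O` the map is
holomorphic, unimodular and twisting, on the smaller domain `O1` the two extensions are
inverse to each other -/
theorem Fol0.exists_cx (h : Fol0 F U) : ∃ (O : Set (ℂ × ℂ)) (G Gi : ℂ × ℂ → ℂ × ℂ),
    CxMap F O G ∧ CxMap (Fi F) O Gi ∧
    (∀ z ∈ O, cdet (fderiv ℂ G z) = 1 ∧ 0 < (fderiv ℂ G z (0, 1)).1.re ∧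
      cdet (fderiv ℂ Gi z) = 1 ∧ (fderiv ℂ Gi z (0, 1)).1.re < 0) ∧
    ∃ O1 ⊆ O, CxDom O1 ∧ ∀ z ∈ O1, G z ∈ O ∧ Gi z ∈ O ∧ Gi (G z) = z ∧ G (Gi z) = z := by
  obtain ⟨Oa, G, hG⟩ := exists_cxMap h.an h.per
  obtain ⟨Ob, Gi, hGi⟩ := exists_cxMap h.analytic_Fi h.Fi_per'
  have hdF : ∀ p, DifferentiableAt ℝ F p := h.differentiableAt_F
  have hdFi : ∀ p, DifferentiableAt ℝ (Fi F) p := fun p => (h.hasFDerivAt_Fi p).differentiableAt
  have e2 : ((0 : ℂ), (1 : ℂ)) = rc (0, 1) := by ext <;> simp [rc]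
  -- domain for `G`
  set A : Set (ℂ × ℂ) := {z ∈ Oa | 0 < (fderiv ℂ G z (0, 1)).1.re} with hA
  have hAo : IsOpen A := by
    have hc : ContinuousOn (fun z => (fderiv ℂ G z (0, 1)).1.re) Oa := by
      have := hG.an_fderiv.continuousOn
      fun_prop
    exact hc.isOpen_inter_preimage hG.isOpen isOpen_Ioi
  have hAr : ∀ p, rc p ∈ A := fun p => by
    refine ⟨hG.real_mem p, ?_⟩
    rw [e2, hG.fderiv_real (hdF p)]
    have := h.deriv_iter_pos 0 p
    simpa [rc] using this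
  have hAt : ∀ z, z + (1, 0) ∈ A ↔ z ∈ A := fun z => by
    constructor
    · rintro ⟨a, b⟩
      have ha := (hG.trans_mem z).1 a
      exact ⟨ha, by rwa [hG.trans_fderiv ha] at b⟩
    · rintro ⟨a, b⟩
      exact ⟨(hG.trans_mem z).2 a, by rwa [hG.trans_fderiv a]⟩
  -- domain for `Gi`
  set B : Set (ℂ × ℂ) := {z ∈ Ob | 0 < -(fderiv ℂ Gi z (0, 1)).1.re} with hB
  have hBo : IsOpen B := by
    have hc : ContinuousOn (fun z => -(fderiv ℂ Gi z (0, 1)).1.re) Ob := by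
      have := hGi.an_fderiv.continuousOn
      fun_prop
    exact hc.isOpen_inter_preimage hGi.isOpen isOpen_Ioi
  have hneg : ∀ p, (fderiv ℝ (Fi F) p (0, 1)).1 < 0 := fun p => by
    rw [(h.hasFDerivAt_Fi p).fderiv]
    set w := Fi F p with hw
    set v := (h.dE w).symm ((0 : ℝ), (1 : ℝ)) with hv
    have h5 : fderiv ℝ F w v = (0, 1) := by
      rw [← h.coe_dE w, hv]; simp
    have h6 := inv_fst (h.det w) v
    have h7 : ((fderiv ℝ F w : ℝ × ℝ →ₗ[ℝ] ℝ × ℝ)) v = (0, 1) := h5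
    rw [h7] at h6
    have h8 : 0 < (fderiv ℝ F w (0, 1)).1 := by
      have := h.deriv_iter_pos 0 w
      simpa using this
    show v.1 < 0
    rw [h6]
    simp only [mul_zero, mul_one, zero_sub, Left.neg_neg_iff]
    exact h8
  have hBr : ∀ p, rc p ∈ B := fun p => by
    refine ⟨hGi.real_mem p, ?_⟩
    rw [e2, hGi.fderiv_real (hdFi p)]
    have := hneg p
    simpa [rc] using this
  have hBt : ∀ z, z + (1, 0) ∈ B ↔ z ∈ B := fun z => by
    constructor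
    · rintro ⟨a, b⟩
      have ha := (hGi.trans_mem z).1 a
      exact ⟨ha, by rwa [hGi.trans_fderiv ha] at b⟩
    · rintro ⟨a, b⟩
      exact ⟨(hGi.trans_mem z).2 a, by rwa [hGi.trans_fderiv a]⟩
  set O := coreOf (A ∩ B) with hO
  have hOs : O ⊆ A ∩ B := coreOf_subset _
  have hOD : CxDom O := cxDom_coreOf (hAo.inter hBo) (fun p => ⟨hAr p, hBr p⟩) fun z => by
    constructor
    · rintro ⟨a, b⟩; exact ⟨(hAt z).1 a, (hBt z).1 b⟩
    · rintro ⟨a, b⟩; exact ⟨(hAt z).2 a, (hBt z).2 b⟩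
  have h1 : CxMap F O G := hG.mono hOD fun z hz => (hOs hz).1.1
  have h2 : CxMap (Fi F) O Gi := hGi.mono hOD fun z hz => (hOs hz).2.1
  have hdetFi : ∀ p : ℝ × ℝ, LinearMap.det (fderiv ℝ (Fi F) p : ℝ × ℝ →ₗ[ℝ] ℝ × ℝ) = 1 := by
    intro p
    rw [(h.hasFDerivAt_Fi p).fderiv]
    exact h.det_symm _
  refine ⟨O, G, Gi, h1, h2, fun z hz => ⟨h1.cdet_eq_one hdF h.det hz, (hOs hz).1.2,
    h2.cdet_eq_one hdFi hdetFi hz, by have := (hOs hz).2.2; linarith⟩, ?_⟩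
  obtain ⟨O2, hO2, hc2⟩ := h1.comp h2
  obtain ⟨O3, hO3, hc3⟩ := h2.comp h1
  have hid1 : (Fi F) ∘ F = id := funext h.Fi_F
  have hid2 : F ∘ (Fi F) = id := funext h.F_Fi
  rw [hid1] at hc2
  rw [hid2] at hc3
  have hD : CxDom (coreOf (O2 ∩ O3)) := hc2.toCxDom.inter hc3.toCxDom
  have hs : coreOf (O2 ∩ O3) ⊆ O2 ∩ O3 := coreOf_subset _
  refine ⟨_, fun z hz => (hO2 (hs hz).1).1, hD, fun z hz => ⟨(hO2 (hs hz).1).2,
    (hO3 (hs hz).2).2, ?_, ?_⟩⟩
  · exact (hc2.mono hD (hs.trans inter_subset_left)).eqOn (cxMap_id _ hD) subset_rfl hz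
  · exact (hc3.mono hD (hs.trans inter_subset_right)).eqOn (cxMap_id _ hD) subset_rfl hz

end Pool.Agent.Helper37.FTM
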