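import Pool.Agent.Helper37.Fol.Div

/-! # Reduction to a map with the leaf `y = 0` consisting of fixed points -/

set_option autoImplicit false

namespace Pool.Agent.Helper37.FTM

open Set Filter Topology

variable {F : ℝ × ℝ → ℝ × ℝ} {U : ℝ → ℝ → ℝ} {v : ℝ → ℝ}

/-- the shear `(x, y) ↦ (x, y + v x)` -/
def shear (v : ℝ → ℝ) (z : ℝ × ℝ) : ℝ × ℝ := (z.1, z.2 + v z.1)

/-- conjugation by a shear -/
def shF (v : ℝ → ℝ) (F : ℝ × ℝ → ℝ × ℝ) (z : ℝ × ℝ) : ℝ × ℝ :=
  shear (fun x => -v x) (F (shear v z))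

/-- the sheared leaves -/
def shU (v : ℝ → ℝ) (U : ℝ → ℝ → ℝ) (Y x : ℝ) : ℝ := U (Y + v 0) x - v x

theorem shear_shear (z : ℝ × ℝ) : shear (fun x => -v x) (shear v z) = z := by
  ext <;> simp [shear]

theorem shear_shear' (z : ℝ × ℝ) : shear v (shear (fun x => -v x) z) = z := by
  ext <;> simp [shear]

theorem shear_bijective : Function.Bijective (shear v) :=
  ⟨fun a b e => by rw [← shear_shear (v := v) a, e, shear_shear],
    fun z => ⟨shear (fun x => -v x) z, shear_shear' z⟩⟩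

theorem analytic_shear (hv : AnalyticOnNhd ℝ v univ) : AnalyticOnNhd ℝ (shear v) univ := by
  intro z _
  have h1 : AnalyticAt ℝ (fun z : ℝ × ℝ => v z.1) z :=
    (hv z.1 (mem_univ _)).comp_of_eq analyticAt_fst rfl
  exact AnalyticAt.prod analyticAt_fst (analyticAt_snd.add h1)

theorem hasFDerivAt_shear (hv : AnalyticOnNhd ℝ v univ) (z : ℝ × ℝ) :
    HasFDerivAt (shear v) ((ContinuousLinearMap.fst ℝ ℝ ℝ).prod
      (ContinuousLinearMap.snd ℝ ℝ ℝ + (deriv v z.1) • ContinuousLinearMap.fst ℝ ℝ ℝ)) z := by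
  have h1 : HasFDerivAt (fun z : ℝ × ℝ => v z.1)
      ((deriv v z.1) • ContinuousLinearMap.fst ℝ ℝ ℝ) z :=
    ((hv z.1 (mem_univ _)).differentiableAt.hasDerivAt.comp_hasFDerivAt z hasFDerivAt_fst)
  exact hasFDerivAt_fst.prodMk (hasFDerivAt_snd.add h1)

theorem det_shear (hv : AnalyticOnNhd ℝ v univ) (z : ℝ × ℝ) :
    LinearMap.det (fderiv ℝ (shear v) z : ℝ × ℝ →ₗ[ℝ] ℝ × ℝ) = 1 := by
  rw [(hasFDerivAt_shear hv z).fderiv, det_eq]
  simp

theorem analytic_neg (hv : AnalyticOnNhd ℝ v univ) : AnalyticOnNhd ℝ (fun x => -v x) univ :=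
  fun x hx => (hv x hx).neg

namespace Fol0

variable (h : Fol0 F U)
include h

/-- the class is stable under shears -/
theorem fol0_shear (hv : AnalyticOnNhd ℝ v univ) (hv1 : ∀ x, v (x + 1) = v x) :
    Fol0 (shF v F) (shU v U) := by
  have hgr : ∀ Y x, shear v (x, shU v U Y x) = (x, U (Y + v 0) x) := fun Y x => by
    ext <;> simp [shear, shU]
  refine ⟨⟨?_, ?_, ?_, ?_, ?_, ?_, ?_, ?_, ?_⟩, ?_⟩
  · exact (analytic_shear (analytic_neg hv)).comp (h.an.comp (analytic_shear hv)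
      (fun _ _ => mem_univ _)) (fun _ _ => mem_univ _)
  · exact shear_bijective.comp (h.bij.comp shear_bijective)
  · intro x y
    have e1 : shear v (x + 1, y) = ((shear v (x, y)).1 + 1, (shear v (x, y)).2) := by
      ext <;> simp [shear, hv1]
    simp only [shF, e1, h.per]
    ext <;> simp [shear, hv1]
  · intro z
    have h1 := (hasFDerivAt_shear hv z)
    have h2 := (h.differentiableAt_F (shear v z)).hasFDerivAt
    have h3 := (hasFDerivAt_shear (analytic_neg hv) (F (shear v z)))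
    have h4 : HasFDerivAt (shF v F) _ z := h3.comp z (h2.comp z h1)
    rw [h4.fderiv, ContinuousLinearMap.toLinearMap_comp, ContinuousLinearMap.toLinearMap_comp,
      LinearMap.det_comp, LinearMap.det_comp, h.det]
    have d1 := det_shear hv z
    have d3 := det_shear (analytic_neg hv) (F (shear v z))
    rw [h1.fderiv] at d1
    rw [h3.fderiv] at d3
    rw [d1, d3]; norm_num
  · intro x y
    have e : (fun t : ℝ => (shF v F (x, t)).1) = fun t => (fun s => (F (x, s)).1) (t + v x) := by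
      funext t; simp [shF, shear]
    rw [e, deriv_comp_add_const (f := fun s => (F (x, s)).1)]
    exact h.twist x (y + v x)
  · intro c
    have : Continuous v := continuous_iff_continuousAt.2 fun x => (hv x (mem_univ x)).continuousAt
    exact (h.cont _).sub this
  · intro c x
    simp only [shU, h.uper, hv1]
  · intro c x
    simp only [shF, hgr, h.F_graph]
    simp [shear, shU, sub_eq_add_neg]
  · intro p
    refine ⟨lab U p.1 (p.2 + v p.1) - v 0, ?_, fun c hc => ?_⟩
    · simp only [shU, sub_add_cancel, h.lab_spec]; ring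
    · have : U (c + v 0) p.1 = p.2 + v p.1 := by
        simp only [shU] at hc; linarith
      rw [h.eq_lab this]; ring
  · intro Y
    simp [shU, h.zero]

theorem shU_zero (Y : ℝ) (x : ℝ) : shU (U Y) U 0 x = 0 := by
  simp [shU, h.zero]

end Fol0

/-- **R2**: reduction to a map with the leaf `y = 0` of fixed points -/
theorem Fol.reduce {u : ℝ → ℝ → ℝ} (h : Fol F u) : ∃ (G : ℝ × ℝ → ℝ × ℝ) (U' : ℝ → ℝ → ℝ),
    Fol0 G U' ∧ (∀ x, U' 0 x = 0) ∧ (∀ x, G (x, 0) = (x, 0)) ∧
    ((∀ Y, AnalyticOnNhd ℝ (U' Y) univ) → ∀ c, AnalyticOnNhd ℝ (u c) univ) := by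
  obtain ⟨U, hU, -, hu⟩ := h.exists_fol0
  obtain ⟨Y0, -, q, p, hqp⟩ := hU.exists_rational_between (zero_lt_one (α := ℝ))
  have hv : AnalyticOnNhd ℝ (U Y0) univ := hU.analytic_of_periodic hqp
  have h1 : Fol0 (GG F (q + 1) p) U := hU.fol0_GG q p
  have h2 := h1.fol0_shear hv (hU.uper Y0)
  refine ⟨_, _, h2, h1.shU_zero Y0, fun x => ?_, fun han c => ?_⟩
  · have e : shear (U Y0) (x, 0) = (x, U Y0 x) := by ext <;> simp [shear]
    have e2 : ff (GG F (q + 1) p) U Y0 x = x := by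
      rw [hU.ff_GG, hqp]; ring
    simp only [shF, e]
    rw [h1.F_graph, e2]
    ext <;> simp [shear]
  · rw [hu c]
    set Z := u c 0
    have h3 : AnalyticOnNhd ℝ (shU (U Y0) U (Z - U Y0 0)) univ := han _
    have e : U Z = fun x => shU (U Y0) U (Z - U Y0 0) x + U Y0 x := by
      funext x; simp [shU]
    rw [e]
    exact fun x hx => (h3 x hx).add (hv x hx)

end Pool.Agent.Helper37.FTM
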