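import Pool.Agent.Helper37.Fol.Cx
import Pool.Agent.Helper37.Fol.Reduce

/-! # Complexification of the map and of its inverse -/

set_option autoImplicit false

namespace Pool.Agent.Helper37.FTM

open Set Filter Topology

/-- holomorphic extension of a real analytic function with `f (x + 1, y) = f (x, y) + c` -/
theorem exists_cx_fun {f : ℝ × ℝ → ℝ} (hf : AnalyticOnNhd ℝ f univ) {c : ℝ}
    (hper : ∀ x y, f (x + 1, y) = f (x, y) + c) :
    ∃ (O : Set (ℂ × ℂ)) (g : ℂ × ℂ → ℂ), CxDom O ∧ AnalyticOnNhd ℂ g O ∧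
      (∀ p, g (rc p) = (f p : ℂ)) ∧ (∀ z ∈ O, g (z + (1, 0)) = g z + c) ∧
      (∀ z ∈ O, g (cj z) = starRingEnd ℂ (g z)) := by
  have hint : ∀ (m : ℤ) (x y : ℝ), f (x + m, y) = f (x, y) + m * c := by
    intro m x y
    induction m with
    | zero => simp
    | succ i hi =>
      have e : x + ((i + 1 : ℤ) : ℝ) = (x + ((i : ℤ) : ℝ)) + 1 := by push_cast; ring
      rw [e, hper, hi]; push_cast; ring
    | pred i hi =>
      have e : x + ((-(i : ℤ) : ℤ) : ℝ) = (x + ((-(i : ℤ) - 1 : ℤ) : ℝ)) + 1 := by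
        push_cast; ring
      rw [e, hper] at hi
      push_cast at hi ⊢
      linarith
  choose r0 hr0 P0 hP0 hP0r hP0c using fun p : ℝ × ℝ => exists_local_ext (hf p (mem_univ p))
  set r : ℝ × ℝ → ℝ := fun p => r0 (Int.fract p.1, p.2) with hrdef
  have hr : ∀ p, 0 < r p := fun p => hr0 _
  set P : ℝ × ℝ → ℂ × ℂ → ℂ := fun p z =>
    P0 (Int.fract p.1, p.2) (z - (((⌊p.1⌋ : ℤ) : ℂ), 0)) + ((⌊p.1⌋ : ℤ) : ℂ) * (c : ℂ) with hPdef
  have hmem : ∀ (p : ℝ × ℝ) (z : ℂ × ℂ), z ∈ Metric.ball (rc p) (r p) →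
      z - (((⌊p.1⌋ : ℤ) : ℂ), 0) ∈ Metric.ball
        (((Int.fract p.1 : ℝ) : ℂ), ((p.2 : ℝ) : ℂ)) (r p) := by
    intro p z hz
    have e : (((Int.fract p.1 : ℝ) : ℂ), ((p.2 : ℝ) : ℂ)) = rc p - (((⌊p.1⌋ : ℤ) : ℂ), 0) := by
      ext
      · show ((Int.fract p.1 : ℝ) : ℂ) = (p.1 : ℂ) - ((⌊p.1⌋ : ℤ) : ℂ)
        rw [show Int.fract p.1 = p.1 - ⌊p.1⌋ from rfl]
        push_cast; ring
      · simp [rc]
    rw [e, Metric.mem_ball, dist_sub_right]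
    exact hz
  have hPa : ∀ p, AnalyticOnNhd ℂ (P p) (Metric.ball (rc p) (r p)) := by
    intro p z hz
    refine AnalyticAt.add ?_ analyticAt_const
    exact (hP0 (Int.fract p.1, p.2) _ (hmem p z hz)).comp_of_eq
      (f := fun z => z - (((⌊p.1⌋ : ℤ) : ℂ), (0 : ℂ))) (analyticAt_id.sub analyticAt_const) rfl
  have hP : ∀ p, DifferentiableOn ℂ (P p) (Metric.ball (rc p) (r p)) := fun p =>
    (hPa p).differentiableOn
  have hPr : ∀ p q, rc q ∈ Metric.ball (rc p) (r p) → P p (rc q) = (f q : ℂ) := by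
    intro p q hq
    have h1 := hmem p _ hq
    have e : rc q - (((⌊p.1⌋ : ℤ) : ℂ), 0) = (((q.1 - ⌊p.1⌋ : ℝ) : ℂ), ((q.2 : ℝ) : ℂ)) := by
      ext <;> simp [rc]
    rw [e] at h1
    have h2 := hP0r (Int.fract p.1, p.2) _ _ h1
    have h3 := hint ⌊p.1⌋ (q.1 - ⌊p.1⌋) q.2
    rw [sub_add_cancel, Prod.mk.eta] at h3
    simp only [hPdef, e, h2, h3]
    push_cast; ring
  have hPc : ∀ p z, P p (cj z) = starRingEnd ℂ (P p z) := by
    intro p z
    have e : cj z - (((⌊p.1⌋ : ℤ) : ℂ), 0) = cj (z - (((⌊p.1⌋ : ℤ) : ℂ), 0)) := by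
      ext <;> simp [cj]
    simp only [hPdef, e, hP0c, map_add, map_mul, Complex.conj_ofReal, map_intCast]
  classical
  set O : Set (ℂ × ℂ) := {z | ∃ p : ℝ × ℝ, z ∈ Metric.ball (rc p) (r p)} with hO
  set g : ℂ × ℂ → ℂ := fun z => if hz : z ∈ O then P hz.choose z else 0 with hg
  have hgP : ∀ p z, z ∈ Metric.ball (rc p) (r p) → g z = P p z := by
    intro p z hz
    have hzO : z ∈ O := ⟨p, hz⟩
    simp only [hg, hzO, dif_pos]
    exact eq_of_balls (hP _) (hP p) (fun q hq hq' => by rw [hPr _ _ hq, hPr _ _ hq'])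
      hzO.choose_spec hz
  have hrper : ∀ p : ℝ × ℝ, r (p + (1, 0)) = r p := fun p => by
    simp [hrdef]
  refine ⟨O, g, ⟨?_, ?_, ?_, ?_, ?_⟩, ?_, ?_, ?_, ?_⟩
  · rw [isOpen_iff_mem_nhds]
    rintro z ⟨p, hz⟩
    filter_upwards [Metric.isOpen_ball.mem_nhds hz] with w hw
    exact ⟨p, hw⟩
  · exact fun p => ⟨p, Metric.mem_ball_self (hr p)⟩
  · intro z
    constructor
    · rintro ⟨p, hz⟩
      refine ⟨p - (1, 0), ?_⟩
      have : r (p - (1, 0)) = r p := by rw [← hrper (p - (1, 0)), sub_add_cancel]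
      rw [this, ← rc_sub_one, ← add_mem_ball (a := (1, 0)), sub_add_cancel]; exact hz
    · rintro ⟨p, hz⟩
      refine ⟨p + (1, 0), ?_⟩
      rw [hrper, ← rc_add_one, add_mem_ball]; exact hz
  · rintro z ⟨p, hz⟩
    exact ⟨p, cj_mem_ball hz⟩
  · rintro z ⟨p, hz⟩
    exact ⟨p, r p, hr p, hz, fun w hw => ⟨p, hw⟩⟩
  · rintro z ⟨p, hz⟩
    refine (hPa p z hz).congr ?_
    filter_upwards [Metric.isOpen_ball.mem_nhds hz] with w hw
    exact (hgP p w hw).symm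
  · intro p
    rw [hgP p _ (Metric.mem_ball_self (hr p)), hPr _ _ (Metric.mem_ball_self (hr p))]
  · rintro z ⟨p, hz⟩
    have hz1 : z + (1, 0) ∈ Metric.ball (rc (p + (1, 0))) (r (p + (1, 0))) := by
      rw [hrper, ← rc_add_one, add_mem_ball]; exact hz
    rw [hgP _ _ hz1, hgP _ _ hz]
    have e : P (p + (1, 0)) (z + (1, 0)) = P p z + c := by
      simp only [hPdef]
      have e1 : (Int.fract (p + (1, 0)).1, (p + (1, 0)).2) = (Int.fract p.1, p.2) := by simp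
      have e2 : ⌊(p + ((1 : ℝ), (0 : ℝ))).1⌋ = ⌊p.1⌋ + 1 := by simp
      have e3 : z + (1, 0) - (((⌊(p + ((1 : ℝ), (0 : ℝ))).1⌋ : ℤ) : ℂ), 0) =
          z - (((⌊p.1⌋ : ℤ) : ℂ), 0) := by
        rw [e2]; ext
        · push_cast; simp
        · simp
      rw [e1, e3, e2]
      push_cast; ring
    exact e
  · rintro z ⟨p, hz⟩
    rw [hgP _ _ hz, hgP _ _ (cj_mem_ball hz), hPc]

/-- a holomorphic extension of a map of the plane commuting with the unit translation -/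
structure CxMap (F : ℝ × ℝ → ℝ × ℝ) (O : Set (ℂ × ℂ)) (G : ℂ × ℂ → ℂ × ℂ) : Prop
    extends CxDom O where
  an : AnalyticOnNhd ℂ G O
  real : ∀ p, G (rc p) = rc (F p)
  map_trans : ∀ z ∈ O, G (z + (1, 0)) = G z + (1, 0)
  map_conj : ∀ z ∈ O, G (cj z) = cj (G z)

theorem CxMap.diff {F : ℝ × ℝ → ℝ × ℝ} {O : Set (ℂ × ℂ)} {G : ℂ × ℂ → ℂ × ℂ}
    (h : CxMap F O G) : DifferentiableOn ℂ G O := h.an.differentiableOn

theorem CxMap.mono {F : ℝ × ℝ → ℝ × ℝ} {O O' : Set (ℂ × ℂ)} {G : ℂ × ℂ → ℂ × ℂ}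
    (h : CxMap F O G) (hO' : CxDom O') (hs : O' ⊆ O) : CxMap F O' G :=
  ⟨hO', h.an.mono hs, h.real, fun z hz => h.map_trans z (hs hz), fun z hz => h.map_conj z (hs hz)⟩

theorem CxDom.inter {O O' : Set (ℂ × ℂ)} (h : CxDom O) (h' : CxDom O') :
    CxDom (coreOf (O ∩ O')) :=
  cxDom_coreOf (h.isOpen.inter h'.isOpen) (fun p => ⟨h.real_mem p, h'.real_mem p⟩)
    fun z => by
      constructor
      · rintro ⟨a, b⟩; exact ⟨(h.trans_mem z).1 a, (h'.trans_mem z).1 b⟩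
      · rintro ⟨a, b⟩; exact ⟨(h.trans_mem z).2 a, (h'.trans_mem z).2 b⟩

theorem exists_cxMap {F : ℝ × ℝ → ℝ × ℝ} (hF : AnalyticOnNhd ℝ F univ)
    (hper : ∀ x y, F (x + 1, y) = ((F (x, y)).1 + 1, (F (x, y)).2)) :
    ∃ (O : Set (ℂ × ℂ)) (G : ℂ × ℂ → ℂ × ℂ), CxMap F O G := by
  have h1 : AnalyticOnNhd ℝ (fun p => (F p).1) univ := fun p hp =>
    (analyticAt_fst).comp_of_eq (hF p hp) rfl
  have h2 : AnalyticOnNhd ℝ (fun p => (F p).2) univ := fun p hp =>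
    (analyticAt_snd).comp_of_eq (hF p hp) rfl
  obtain ⟨O1, g1, hO1, d1, r1, t1, c1⟩ := exists_cx_fun (c := 1) h1 (fun x y => by
    simp [hper])
  obtain ⟨O2, g2, hO2, d2, r2, t2, c2⟩ := exists_cx_fun (c := 0) h2 (fun x y => by
    simp [hper])
  have hs : coreOf (O1 ∩ O2) ⊆ O1 ∩ O2 := coreOf_subset _
  refine ⟨coreOf (O1 ∩ O2), fun z => (g1 z, g2 z), hO1.inter hO2, ?_, ?_, ?_, ?_⟩
  · exact fun z hz => AnalyticAt.prod (d1 z (hs hz).1) (d2 z (hs hz).2)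
  · intro p
    ext
    · exact r1 p
    · exact r2 p
  · intro z hz
    ext
    · show g1 (z + (1, 0)) = g1 z + 1
      rw [t1 z (hs hz).1]; simp
    · show g2 (z + (1, 0)) = g2 z + 0
      rw [t2 z (hs hz).2]; simp
  · intro z hz
    ext
    · exact c1 z (hs hz).1
    · exact c2 z (hs hz).2

end Pool.Agent.Helper37.FTM
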