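import Pool.Agent.Helper37.Fol.CxDyn

/-! # Complexification of a function which is analytic on an open part of the plane -/

set_option autoImplicit false

namespace Pool.Agent.Helper37.FTM

open Set Filter Topology

/-- domains in `ℂ²` around an open set `Ω` of the real plane -/
structure CxDomOn (Ω : Set (ℝ × ℝ)) (O : Set (ℂ × ℂ)) : Prop where
  isOpen : IsOpen O
  real_iff : ∀ p : ℝ × ℝ, rc p ∈ O ↔ p ∈ Ω
  trans_mem : ∀ z, z + (1, 0) ∈ O ↔ z ∈ O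
  conj_mem : ∀ z ∈ O, cj z ∈ O

/-- a holomorphic extension of a function with `f (x + 1, y) = f (x, y) + c` -/
structure CxFunOn (f : ℝ × ℝ → ℝ) (Ω : Set (ℝ × ℝ)) (c : ℝ) (O : Set (ℂ × ℂ))
    (g : ℂ × ℂ → ℂ) : Prop extends CxDomOn Ω O where
  an : AnalyticOnNhd ℂ g O
  real : ∀ p ∈ Ω, g (rc p) = (f p : ℂ)
  map_trans : ∀ z ∈ O, g (z + (1, 0)) = g z + c
  map_conj : ∀ z ∈ O, g (cj z) = starRingEnd ℂ (g z)

theorem dist_rc (p q : ℝ × ℝ) : dist (rc p) (rc q) = dist p q := by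
  rw [Prod.dist_eq, Prod.dist_eq]
  simp only [rc]
  congr 1
  · rw [Complex.dist_eq, ← Complex.ofReal_sub, Complex.norm_real, Real.dist_eq, Real.norm_eq_abs]
  · rw [Complex.dist_eq, ← Complex.ofReal_sub, Complex.norm_real, Real.dist_eq, Real.norm_eq_abs]

theorem exists_cx_on {f : ℝ × ℝ → ℝ} {Ω : Set (ℝ × ℝ)} (hΩ : IsOpen Ω)
    (htΩ : ∀ p, p + (1, 0) ∈ Ω ↔ p ∈ Ω) (hf : AnalyticOnNhd ℝ f Ω) {c : ℝ}
    (hper : ∀ x y, f (x + 1, y) = f (x, y) + c) :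
    ∃ (O : Set (ℂ × ℂ)) (g : ℂ × ℂ → ℂ), CxFunOn f Ω c O g := by
  have hint : ∀ (m : ℤ) (x y : ℝ), f (x + m, y) = f (x, y) + m * c := by
    intro m x y
    induction m with
    | zero => simp
    | succ i hi =>
      have e : x + ((i + 1 : ℤ) : ℝ) = (x + ((i : ℤ) : ℝ)) + 1 := by push_cast; ring
      rw [e, hper, hi]; push_cast; ring
    | pred i hi =>
      have e : x + ((-(i : ℤ) : ℤ) : ℝ) = (x + ((-(i : ℤ) - 1 : ℤ) : ℝ)) + 1 := by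
        push_cast; ring
      rw [e, hper] at hi
      push_cast at hi ⊢
      linarith
  have htn : ∀ (p : ℝ × ℝ) (m : ℤ), p + ((m : ℝ), 0) ∈ Ω ↔ p ∈ Ω := by
    intro p m
    induction m with
    | zero =>
      have e : p + (((0 : ℤ) : ℝ), 0) = p := by ext <;> simp
      rw [e]
    | succ i hi =>
      rw [← hi, ← htΩ (p + (((i : ℤ) : ℝ), 0))]
      have e : p + (((i + 1 : ℤ) : ℝ), 0) = p + (((i : ℤ) : ℝ), 0) + (1, 0) := by
        ext <;> push_cast <;> simp; ring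
      rw [e]
    | pred i hi =>
      rw [← hi, ← htΩ (p + (((-(i : ℤ) - 1 : ℤ) : ℝ), 0))]
      have e : p + (((-(i : ℤ) - 1 : ℤ) : ℝ), 0) + (1, 0) = p + (((-(i : ℤ) : ℤ) : ℝ), 0) := by
        ext <;> push_cast <;> simp; ring
      rw [e]
  have hfr : ∀ p : ℝ × ℝ, p ∈ Ω → (Int.fract p.1, p.2) ∈ Ω := fun p hp => by
    rw [← htn p (-⌊p.1⌋)] at hp
    have e : p + (((-⌊p.1⌋ : ℤ) : ℝ), 0) = (Int.fract p.1, p.2) := by
      ext
      · show p.1 + ((-⌊p.1⌋ : ℤ) : ℝ) = p.1 - ⌊p.1⌋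
        push_cast; ring
      · simp
    rwa [e] at hp
  have hloc : ∀ p : ℝ × ℝ, ∃ r : ℝ, ∃ P : ℂ × ℂ → ℂ, p ∈ Ω → (0 < r ∧
      AnalyticOnNhd ℂ P (Metric.ball ((p.1 : ℂ), (p.2 : ℂ)) r) ∧
      (∀ x y : ℝ, ((x : ℂ), (y : ℂ)) ∈ Metric.ball ((p.1 : ℂ), (p.2 : ℂ)) r →
        P ((x : ℂ), (y : ℂ)) = (f (x, y) : ℂ)) ∧ (∀ z, P (cj z) = starRingEnd ℂ (P z)) ∧
      Metric.ball p r ⊆ Ω) := by
    intro p
    by_cases hp : p ∈ Ω
    · obtain ⟨r, hr, P, h1, h2, h3⟩ := exists_local_ext (hf p hp)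
      obtain ⟨s, hs, hs'⟩ := Metric.isOpen_iff.1 hΩ p hp
      refine ⟨min r s, P, fun _ => ⟨lt_min hr hs, h1.mono (Metric.ball_subset_ball (min_le_left _ _)),
        fun x y hxy => h2 x y (Metric.ball_subset_ball (min_le_left _ _) hxy), h3,
        (Metric.ball_subset_ball (min_le_right _ _)).trans hs'⟩⟩
    · exact ⟨0, fun _ => 0, fun h => absurd h hp⟩
  choose r0 P0 hr0P0 using hloc
  set r : ℝ × ℝ → ℝ := fun p => r0 (Int.fract p.1, p.2) with hrdef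
  have hr : ∀ p ∈ Ω, 0 < r p := fun p hp => (hr0P0 _ (hfr p hp)).1
  set P : ℝ × ℝ → ℂ × ℂ → ℂ := fun p z =>
    P0 (Int.fract p.1, p.2) (z - (((⌊p.1⌋ : ℤ) : ℂ), 0)) + ((⌊p.1⌋ : ℤ) : ℂ) * (c : ℂ) with hPdef
  have hrcfr : ∀ p : ℝ × ℝ, (((Int.fract p.1 : ℝ) : ℂ), ((p.2 : ℝ) : ℂ)) =
      rc p - (((⌊p.1⌋ : ℤ) : ℂ), 0) := by
    intro p
    ext
    · show ((Int.fract p.1 : ℝ) : ℂ) = (p.1 : ℂ) - ((⌊p.1⌋ : ℤ) : ℂ)
      rw [show Int.fract p.1 = p.1 - ⌊p.1⌋ from rfl]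
      push_cast; ring
    · simp [rc]
  have hmem : ∀ (p : ℝ × ℝ) (z : ℂ × ℂ), z ∈ Metric.ball (rc p) (r p) →
      z - (((⌊p.1⌋ : ℤ) : ℂ), 0) ∈ Metric.ball
        (((Int.fract p.1 : ℝ) : ℂ), ((p.2 : ℝ) : ℂ)) (r p) := by
    intro p z hz
    rw [hrcfr, Metric.mem_ball, dist_sub_right]
    exact hz
  have hPa : ∀ p ∈ Ω, AnalyticOnNhd ℂ (P p) (Metric.ball (rc p) (r p)) := by
    intro p hp z hz
    refine AnalyticAt.add ?_ analyticAt_const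
    exact ((hr0P0 _ (hfr p hp)).2.1 _ (hmem p z hz)).comp_of_eq
      (f := fun z => z - (((⌊p.1⌋ : ℤ) : ℂ), (0 : ℂ))) (analyticAt_id.sub analyticAt_const) rfl
  have hP : ∀ p ∈ Ω, DifferentiableOn ℂ (P p) (Metric.ball (rc p) (r p)) := fun p hp =>
    (hPa p hp).differentiableOn
  have hPr : ∀ p ∈ Ω, ∀ q, rc q ∈ Metric.ball (rc p) (r p) → P p (rc q) = (f q : ℂ) := by
    intro p hp q hq
    have h1 := hmem p _ hq
    have e : rc q - (((⌊p.1⌋ : ℤ) : ℂ), 0) = (((q.1 - ⌊p.1⌋ : ℝ) : ℂ), ((q.2 : ℝ) : ℂ)) := by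
      ext <;> simp [rc]
    rw [e] at h1
    have h2 := (hr0P0 _ (hfr p hp)).2.2.1 _ _ h1
    have h3 := hint ⌊p.1⌋ (q.1 - ⌊p.1⌋) q.2
    rw [sub_add_cancel, Prod.mk.eta] at h3
    simp only [hPdef, e, h2, h3]
    push_cast; ring
  have hPc : ∀ p ∈ Ω, ∀ z, P p (cj z) = starRingEnd ℂ (P p z) := by
    intro p hp z
    have e : cj z - (((⌊p.1⌋ : ℤ) : ℂ), 0) = cj (z - (((⌊p.1⌋ : ℤ) : ℂ), 0)) := by
      ext <;> simp [cj]
    simp only [hPdef, e, (hr0P0 _ (hfr p hp)).2.2.2.1, map_add, map_mul, Complex.conj_ofReal,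
      map_intCast]
  have hΩr : ∀ p ∈ Ω, ∀ q, rc q ∈ Metric.ball (rc p) (r p) → q ∈ Ω := by
    intro p hp q hq
    rw [Metric.mem_ball, dist_rc] at hq
    rw [← htn q (-⌊p.1⌋)]
    apply (hr0P0 _ (hfr p hp)).2.2.2.2
    rw [Metric.mem_ball]
    have e : (Int.fract p.1, p.2) = p + (((-⌊p.1⌋ : ℤ) : ℝ), 0) := by
      ext
      · show p.1 - ⌊p.1⌋ = p.1 + ((-⌊p.1⌋ : ℤ) : ℝ)
        push_cast; ring
      · simp
    rw [e, dist_add_right]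
    rw [← e]
    exact hq
  classical
  set O : Set (ℂ × ℂ) := {z | ∃ p ∈ Ω, z ∈ Metric.ball (rc p) (r p)} with hO
  set g : ℂ × ℂ → ℂ := fun z => if hz : z ∈ O then P hz.choose z else 0 with hg
  have hgP : ∀ p ∈ Ω, ∀ z, z ∈ Metric.ball (rc p) (r p) → g z = P p z := by
    intro p hp z hz
    have hzO : z ∈ O := ⟨p, hp, hz⟩
    simp only [hg, hzO, dif_pos]
    have hs := hzO.choose_spec
    exact eq_of_balls (hP _ hs.1) (hP p hp)
      (fun q hq hq' => by rw [hPr _ hs.1 _ hq, hPr _ hp _ hq']) hs.2 hz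
  have hrper : ∀ p : ℝ × ℝ, r (p + (1, 0)) = r p := fun p => by
    simp [hrdef]
  refine ⟨O, g, ⟨?_, ?_, ?_, ?_⟩, ?_, ?_, ?_, ?_⟩
  · rw [isOpen_iff_mem_nhds]
    rintro z ⟨p, hp, hz⟩
    filter_upwards [Metric.isOpen_ball.mem_nhds hz] with w hw
    exact ⟨p, hp, hw⟩
  · intro q
    constructor
    · rintro ⟨p, hp, hq⟩
      exact hΩr p hp q hq
    · intro hq
      exact ⟨q, hq, Metric.mem_ball_self (hr q hq)⟩
  · intro z
    constructor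
    · rintro ⟨p, hp, hz⟩
      refine ⟨p - (1, 0), by rw [← htΩ, sub_add_cancel]; exact hp, ?_⟩
      have : r (p - (1, 0)) = r p := by rw [← hrper (p - (1, 0)), sub_add_cancel]
      rw [this, ← rc_sub_one, ← add_mem_ball (a := (1, 0)), sub_add_cancel]; exact hz
    · rintro ⟨p, hp, hz⟩
      refine ⟨p + (1, 0), (htΩ p).2 hp, ?_⟩
      rw [hrper, ← rc_add_one, add_mem_ball]; exact hz
  · rintro z ⟨p, hp, hz⟩
    exact ⟨p, hp, cj_mem_ball hz⟩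
  · rintro z ⟨p, hp, hz⟩
    refine (hPa p hp z hz).congr ?_
    filter_upwards [Metric.isOpen_ball.mem_nhds hz] with w hw
    exact (hgP p hp w hw).symm
  · intro p hp
    rw [hgP p hp _ (Metric.mem_ball_self (hr p hp)), hPr _ hp _ (Metric.mem_ball_self (hr p hp))]
  · rintro z ⟨p, hp, hz⟩
    have hz1 : z + (1, 0) ∈ Metric.ball (rc (p + (1, 0))) (r (p + (1, 0))) := by
      rw [hrper, ← rc_add_one, add_mem_ball]; exact hz
    rw [hgP _ ((htΩ p).2 hp) _ hz1, hgP _ hp _ hz]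
    have e : P (p + (1, 0)) (z + (1, 0)) = P p z + c := by
      simp only [hPdef]
      have e1 : (Int.fract (p + (1, 0)).1, (p + (1, 0)).2) = (Int.fract p.1, p.2) := by simp
      have e2 : ⌊(p + ((1 : ℝ), (0 : ℝ))).1⌋ = ⌊p.1⌋ + 1 := by simp
      have e3 : z + (1, 0) - (((⌊(p + ((1 : ℝ), (0 : ℝ))).1⌋ : ℤ) : ℂ), 0) =
          z - (((⌊p.1⌋ : ℤ) : ℂ), 0) := by
        rw [e2]; ext
        · push_cast; simp
        · simp
      rw [e1, e3, e2]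
      push_cast; ring
    exact e
  · rintro z ⟨p, hp, hz⟩
    rw [hgP _ hp _ hz, hgP _ hp _ (cj_mem_ball hz), hPc _ hp]

end Pool.Agent.Helper37.FTM
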