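import Mathlib

/-! # Complexification of a real power series in two variables -/

set_option autoImplicit false

namespace Pool.Agent.Helper37.FTM

open Set Filter Topology ENNReal NNReal

/-- the complexified power series -/
noncomputable def cser (p : FormalMultilinearSeries ℝ (ℝ × ℝ) ℝ) :
    FormalMultilinearSeries ℂ (ℂ × ℂ) ℂ := fun n =>
  ∑ s : Finset (Fin n), ((p n (s.piecewise (fun _ => ((1 : ℝ), (0 : ℝ)))
      (fun _ => ((0 : ℝ), (1 : ℝ)))) : ℝ) : ℂ) •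
    (ContinuousMultilinearMap.mkPiAlgebra ℂ (Fin n) ℂ).compContinuousLinearMap
      (fun i => if i ∈ s then ContinuousLinearMap.fst ℂ ℂ ℂ else ContinuousLinearMap.snd ℂ ℂ ℂ)

theorem norm_cser_le (p : FormalMultilinearSeries ℝ (ℝ × ℝ) ℝ) (n : ℕ) :
    ‖cser p n‖ ≤ 2 ^ n * ‖p n‖ := by
  have h1 : ∀ s : Finset (Fin n), ‖((p n (s.piecewise (fun _ => ((1 : ℝ), (0 : ℝ)))
      (fun _ => ((0 : ℝ), (1 : ℝ)))) : ℝ) : ℂ) •
    (ContinuousMultilinearMap.mkPiAlgebra ℂ (Fin n) ℂ).compContinuousLinearMap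
      (fun i => if i ∈ s then ContinuousLinearMap.fst ℂ ℂ ℂ
        else ContinuousLinearMap.snd ℂ ℂ ℂ)‖ ≤ ‖p n‖ := by
    intro s
    rw [norm_smul]
    have a1 : ‖((p n (s.piecewise (fun _ => ((1 : ℝ), (0 : ℝ)))
      (fun _ => ((0 : ℝ), (1 : ℝ)))) : ℝ) : ℂ)‖ ≤ ‖p n‖ := by
      rw [Complex.norm_real]
      refine ((p n).le_opNorm _).trans ?_
      have : ∏ i, ‖s.piecewise (fun _ => ((1 : ℝ), (0 : ℝ))) (fun _ => ((0 : ℝ), (1 : ℝ))) i‖ ≤
          1 := by
        refine Finset.prod_le_one (fun _ _ => norm_nonneg _) fun i _ => ?_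
        by_cases hi : i ∈ s <;> simp [hi]
      calc ‖p n‖ * _ ≤ ‖p n‖ * 1 := mul_le_mul_of_nonneg_left this (norm_nonneg _)
        _ = ‖p n‖ := mul_one _
    have a2 : ‖(ContinuousMultilinearMap.mkPiAlgebra ℂ (Fin n) ℂ).compContinuousLinearMap
      (fun i => if i ∈ s then ContinuousLinearMap.fst ℂ ℂ ℂ
        else ContinuousLinearMap.snd ℂ ℂ ℂ)‖ ≤ 1 := by
      refine (ContinuousMultilinearMap.norm_compContinuousLinearMap_le _ _).trans ?_
      have b1 : ‖ContinuousMultilinearMap.mkPiAlgebra ℂ (Fin n) ℂ‖ ≤ 1 := by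
        rw [ContinuousMultilinearMap.norm_mkPiAlgebra]
      have b2 : ∏ i, ‖(if i ∈ s then ContinuousLinearMap.fst ℂ ℂ ℂ
        else ContinuousLinearMap.snd ℂ ℂ ℂ)‖ ≤ 1 := by
        refine Finset.prod_le_one (fun _ _ => norm_nonneg _) fun i _ => ?_
        by_cases hi : i ∈ s
        · simp only [hi, if_true]; exact ContinuousLinearMap.norm_fst_le _ _ _
        · simp only [hi, if_false]; exact ContinuousLinearMap.norm_snd_le _ _ _
      calc _ ≤ 1 * 1 := mul_le_mul b1 b2 (Finset.prod_nonneg fun _ _ => norm_nonneg _) zero_le_one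
        _ = 1 := one_mul _
    calc _ ≤ ‖p n‖ * 1 := mul_le_mul a1 a2 (norm_nonneg _) (norm_nonneg _)
      _ = ‖p n‖ := mul_one _
  calc ‖cser p n‖ ≤ ∑ s : Finset (Fin n), ‖p n‖ := norm_sum_le_of_le _ fun s _ => h1 s
    _ = 2 ^ n * ‖p n‖ := by simp

theorem cser_real (p : FormalMultilinearSeries ℝ (ℝ × ℝ) ℝ) (n : ℕ) (u v : ℝ) :
    cser p n (fun _ => ((u : ℂ), (v : ℂ))) = ((p n (fun _ => (u, v)) : ℝ) : ℂ) := by
  have h1 : (fun _ : Fin n => ((u, v) : ℝ × ℝ)) =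
      (fun _ => u • ((1 : ℝ), (0 : ℝ))) + (fun _ => v • ((0 : ℝ), (1 : ℝ))) := by
    funext i; simp
  rw [h1, ContinuousMultilinearMap.map_add_univ]
  simp only [cser, sum_apply, smul_apply,
    ContinuousMultilinearMap.compContinuousLinearMap_apply,
    ContinuousMultilinearMap.mkPiAlgebra_apply]
  push_cast
  refine Finset.sum_congr rfl fun s _ => ?_
  have h2 : s.piecewise (fun _ => u • ((1 : ℝ), (0 : ℝ))) (fun _ => v • ((0 : ℝ), (1 : ℝ))) =
      fun i => (if i ∈ s then u else v) • s.piecewise (fun _ => ((1 : ℝ), (0 : ℝ)))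
        (fun _ => ((0 : ℝ), (1 : ℝ))) i := by
    funext i
    by_cases hi : i ∈ s <;> simp [hi]
  rw [h2, ContinuousMultilinearMap.map_smul_univ, smul_eq_mul, smul_eq_mul, mul_comm]
  push_cast
  congr 1
  refine Finset.prod_congr rfl fun i _ => ?_
  by_cases hi : i ∈ s <;> simp [hi]

/-- complex conjugation of both variables -/
noncomputable def cj (z : ℂ × ℂ) : ℂ × ℂ := (starRingEnd ℂ z.1, starRingEnd ℂ z.2)

theorem cser_cj (p : FormalMultilinearSeries ℝ (ℝ × ℝ) ℝ) (n : ℕ) (w : ℂ × ℂ) :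
    cser p n (fun _ => cj w) = starRingEnd ℂ (cser p n (fun _ => w)) := by
  simp only [cser, sum_apply, smul_apply,
    ContinuousMultilinearMap.compContinuousLinearMap_apply,
    ContinuousMultilinearMap.mkPiAlgebra_apply, smul_eq_mul, map_sum, map_mul,
    Complex.conj_ofReal, map_prod]
  refine Finset.sum_congr rfl fun s _ => ?_
  congr 1
  refine Finset.prod_congr rfl fun i _ => ?_
  by_cases hi : i ∈ s <;> simp [hi, cj]

theorem cser_sum_cj (p : FormalMultilinearSeries ℝ (ℝ × ℝ) ℝ) (w : ℂ × ℂ) :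
    (cser p).sum (cj w) = starRingEnd ℂ ((cser p).sum w) := by
  simp only [FormalMultilinearSeries.sum, cser_cj]
  exact (Complex.conj_tsum _).symm

/-- local holomorphic extension of a real analytic function of two variables -/
theorem exists_local_ext {f : ℝ × ℝ → ℝ} {p : ℝ × ℝ} (hf : AnalyticAt ℝ f p) :
    ∃ r : ℝ, 0 < r ∧ ∃ P : ℂ × ℂ → ℂ,
      AnalyticOnNhd ℂ P (Metric.ball ((p.1 : ℂ), (p.2 : ℂ)) r) ∧
      (∀ x y : ℝ, ((x : ℂ), (y : ℂ)) ∈ Metric.ball ((p.1 : ℂ), (p.2 : ℂ)) r →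
        P ((x : ℂ), (y : ℂ)) = (f (x, y) : ℂ)) ∧
      ∀ z, P (cj z) = starRingEnd ℂ (P z) := by
  obtain ⟨q, R, hq⟩ := hf
  obtain ⟨r', hr'0, hr'R⟩ := ENNReal.lt_iff_exists_nnreal_btwn.1 hq.r_pos
  have hr'rad : (r' : ℝ≥0∞) < q.radius := hr'R.trans_le hq.r_le
  obtain ⟨C, hC, hCn⟩ := q.norm_mul_pow_le_of_lt_radius hr'rad
  have hr'0' : (0 : ℝ) < r' := by exact_mod_cast hr'0
  have hrad : ((r' / 2 : ℝ≥0) : ℝ≥0∞) ≤ (cser q).radius := by
    refine FormalMultilinearSeries.le_radius_of_bound _ C fun n => ?_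
    calc ‖cser q n‖ * ((r' / 2 : ℝ≥0) : ℝ) ^ n ≤ 2 ^ n * ‖q n‖ * ((r' / 2 : ℝ≥0) : ℝ) ^ n :=
          mul_le_mul_of_nonneg_right (norm_cser_le q n) (by positivity)
      _ = ‖q n‖ * (r' : ℝ) ^ n := by
          push_cast
          rw [div_pow]
          field_simp
      _ ≤ C := hCn n
  have hpos : 0 < (cser q).radius :=
    lt_of_lt_of_le (by exact_mod_cast (half_pos hr'0' : (0:ℝ) < r' / 2)) hrad
  have hs := (cser q).hasFPowerSeriesOnBall hpos
  refine ⟨r' / 2, half_pos hr'0', fun z => (cser q).sum (z - ((p.1 : ℂ), (p.2 : ℂ))), ?_, ?_,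
    fun z => ?_⟩
  · intro z hz
    have hz' : z - ((p.1 : ℂ), (p.2 : ℂ)) ∈ Metric.eball (0 : ℂ × ℂ) (cser q).radius := by
      rw [Metric.mem_eball, edist_zero_right]
      refine lt_of_lt_of_le ?_ hrad
      rw [enorm_lt_coe]
      rw [Metric.mem_ball, dist_eq_norm] at hz
      exact_mod_cast hz
    have h1 : AnalyticAt ℂ (cser q).sum (z - ((p.1 : ℂ), (p.2 : ℂ))) :=
      (hs.analyticAt_of_mem hz')
    exact h1.comp_of_eq (f := fun z => z - ((p.1 : ℂ), (p.2 : ℂ))) (analyticAt_id.sub analyticAt_const) rfl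
  · intro x y hxy
    have hd : ‖((x - p.1, y - p.2) : ℝ × ℝ)‖ < r' := by
      rw [Metric.mem_ball, dist_eq_norm] at hxy
      have e : ((x : ℂ), (y : ℂ)) - ((p.1 : ℂ), (p.2 : ℂ)) =
          (((x - p.1 : ℝ) : ℂ), ((y - p.2 : ℝ) : ℂ)) := by
        ext <;> simp
      rw [e, Prod.norm_mk, Complex.norm_real, Complex.norm_real] at hxy
      rw [Prod.norm_mk]
      exact hxy.trans (half_lt_self hr'0')
    have h1 : HasSum (fun n => q n fun _ => ((x - p.1, y - p.2) : ℝ × ℝ))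
        (f (p + (x - p.1, y - p.2))) := by
      refine hq.hasSum ?_
      rw [Metric.mem_eball, edist_zero_right]
      refine lt_trans ?_ hr'R
      rw [enorm_lt_coe]
      exact_mod_cast hd
    have e1 : p + (x - p.1, y - p.2) = (x, y) := by ext <;> simp
    rw [e1] at h1
    have h2 : HasSum (fun n => ((q n fun _ => ((x - p.1, y - p.2) : ℝ × ℝ) : ℝ) : ℂ))
        ((f (x, y) : ℝ) : ℂ) := Complex.hasSum_ofReal.2 h1
    show (cser q).sum _ = _
    rw [← h2.tsum_eq, FormalMultilinearSeries.sum]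
    refine tsum_congr fun n => ?_
    rw [← cser_real]
    congr 1
    funext _
    ext <;> simp
  · show (cser q).sum _ = starRingEnd ℂ ((cser q).sum _)
    rw [← cser_sum_cj]
    congr 1
    ext <;> simp [cj]

end Pool.Agent.Helper37.FTM
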