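import Mathlib

/-!
# MP_39e2b7_an : real dynamics of a foliated twist map (part I)

`Fol F u` is the list of hypotheses of the frozen statement `S04375`.
-/

set_option autoImplicit false

namespace Pool.Agent.Helper37.FTM

open Set Filter Topology

/-- the hypotheses of `S04375` -/
structure Fol (F : ℝ × ℝ → ℝ × ℝ) (u : ℝ → ℝ → ℝ) : Prop where
  an : AnalyticOnNhd ℝ F Set.univ
  bij : Function.Bijective F
  per : ∀ x y : ℝ, F (x + 1, y) = ((F (x, y)).1 + 1, (F (x, y)).2)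
  det : ∀ p : ℝ × ℝ, LinearMap.det (fderiv ℝ F p : ℝ × ℝ →ₗ[ℝ] ℝ × ℝ) = 1
  twist : ∀ x y : ℝ, 0 < deriv (fun t : ℝ => (F (x, t)).1) y
  cont : ∀ c : ℝ, Continuous (u c)
  uper : ∀ c x : ℝ, u c (x + 1) = u c x
  inv : ∀ c x : ℝ, (F (x, u c x)).2 = u c (F (x, u c x)).1
  part : ∀ p : ℝ × ℝ, ∃! c : ℝ, p.2 = u c p.1

/-- the same, with the leaves labelled by their height at `x = 0`; the label is forced -/
structure Fol0 (F : ℝ × ℝ → ℝ × ℝ) (U : ℝ → ℝ → ℝ) : Prop extends Fol F U where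
  zero : ∀ Y : ℝ, U Y 0 = Y

variable {F : ℝ × ℝ → ℝ × ℝ} {u : ℝ → ℝ → ℝ}

/-- relabelling the leaves by their height at `0` -/
theorem Fol.exists_fol0 (h : Fol F u) :
    ∃ U : ℝ → ℝ → ℝ, Fol0 F U ∧ (∀ Y, ∃ c, U Y = u c) ∧ (∀ c, u c = U (u c 0)) := by
  choose c hc hu using fun Y : ℝ => h.part (0, Y)
  have hc' : ∀ Y, u (c Y) 0 = Y := fun Y => (hc Y).symm
  have hu' : ∀ d : ℝ, c (u d 0) = d := fun d => (hu (u d 0) d rfl).symm
  refine ⟨fun Y => u (c Y), ⟨⟨h.an, h.bij, h.per, h.det, h.twist, fun Y => h.cont _,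
    fun Y x => h.uper _ x, fun Y x => h.inv _ x, ?_⟩, hc'⟩, fun Y => ⟨c Y, rfl⟩, fun d => ?_⟩
  · intro p
    obtain ⟨d, hd, hd'⟩ := h.part p
    refine ⟨u d 0, ?_, ?_⟩
    · show p.2 = u (c (u d 0)) p.1
      rw [hu']; exact hd
    · intro Y hY
      have h1 := hd' (c Y) hY
      rw [← h1]; exact (hc' Y).symm
  · show u d = u (c (u d 0))
    rw [hu']

end Pool.Agent.Helper37.FTM
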