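import Mathlib

/-! # Strict monotonicity of irrational translation numbers -/

set_option autoImplicit false

namespace Pool.Agent.Helper37.FTM

open Set Filter Topology

/-- irrational multiples approach an integer from the left, along large multiples -/
theorem exists_left_approx {ρ η : ℝ} (hρ : Irrational ρ) (hη : 0 < η) (n : ℕ) :
    ∃ (m : ℕ) (p : ℤ), (n + m : ℝ) * ρ < p ∧ (p : ℝ) < (n + m : ℝ) * ρ + η := by
  -- a small nonzero value
  obtain ⟨j, l, hj, hne, habs⟩ : ∃ (j : ℕ) (l : ℤ), 1 ≤ j ∧ (j : ℝ) * ρ - l ≠ 0 ∧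
      |(j : ℝ) * ρ - l| < η := by
    obtain ⟨a, -, φ, hφ, hlim⟩ := tendsto_subseq_of_bounded (s := Icc (0:ℝ) 1)
      (x := fun k : ℕ => Int.fract ((k : ℝ) * ρ)) (Metric.isBounded_Icc 0 1)
      (fun k => ⟨Int.fract_nonneg _, (Int.fract_lt_one _).le⟩)
    have hc := hlim.cauchySeq
    rw [Metric.cauchySeq_iff] at hc
    obtain ⟨N, hN⟩ := hc η hη
    have h1 := hN (N + 1) (by simp) N le_rfl
    have hlt : φ N < φ (N + 1) := hφ (Nat.lt_succ_self N)
    refine ⟨φ (N + 1) - φ N, ⌊(φ (N + 1) : ℝ) * ρ⌋ - ⌊(φ N : ℝ) * ρ⌋, by omega, ?_, ?_⟩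
    · intro e
      rw [Nat.cast_sub hlt.le] at e
      have hne : ((φ (N + 1) : ℤ) - φ N) ≠ 0 := by omega
      have h2 := (hρ.intCast_mul hne).ne_int (⌊(φ (N + 1) : ℝ) * ρ⌋ - ⌊(φ N : ℝ) * ρ⌋)
      apply h2
      push_cast at e ⊢
      linarith
    · rw [Real.dist_eq] at h1
      simp only [Function.comp_apply, Int.fract] at h1
      rw [Nat.cast_sub hlt.le]
      push_cast
      have e : ((φ (N + 1) : ℝ) - φ N) * ρ - (⌊(φ (N + 1) : ℝ) * ρ⌋ - ⌊(φ N : ℝ) * ρ⌋)
        = (φ (N + 1) : ℝ) * ρ - ⌊(φ (N + 1) : ℝ) * ρ⌋ - ((φ N : ℝ) * ρ - ⌊(φ N : ℝ) * ρ⌋) := by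
        ring
      rw [e]; exact h1
  set δ : ℝ := (j : ℝ) * ρ - l with hδ
  -- choose `t ≥ n` and `s` with `-η < t δ - s < 0`
  obtain ⟨t, s, ht, h1, h2⟩ : ∃ (t : ℕ) (s : ℤ), n ≤ t ∧ (t : ℝ) * δ < s ∧ (s : ℝ) < t * δ + η := by
    rcases lt_or_gt_of_ne hne with hlt | hgt
    · -- `δ < 0`
      have hd : 0 < -δ := by linarith
      set s : ℤ := -⌈(n : ℝ) * (-δ)⌉ with hs
      have hs' : (s : ℝ) = -(⌈(n : ℝ) * (-δ)⌉ : ℝ) := by rw [hs]; push_cast; ring
      have hge : (n : ℝ) * (-δ) ≤ ⌈(n : ℝ) * (-δ)⌉ := Int.le_ceil _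
      set v : ℝ := (s : ℝ) / δ with hv
      have hvd : v * δ = s := by rw [hv]; field_simp
      have hvn : (n : ℝ) ≤ v := by
        rw [hv, le_div_iff_of_neg hlt, hs']; linarith
      have hv0 : 0 ≤ v := (Nat.cast_nonneg n).trans hvn
      refine ⟨⌊v⌋₊ + 1, s, ?_, ?_, ?_⟩
      · have : n ≤ ⌊v⌋₊ := Nat.le_floor hvn
        omega
      · have h3 : v < ⌊v⌋₊ + 1 := Nat.lt_floor_add_one v
        push_cast
        have : (⌊v⌋₊ + 1 : ℝ) * δ < v * δ := mul_lt_mul_of_neg_right h3 hlt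
        linarith
      · have h3 : (⌊v⌋₊ : ℝ) ≤ v := Nat.floor_le hv0
        push_cast
        have h4 : v * δ ≤ (⌊v⌋₊ : ℝ) * δ := mul_le_mul_of_nonpos_right h3 hlt.le
        have h5 : -η < δ := (abs_lt.1 habs).1
        nlinarith
    · -- `0 < δ`
      set s : ℤ := ⌈((n : ℝ) + 2) * δ⌉ with hs
      have hge : ((n : ℝ) + 2) * δ ≤ s := Int.le_ceil _
      set v : ℝ := (s : ℝ) / δ with hv
      have hvd : v * δ = s := by rw [hv]; field_simp
      have hvn : (n : ℝ) + 2 ≤ v := by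
        rw [hv, le_div_iff₀ hgt]; exact hge
      have hv0 : 0 ≤ v := by have : (0:ℝ) ≤ n := Nat.cast_nonneg n; linarith
      obtain ⟨t, ht⟩ : ∃ t : ℕ, ⌈v⌉₊ = t + 1 := by
        refine Nat.exists_eq_add_one.2 ?_
        rw [Nat.ceil_pos]; have : (0:ℝ) ≤ n := Nat.cast_nonneg n; linarith
      have hc1 : v ≤ (⌈v⌉₊ : ℝ) := Nat.le_ceil v
      have hc2 : (⌈v⌉₊ : ℝ) < v + 1 := Nat.ceil_lt_add_one hv0
      rw [ht] at hc1 hc2
      push_cast at hc1 hc2
      refine ⟨t, s, ?_, ?_, ?_⟩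
      · have : (n : ℝ) ≤ t := by linarith
        exact_mod_cast this
      · have : (t : ℝ) * δ < v * δ := mul_lt_mul_of_pos_right (by linarith) hgt
        linarith
      · have h4 : v * δ ≤ ((t : ℝ) + 1) * δ := mul_le_mul_of_nonneg_right hc1 hgt.le
        have h5 : δ < η := (abs_lt.1 habs).2
        nlinarith
  have hle : n ≤ t * j := ht.trans (Nat.le_mul_of_pos_right t (by omega))
  obtain ⟨m, hm⟩ := Nat.exists_eq_add_of_le hle
  have hmr : (n + m : ℝ) = t * j := by
    have : ((n + m : ℕ) : ℝ) = ((t * j : ℕ) : ℝ) := by rw [hm]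
    push_cast at this
    exact this
  refine ⟨m, t * l + s, ?_, ?_⟩
  · rw [hmr]; push_cast
    have : (t : ℝ) * j * ρ = t * δ + t * l := by rw [hδ]; ring
    rw [this]; linarith
  · rw [hmr]; push_cast
    have : (t : ℝ) * j * ρ = t * δ + t * l := by rw [hδ]; ring
    rw [this]; linarith

/-- two uniformly ordered circle homeomorphisms cannot have the same irrational
translation number -/
theorem not_irrational_of_lt {f g : CircleDeg1Lift} (hf : Function.Bijective f) {ε : ℝ}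
    (hε : 0 < ε) (hfg : ∀ x, f x + ε ≤ g x)
    (he : f.translationNumber = g.translationNumber) :
    ¬ Irrational f.translationNumber := by
  intro hirr
  set ρ := f.translationNumber with hρ
  have hT : (CircleDeg1Lift.translate (Multiplicative.ofAdd ρ) : CircleDeg1Lift).translationNumber
      = ρ := CircleDeg1Lift.translationNumber_translate ρ
  obtain ⟨H, hH⟩ := CircleDeg1Lift.semiconj_of_bijective_of_translationNumber_eq
    (f₁ := f) (f₂ := (CircleDeg1Lift.translate (Multiplicative.ofAdd ρ) : CircleDeg1Lift)) hf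
    (CircleDeg1Lift.isUnit_iff_bijective.1 ⟨_, rfl⟩) (by rw [hT])
  have hHf : ∀ x, H (f x) = ρ + H x := fun x => by
    have := hH x
    rw [this]; rfl
  have hHi : ∀ (k : ℕ) x, H (f^[k] x) = k * ρ + H x := by
    intro k
    induction k with
    | zero => intro x; simp
    | succ k ih => intro x; rw [Function.iterate_succ_apply', hHf, ih]; push_cast; ring
  have hge : ∀ k : ℕ, k * ρ + H 0 ≤ H (g^[k] 0) := by
    intro k
    induction k with
    | zero => simp
    | succ k ih =>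
      rw [Function.iterate_succ_apply']
      have h1 : H (f (g^[k] 0)) ≤ H (g (g^[k] 0)) := H.monotone (by linarith [hfg (g^[k] 0)])
      rw [hHf] at h1
      push_cast
      linarith
  -- at some time `g` is strictly ahead
  obtain ⟨n, hn⟩ : ∃ n : ℕ, n * ρ + H 0 < H (g^[n] 0) := by
    by_contra hcon
    push Not at hcon
    have heq : ∀ k : ℕ, H (g^[k] 0) = k * ρ + H 0 := fun k => le_antisymm (hcon k) (hge k)
    set a : ℕ → ℝ := fun k => f (g^[k] 0) with ha
    have hcst : ∀ k z, a k ≤ z → z ≤ a k + ε → H z = (k + 1) * ρ + H 0 := by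
      intro k z h1 h2
      have h3 : H (a k) ≤ H z := H.monotone h1
      have h4 : H z ≤ H (g (g^[k] 0)) := H.monotone (h2.trans (hfg _))
      have h5 : H (a k) = (k + 1) * ρ + H 0 := by rw [ha]; simp only; rw [hHf, heq]; ring
      have h6 : H (g (g^[k] 0)) = (k + 1) * ρ + H 0 := by
        have := heq (k + 1)
        rw [Function.iterate_succ_apply'] at this
        rw [this]; push_cast; ring
      linarith
    obtain ⟨b, -, φ, hφ, hlim⟩ := tendsto_subseq_of_bounded (s := Icc (0:ℝ) 1)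
      (x := fun k : ℕ => Int.fract (a k)) (Metric.isBounded_Icc 0 1)
      (fun k => ⟨Int.fract_nonneg _, (Int.fract_lt_one _).le⟩)
    have hc := hlim.cauchySeq
    rw [Metric.cauchySeq_iff] at hc
    obtain ⟨N, hN⟩ := hc ε hε
    have h1 := hN (N + 1) (by simp) N le_rfl
    have hlt : φ N < φ (N + 1) := hφ (Nat.lt_succ_self N)
    rw [Real.dist_eq] at h1
    simp only [Function.comp_apply, Int.fract] at h1
    obtain ⟨h1a, h1b⟩ := abs_lt.1 h1
    have key : ∀ (i k : ℕ) (m : ℤ), i ≠ k → a i ≤ a k + m → a k + m ≤ a i + ε → False := by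
      intro i k m hik e1 e2
      have e3 := hcst i _ e1 e2
      rw [H.map_add_int, hcst k (a k) le_rfl (by linarith)] at e3
      have hne : ((i : ℤ) - k) ≠ 0 := by omega
      have e4 := (hirr.intCast_mul hne).ne_int m
      apply e4
      push_cast
      linarith
    rcases le_total (a (φ N)) (a (φ (N + 1)) + ((⌊a (φ N)⌋ - ⌊a (φ (N + 1))⌋ : ℤ) : ℝ)) with e | e
    · refine key (φ N) (φ (N + 1)) _ hlt.ne e ?_
      push_cast
      linarith
    · refine key (φ (N + 1)) (φ N) (⌊a (φ (N + 1))⌋ - ⌊a (φ N)⌋) hlt.ne' ?_ ?_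
      · push_cast at e ⊢
        linarith
      · push_cast at e ⊢
        linarith
  obtain ⟨m, p, hp1, hp2⟩ := exists_left_approx hirr
    (show 0 < H (g^[n] 0) - (n * ρ + H 0) by linarith) n
  have h1 : H (0 + (p : ℝ)) < H (f^[m] (g^[n] 0)) := by
    rw [hHi, H.map_add_int]
    have : (n + m : ℝ) * ρ = n * ρ + m * ρ := by ring
    rw [this] at hp2
    linarith
  have h2 : 0 + (p : ℝ) < f^[m] (g^[n] 0) := by
    by_contra hcon
    exact absurd h1 (not_lt.2 (H.monotone (not_lt.1 hcon)))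
  have h3 : f^[m] (g^[n] 0) ≤ g^[m] (g^[n] 0) := by
    have hle : f ≤ g := fun x => by linarith [hfg x]
    exact CircleDeg1Lift.iterate_mono hle m _
  rw [← Function.iterate_add_apply] at h3
  have h4 : (0 : ℝ) + p ≤ (g ^ (m + n)) 0 := by
    rw [CircleDeg1Lift.coe_pow]; linarith
  have h5 := CircleDeg1Lift.le_translationNumber_of_add_int_le _ h4
  rw [CircleDeg1Lift.translationNumber_pow, ← he] at h5
  push_cast at h5
  have : (n + m : ℝ) * ρ = (m + n) * ρ := by ring
  linarith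

end Pool.Agent.Helper37.FTM
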