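import Pool.Agent.Helper37.Fol.Rational
import Pool.Agent.Helper37.Fol.Rot

/-! # Rotation numbers of the leaves; rational leaves are dense -/

set_option autoImplicit false

namespace Pool.Agent.Helper37.FTM

open Set Filter Topology

variable {F : ℝ × ℝ → ℝ × ℝ} {U : ℝ → ℝ → ℝ}

namespace Fol0

/-- the circle homeomorphism of a leaf, as a lift -/
noncomputable def lift (h : Fol0 F U) (Y : ℝ) : CircleDeg1Lift where
  toFun := ff F U Y
  monotone' := (h.ff_strictMono Y).monotone
  map_add_one' := h.ff_add_one Y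

/-- the rotation number of a leaf -/
noncomputable def rot (h : Fol0 F U) (Y : ℝ) : ℝ := (h.lift Y).translationNumber

variable (h : Fol0 F U)
include h

theorem lift_apply (Y x : ℝ) : h.lift Y x = ff F U Y x := rfl

theorem lift_pow_apply (Y : ℝ) (n : ℕ) (x : ℝ) : (h.lift Y ^ n) x = (ff F U Y)^[n] x := by
  rw [CircleDeg1Lift.coe_pow]; rfl

theorem continuous_lift (Y : ℝ) : Continuous (h.lift Y) := h.continuous_ff' Y

theorem lift_bijective (Y : ℝ) : Function.Bijective (h.lift Y) :=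
  ⟨h.ff_injective Y, (CircleDeg1Lift.continuous_iff_surjective _).1 (h.continuous_lift Y)⟩

/-- uniform gap between two leaf maps -/
theorem exists_gap {Y Y' : ℝ} (hY : Y < Y') : ∃ ε > 0, ∀ x, ff F U Y x + ε ≤ ff F U Y' x := by
  have hc : Continuous fun x => ff F U Y' x - ff F U Y x :=
    (h.continuous_ff' Y').sub (h.continuous_ff' Y)
  obtain ⟨x0, -, hx0⟩ := isCompact_Icc.exists_isMinOn (nonempty_Icc.2 (zero_le_one (α := ℝ)))
    hc.continuousOn
  refine ⟨ff F U Y' x0 - ff F U Y x0, by linarith [h.ff_mono_left hY x0], fun x => ?_⟩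
  have h1 : Int.fract x ∈ Icc (0:ℝ) 1 := ⟨Int.fract_nonneg _, (Int.fract_lt_one _).le⟩
  have h2 := hx0 h1
  simp only [mem_ofPred_eq] at h2
  have e : ∀ Z, ff F U Z x = ff F U Z (Int.fract x) + ⌊x⌋ := fun Z => by
    rw [← h.ff_add_int, Int.fract_add_floor]
  rw [e Y, e Y']
  linarith

theorem rot_strictMono : StrictMono h.rot := by
  intro Y Y' hY
  have hle : h.lift Y ≤ h.lift Y' := fun x => (h.ff_mono_left hY x).le
  refine lt_of_le_of_ne (CircleDeg1Lift.translationNumber_mono hle) fun he => ?_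
  obtain ⟨ε, hε, hgap⟩ := h.exists_gap hY
  by_cases hirr : Irrational (h.lift Y).translationNumber
  · exact not_irrational_of_lt (h.lift_bijective Y) hε hgap he hirr
  · rw [Irrational, not_not] at hirr
    obtain ⟨r, hr⟩ := hirr
    have hr' : (r : ℝ) = (r.num : ℝ) / (r.den : ℝ) := (Rat.cast_def r)
    have hd : 0 < r.den := r.den_pos
    obtain ⟨q, hq⟩ : ∃ q, r.den = q + 1 := Nat.exists_eq_add_one.2 hd
    obtain ⟨x, hx⟩ := (CircleDeg1Lift.translationNumber_eq_rat_iff (h.lift Y)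
      (h.continuous_lift Y) (m := r.num) hd).1 (by rw [← hr, hr'])
    have he' : (h.lift Y').translationNumber = (r.num : ℝ) / (r.den : ℝ) := by
      rw [← hr', hr]; exact he.symm
    obtain ⟨x', hx'⟩ := (CircleDeg1Lift.translationNumber_eq_rat_iff (h.lift Y')
      (h.continuous_lift Y') (m := r.num) hd).1 he'
    rw [h.lift_pow_apply, hq] at hx hx'
    exact hY.ne (h.periodic_unique hx hx')

/-- a leaf with rational rotation number consists of periodic points -/
theorem periodic_of_rot {q : ℕ} {p : ℤ} {Y : ℝ} (hr : h.rot Y = p / ((q + 1 : ℕ) : ℝ)) (x : ℝ) :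
    (ff F U Y)^[q + 1] x = x + p := by
  obtain ⟨x0, hx0⟩ := (CircleDeg1Lift.translationNumber_eq_rat_iff (h.lift Y)
    (h.continuous_lift Y) (m := p) (Nat.succ_pos q)).1 hr
  rw [h.lift_pow_apply] at hx0
  exact h.periodic_leaf hx0 x

/-- rational leaves are dense -/
theorem exists_rational_between {Y Y' : ℝ} (hY : Y < Y') :
    ∃ Y0 ∈ Ioo Y Y', ∃ (q : ℕ) (p : ℤ), ∀ z, (ff F U Y0)^[q + 1] z = z + p := by
  obtain ⟨r, hr1, hr2⟩ := exists_rat_btwn (h.rot_strictMono hY)
  have hr' : (r : ℝ) = (r.num : ℝ) / (r.den : ℝ) := (Rat.cast_def r)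
  have hd : 0 < r.den := r.den_pos
  have hdr : (0 : ℝ) < r.den := by exact_mod_cast hd
  obtain ⟨q, hq⟩ : ∃ q, r.den = q + 1 := Nat.exists_eq_add_one.2 hd
  have h1 : (h.lift Y ^ r.den).translationNumber < r.num := by
    rw [CircleDeg1Lift.translationNumber_pow]
    rw [hr', lt_div_iff₀ hdr] at hr1
    rw [mul_comm]; exact hr1
  have h2 : (r.num : ℝ) < (h.lift Y' ^ r.den).translationNumber := by
    rw [CircleDeg1Lift.translationNumber_pow]
    rw [hr', div_lt_iff₀ hdr] at hr2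
    rw [mul_comm]; exact hr2
  have h3 := CircleDeg1Lift.map_lt_of_translationNumber_lt_int _ h1 0
  have h4 := CircleDeg1Lift.lt_map_of_int_lt_translationNumber _ h2 0
  rw [h.lift_pow_apply, hq] at h3 h4
  obtain ⟨Y0, hY0, hY0'⟩ := h.exists_periodic hY.le h3.le h4.le
  refine ⟨Y0, ⟨lt_of_le_of_ne hY0.1 ?_, lt_of_le_of_ne hY0.2 ?_⟩, q, r.num, hY0'⟩
  · rintro rfl
    rw [hY0'] at h3
    exact lt_irrefl _ h3
  · rintro rfl
    rw [hY0'] at h4
    exact lt_irrefl _ h4

end Fol0

end Pool.Agent.Helper37.FTM
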