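import Pool.Agent.Helper37.Fol.Lip

/-! # Divergence of orbits on different leaves; the mean height of a leaf -/

set_option autoImplicit false

namespace Pool.Agent.Helper37.FTM

open Set Filter Topology

variable {F : ℝ × ℝ → ℝ × ℝ} {U : ℝ → ℝ → ℝ}

namespace Fol0

variable (h : Fol0 F U)
include h

theorem iter_lt (Y : ℝ) (n : ℕ) (x : ℝ) : (ff F U Y)^[n] x < x + n * h.rot Y + 1 := by
  have h1 := CircleDeg1Lift.map_lt_add_translationNumber_add_one (h.lift Y ^ n) x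
  rw [CircleDeg1Lift.translationNumber_pow, h.lift_pow_apply] at h1
  exact h1

theorem lt_iter (Y : ℝ) (n : ℕ) (x : ℝ) : x + n * h.rot Y - 1 < (ff F U Y)^[n] x := by
  have h1 := CircleDeg1Lift.translationNumber_le_ceil_sub (h.lift Y ^ n) x
  rw [CircleDeg1Lift.translationNumber_pow, h.lift_pow_apply] at h1
  have h2 := Int.ceil_lt_add_one ((ff F U Y)^[n] x - x)
  have h3 : (n : ℝ) * h.rot Y < (ff F U Y)^[n] x - x + 1 := lt_of_le_of_lt h1 h2
  linarith

theorem iter_gap (Y Y' : ℝ) (n : ℕ) (x x' : ℝ) :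
    n * (h.rot Y' - h.rot Y) - 2 + (x' - x) < (ff F U Y')^[n] x' - (ff F U Y)^[n] x := by
  have h1 := h.iter_lt Y n x
  have h2 := h.lt_iter Y' n x'
  have e : (n : ℝ) * (h.rot Y' - h.rot Y) = n * h.rot Y' - n * h.rot Y := by ring
  rw [e]; linarith

/-- R1, forward: orbits on different leaves diverge, uniformly -/
theorem div_forward {Y Y' : ℝ} (hY : Y < Y') (K : ℝ) : ∃ N : ℕ, ∀ n ≥ N, ∀ x x' : ℝ,
    |x' - x| ≤ K → (ff F U Y)^[n] x + K < (ff F U Y')^[n] x' := by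
  have hr : 0 < h.rot Y' - h.rot Y := sub_pos.2 (h.rot_strictMono hY)
  obtain ⟨N, hN⟩ := exists_nat_ge ((2 * K + 2) / (h.rot Y' - h.rot Y))
  refine ⟨N, fun n hn x x' hx => ?_⟩
  have h1 := h.iter_gap Y Y' n x x'
  have h2 : (2 * K + 2) ≤ n * (h.rot Y' - h.rot Y) := by
    rw [← div_le_iff₀ hr]
    exact hN.trans (by exact_mod_cast hn)
  have h3 := (abs_le.1 hx).1
  linarith

/-- R1, backward: orbits on different leaves diverge in the past, uniformly -/
theorem div_backward {Y Y' : ℝ} (hY : Y < Y') (K : ℝ) : ∃ N : ℕ, ∀ n ≥ N, ∀ a a' : ℝ,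
    |(ff F U Y')^[n] a' - (ff F U Y)^[n] a| ≤ K → a' + K < a := by
  have hr : 0 < h.rot Y' - h.rot Y := sub_pos.2 (h.rot_strictMono hY)
  obtain ⟨N, hN⟩ := exists_nat_ge ((2 * K + 2) / (h.rot Y' - h.rot Y))
  refine ⟨N, fun n hn a a' ha => ?_⟩
  have h1 := h.iter_gap Y Y' n a a'
  have h2 : (2 * K + 2) ≤ n * (h.rot Y' - h.rot Y) := by
    rw [← div_le_iff₀ hr]
    exact hN.trans (by exact_mod_cast hn)
  have h3 := (abs_le.1 ha).2
  linarith

/-- R1 in the pointwise form -/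
theorem exists_div {Y Y' : ℝ} (hY : Y < Y') (x x' K : ℝ) :
    ∃ n : ℕ, (ff F U Y)^[n] x + K < (ff F U Y')^[n] x' := by
  obtain ⟨N, hN⟩ := h.div_forward hY (|x' - x| + |K|)
  refine ⟨N, ?_⟩
  have := hN N le_rfl x x' (by linarith [abs_nonneg K])
  linarith [le_abs_self K, abs_nonneg (x' - x)]

theorem U_fract (Y x : ℝ) : U Y (Int.fract x) = U Y x := by
  conv_rhs => rw [← Int.fract_add_floor x]
  exact (h.U_add_int _ _ _).symm

/-- high leaves are uniformly high -/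
theorem exists_high (K : ℝ) : ∃ Y : ℝ, ∀ Y' ≥ Y, ∀ x, K < U Y' x := by
  have hopen : ∀ n : ℕ, IsOpen {x : ℝ | K < U n x} := fun n =>
    isOpen_lt continuous_const (h.cont n)
  have hcover : Icc (0:ℝ) 1 ⊆ ⋃ n : ℕ, {x : ℝ | K < U n x} := by
    intro x _
    obtain ⟨Y, hY⟩ := h.surj x K
    obtain ⟨n, hn⟩ := exists_nat_gt Y
    refine mem_iUnion.2 ⟨n, ?_⟩
    show K < U n x
    rw [← hY]; exact h.mono hn x
  obtain ⟨t, ht⟩ := isCompact_Icc.elim_finite_subcover _ hopen hcover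
  refine ⟨(t.sup id : ℕ), fun Y' hY' x => ?_⟩
  have hx : Int.fract x ∈ Icc (0:ℝ) 1 := ⟨Int.fract_nonneg _, (Int.fract_lt_one _).le⟩
  obtain ⟨n, hn, hn'⟩ := mem_iUnion₂.1 (ht hx)
  have h1 : K < U n (Int.fract x) := hn'
  rw [h.U_fract] at h1
  have h2 : (n : ℝ) ≤ Y' := le_trans (by exact_mod_cast Finset.le_sup (f := id) hn) hY'
  exact h1.trans_le ((h.strictMono x).monotone h2)

/-- low leaves are uniformly low -/
theorem exists_low (K : ℝ) : ∃ Y : ℝ, ∀ Y' ≤ Y, ∀ x, U Y' x < K := by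
  have hopen : ∀ n : ℕ, IsOpen {x : ℝ | U (-(n : ℝ)) x < K} := fun n =>
    isOpen_lt (h.cont _) continuous_const
  have hcover : Icc (0:ℝ) 1 ⊆ ⋃ n : ℕ, {x : ℝ | U (-(n : ℝ)) x < K} := by
    intro x _
    obtain ⟨Y, hY⟩ := h.surj x K
    obtain ⟨n, hn⟩ := exists_nat_gt (-Y)
    refine mem_iUnion.2 ⟨n, ?_⟩
    show U (-(n:ℝ)) x < K
    rw [← hY]; exact h.mono (by linarith) x
  obtain ⟨t, ht⟩ := isCompact_Icc.elim_finite_subcover _ hopen hcover
  refine ⟨-((t.sup id : ℕ) : ℝ), fun Y' hY' x => ?_⟩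
  have hx : Int.fract x ∈ Icc (0:ℝ) 1 := ⟨Int.fract_nonneg _, (Int.fract_lt_one _).le⟩
  obtain ⟨n, hn, hn'⟩ := mem_iUnion₂.1 (ht hx)
  have h1 : U (-(n : ℝ)) (Int.fract x) < K := hn'
  rw [h.U_fract] at h1
  have h2 : (n : ℝ) ≤ ((t.sup id : ℕ) : ℝ) := by exact_mod_cast Finset.le_sup (f := id) hn
  exact lt_of_le_of_lt ((h.strictMono x).monotone (by linarith)) h1

end Fol0

/-- the mean height of a leaf -/
noncomputable def mean (U : ℝ → ℝ → ℝ) (Y : ℝ) : ℝ := ∫ x in (0:ℝ)..1, U Y x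

namespace Fol0

variable (h : Fol0 F U)
include h

theorem continuous_mean : Continuous (mean U) :=
  intervalIntegral.continuous_parametric_intervalIntegral_of_continuous' h.continuous_U 0 1

theorem mean_strictMono : StrictMono (mean U) := by
  intro Y Y' hY
  refine intervalIntegral.integral_lt_integral_of_continuousOn_of_le_of_exists_lt one_pos
    (h.cont Y).continuousOn (h.cont Y').continuousOn (fun x _ => (h.mono hY x).le)
    ⟨0, ⟨le_rfl, zero_le_one⟩, h.mono hY 0⟩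

theorem mean_surj : Function.Surjective (mean U) := by
  intro K
  obtain ⟨Y1, h1⟩ := h.exists_low K
  obtain ⟨Y2, h2⟩ := h.exists_high K
  have e1 : mean U Y1 ≤ K := by
    have : mean U Y1 ≤ ∫ x in (0:ℝ)..1, K :=
      intervalIntegral.integral_mono_on zero_le_one ((h.cont Y1).intervalIntegrable _ _)
        intervalIntegrable_const fun x _ => (h1 Y1 le_rfl x).le
    simpa using this
  have e2 : K ≤ mean U Y2 := by
    have : (∫ x in (0:ℝ)..1, K) ≤ mean U Y2 :=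
      intervalIntegral.integral_mono_on zero_le_one intervalIntegrable_const
        ((h.cont Y2).intervalIntegrable _ _) fun x _ => (h2 Y2 le_rfl x).le
    simpa using this
  exact mem_range_of_exists_le_of_exists_ge h.continuous_mean ⟨Y1, e1⟩ ⟨Y2, e2⟩

/-- R3 as an order isomorphism -/
noncomputable def meanIso : ℝ ≃o ℝ := h.mean_strictMono.orderIsoOfSurjective _ h.mean_surj

end Fol0

end Pool.Agent.Helper37.FTM
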