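import Pool.Agent.Helper37.Fol.Iter

/-! # A leaf with one fixed point consists of fixed points -/

set_option autoImplicit false

namespace Pool.Agent.Helper37.FTM

open Set Filter Topology MeasureTheory

variable {F : ℝ × ℝ → ℝ × ℝ} {U : ℝ → ℝ → ℝ}

namespace Fol0

variable (h : Fol0 F U)
include h

theorem continuous_iter (n : ℕ) : Continuous (F^[n]) := h.continuous_F.iterate n

theorem volume_image_iter (n : ℕ) {s : Set (ℝ × ℝ)} (hs : MeasurableSet s) :
    volume (F^[n] '' s) = volume s := by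
  rw [← lintegral_abs_det_fderiv_eq_addHaar_image volume hs
    (fun x _ => (h.differentiable_iter n x).hasFDerivAt.hasFDerivWithinAt)
    ((h.bij.1.iterate n).injOn)]
  have : ∀ x : ℝ × ℝ, (fderiv ℝ (F^[n]) x).det = 1 := fun x => h.det_iter n x
  simp [this]

/-- conservation: no wandering set of positive measure with bounded orbit -/
theorem no_wandering {W B : Set (ℝ × ℝ)} (hW : IsOpen W) (hne : W.Nonempty) (hB : IsCompact B)
    (h1 : ∀ n, ∀ z ∈ W, F^[n] z ∈ B) (h2 : ∀ n, ∀ z ∈ W, F^[n + 1] z ∉ W) : False := by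
  have hm : ∀ n, MeasurableSet (F^[n] '' W) := fun n =>
    hW.measurableSet.image_of_continuousOn_injOn (h.continuous_iter n).continuousOn
      (h.bij.1.iterate n).injOn
  have hd : Pairwise (Function.onFun Disjoint fun n => F^[n] '' W) := by
    have key : ∀ n k : ℕ, Disjoint (F^[n] '' W) (F^[n + (k + 1)] '' W) := by
      intro n k
      rw [Set.disjoint_left]
      rintro _ ⟨z, hz, rfl⟩ ⟨z', hz', e⟩
      rw [Function.iterate_add_apply] at e
      have := h.bij.1.iterate n e
      exact h2 k z' hz' (this ▸ hz)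
    intro n m hnm
    rcases lt_or_gt_of_ne hnm with hlt | hlt
    · obtain ⟨k, rfl⟩ := Nat.exists_eq_add_of_lt hlt
      exact key n k
    · obtain ⟨k, rfl⟩ := Nat.exists_eq_add_of_lt hlt
      exact (key m k).symm
  have hsum : volume (⋃ n, F^[n] '' W) = ⊤ := by
    rw [measure_iUnion hd hm]
    simp only [h.volume_image_iter _ hW.measurableSet]
    exact ENNReal.tsum_const_eq_top_of_ne_zero (hW.measure_pos volume hne).ne'
  have hsub : (⋃ n, F^[n] '' W) ⊆ B := by
    intro z hz
    obtain ⟨n, w, hw, rfl⟩ := mem_iUnion.1 hz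
    exact h1 n w hw
  have := measure_mono (μ := volume) hsub
  rw [hsum] at this
  exact (hB.measure_lt_top (μ := volume)).ne (top_le_iff.1 this)

theorem ff_add_int (Y x : ℝ) (m : ℤ) : ff F U Y (x + m) = ff F U Y x + m := by
  have hp : Function.Periodic (fun x => ff F U Y x - x) 1 := fun x => by
    show ff F U Y (x + 1) - (x + 1) = ff F U Y x - x
    rw [h.ff_add_one]; ring
  have := hp.int_mul m x
  simp only [mul_one] at this
  linarith

/-- no point moves right on a leaf with a fixed point -/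
theorem not_gt_of_fixed {Y0 x0 : ℝ} (hx0 : ff F U Y0 x0 = x0) (x1 : ℝ) :
    ¬ x1 < ff F U Y0 x1 := by
  intro hx1
  -- a fixed point to the right of `x1`
  obtain ⟨m, hm⟩ := exists_int_gt (x1 - x0)
  set b0 : ℝ := x0 + m with hb0
  have hb : ff F U Y0 b0 = b0 := by rw [hb0, h.ff_add_int, hx0]
  have hxb : x1 < b0 := by rw [hb0]; linarith
  -- a slightly lower leaf
  have hcY : Continuous fun Y => ff F U Y x1 :=
    h.continuous_ff.comp (continuous_id.prodMk continuous_const)
  have hev : ∀ᶠ Y in 𝓝 Y0, x1 < ff F U Y x1 := hcY.continuousAt.eventually (lt_mem_nhds hx1)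
  obtain ⟨Y', hY', hYlt⟩ : ∃ Y', x1 < ff F U Y' x1 ∧ Y' < Y0 := by
    have h3 : ∀ᶠ Y in 𝓝[<] Y0, x1 < ff F U Y x1 := hev.filter_mono nhdsWithin_le_nhds
    have h4 : ∀ᶠ Y in 𝓝[<] Y0, Y < Y0 := eventually_mem_nhdsWithin
    exact (h3.and h4).exists
  obtain ⟨β, hβ1, hβ2⟩ := exists_between hY'
  have hβb : β < b0 := by
    have h3 : ff F U Y' x1 ≤ ff F U Y' b0 := (h.ff_strictMono Y').monotone hxb.le
    have h4 : ff F U Y' b0 < ff F U Y0 b0 := h.ff_mono_left hYlt b0
    linarith
  set W : Set (ℝ × ℝ) := {z | x1 < z.1 ∧ z.1 < β ∧ Y' < lab U z.1 z.2 ∧ lab U z.1 z.2 < Y0}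
    with hWdef
  set B : Set (ℝ × ℝ) := (fun p : ℝ × ℝ => (p.2, U p.1 p.2)) '' (Icc Y' Y0 ×ˢ Icc x1 b0) with hBdef
  have hlc := h.continuous_lab
  have hWo : IsOpen W := by
    refine (isOpen_lt continuous_const continuous_fst).inter ?_
    refine (isOpen_lt continuous_fst continuous_const).inter ?_
    exact (isOpen_lt continuous_const hlc).inter (isOpen_lt hlc continuous_const)
  have hWn : W.Nonempty := by
    obtain ⟨x, hx, hx'⟩ := exists_between hβ1
    obtain ⟨Y, hY, hY''⟩ := exists_between hYlt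
    exact ⟨(x, U Y x), hx, hx', by rw [h.lab_U]; exact hY, by rw [h.lab_U]; exact hY''⟩
  have hB : IsCompact B := by
    refine (isCompact_Icc.prod isCompact_Icc).image ?_
    exact continuous_snd.prodMk h.continuous_U
  -- iterates on one leaf
  have up : ∀ Y, Y' ≤ Y → Y ≤ Y0 → ∀ n x, x1 < x → x < β →
      x1 ≤ (ff F U Y)^[n] x ∧ (ff F U Y)^[n] x ≤ b0 ∧ β < (ff F U Y)^[n + 1] x := by
    intro Y hY1 hY2 n x hx1 hx2
    have hm := h.ff_strictMono Y
    have hle : ∀ z, ff F U Y' z ≤ ff F U Y z := fun z => by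
      rcases hY1.eq_or_lt with e | e
      · rw [e]
      · exact (h.ff_mono_left e z).le
    have hle0 : ∀ z, ff F U Y z ≤ ff F U Y0 z := fun z => by
      rcases hY2.eq_or_lt with e | e
      · rw [e]
      · exact (h.ff_mono_left e z).le
    have hgt : x1 ≤ ff F U Y x1 := (hY'.le).trans (hle x1)
    have e1 : ∀ k, x1 ≤ (ff F U Y)^[k] x1 := by
      intro k
      induction k with
      | zero => exact le_rfl
      | succ k ih =>
        rw [Function.iterate_succ_apply']
        exact hgt.trans (hm.monotone ih)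
    have e2 : ∀ k, (ff F U Y)^[k] b0 ≤ b0 := by
      intro k
      induction k with
      | zero => exact le_rfl
      | succ k ih =>
        rw [Function.iterate_succ_apply']
        refine (hm.monotone ih).trans ?_
        rw [← hb] at *
        exact (hle0 _).trans (by rw [hb])
    have hi := hm.monotone.iterate n
    refine ⟨(e1 n).trans (hi hx1.le), (hi (hx2.le.trans hβb.le)).trans (e2 n), ?_⟩
    have e3 : β < (ff F U Y)^[n + 1] x1 := by
      rw [Function.iterate_succ_apply']
      exact hβ2.trans_le ((hle x1).trans (hm.monotone (e1 n)))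
    exact e3.trans_le ((hm.monotone.iterate (n + 1)) hx1.le)
  refine h.no_wandering hWo hWn hB ?_ ?_
  · rintro n ⟨x, y⟩ ⟨hz1, hz2, hz3, hz4⟩
    simp only at hz1 hz2 hz3 hz4
    have hy : U (lab U x y) x = y := h.lab_spec x y
    have hup := up (lab U x y) hz3.le hz4.le n x hz1 hz2
    refine ⟨(lab U x y, (ff F U (lab U x y))^[n] x), ⟨⟨hz3.le, hz4.le⟩, hup.1, hup.2.1⟩, ?_⟩
    have := h.iter_graph (lab U x y) n x
    rw [hy] at this
    rw [this]
  · rintro n ⟨x, y⟩ ⟨hz1, hz2, hz3, hz4⟩ hmem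
    simp only at hz1 hz2 hz3 hz4
    have hup := up (lab U x y) hz3.le hz4.le n x hz1 hz2
    have h5 := hmem.2.1
    rw [h.iter_fst] at h5
    exact absurd hup.2.2 (not_lt.2 h5.le)

end Fol0

end Pool.Agent.Helper37.FTM
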