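import Pool.Agent.Helper37.Fol.RatAn

/-! # The inverse map, time reversal, and the Lipschitz estimate for the leaves -/

set_option autoImplicit false

namespace Pool.Agent.Helper37.FTM

open Set Filter Topology

variable {F : ℝ × ℝ → ℝ × ℝ} {U : ℝ → ℝ → ℝ}

/-- the inverse map -/
noncomputable def Fi (F : ℝ × ℝ → ℝ × ℝ) : ℝ × ℝ → ℝ × ℝ := Function.invFun F

namespace Fol0

variable (h : Fol0 F U)
include h

theorem F_Fi (z : ℝ × ℝ) : F (Fi F z) = z := Function.invFun_eq (h.bij.2 z)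

theorem Fi_F (z : ℝ × ℝ) : Fi F (F z) = z := h.bij.1 (h.F_Fi (F z))

/-- the derivative as an invertible map -/
noncomputable def dE (z : ℝ × ℝ) : (ℝ × ℝ) ≃L[ℝ] (ℝ × ℝ) :=
  ContinuousLinearMap.toContinuousLinearEquivOfDetNeZero (fderiv ℝ F z) (by
    have := h.det z
    rw [ContinuousLinearMap.det, this]; exact one_ne_zero)

theorem coe_dE (z : ℝ × ℝ) : (h.dE z : (ℝ × ℝ) →L[ℝ] (ℝ × ℝ)) = fderiv ℝ F z :=
  ContinuousLinearMap.coe_toContinuousLinearEquivOfDetNeZero _ _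

theorem isOpenMap_F : IsOpenMap F := by
  refine isOpenMap_of_hasStrictFDerivAt_equiv (f' := fun z => h.dE z) fun z => ?_
  rw [h.coe_dE]
  exact (h.an z (mem_univ z)).hasStrictFDerivAt

/-- `F` as a homeomorphism -/
noncomputable def homeo : (ℝ × ℝ) ≃ₜ (ℝ × ℝ) :=
  (Equiv.mk F (Fi F) h.Fi_F h.F_Fi).toHomeomorphOfContinuousOpen h.continuous_F h.isOpenMap_F

theorem analytic_Fi : AnalyticOnNhd ℝ (Fi F) univ := by
  intro z _
  have h1 : AnalyticAt ℝ (h.homeo.toOpenPartialHomeomorph).symm z := by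
    refine OpenPartialHomeomorph.analyticAt_symm _ (i := h.dE (Fi F z)) (mem_univ _) ?_ ?_
    · exact h.an _ (mem_univ _)
    · rw [h.coe_dE]; rfl
  exact h1

theorem hasFDerivAt_Fi (z : ℝ × ℝ) :
    HasFDerivAt (Fi F) ((h.dE (Fi F z)).symm : (ℝ × ℝ) →L[ℝ] (ℝ × ℝ)) z := by
  have h1 : HasFDerivAt F (h.dE (Fi F z) : (ℝ × ℝ) →L[ℝ] (ℝ × ℝ)) (Fi F z) := by
    rw [h.coe_dE]; exact (h.differentiableAt_F _).hasFDerivAt
  exact HasFDerivAt.of_local_left_inverse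
    ((h.analytic_Fi z (mem_univ z)).continuousAt) h1 (Eventually.of_forall h.F_Fi)

theorem Fi_graph (Y x : ℝ) : ∃ z, ff F U Y z = x ∧ Fi F (x, U Y x) = (z, U Y z) := by
  obtain ⟨z, hz⟩ := (h.lift_bijective Y).2 x
  have hz' : ff F U Y z = x := hz
  refine ⟨z, hz', ?_⟩
  have := h.F_graph Y z
  rw [hz'] at this
  rw [← this, h.Fi_F]

theorem Fi_per (x y : ℝ) : Fi F (x - 1, y) = ((Fi F (x, y)).1 - 1, (Fi F (x, y)).2) := by
  apply h.bij.1
  rw [h.F_Fi, h.per_neg, Prod.mk.eta, h.F_Fi]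

end Fol0

/-- time reversal -/
noncomputable def TF (F : ℝ × ℝ → ℝ × ℝ) (z : ℝ × ℝ) : ℝ × ℝ :=
  (-(Fi F (-z.1, z.2)).1, (Fi F (-z.1, z.2)).2)

/-- time reversed leaves -/
noncomputable def TU (U : ℝ → ℝ → ℝ) (Y x : ℝ) : ℝ := U Y (-x)

/-- the reflection in the vertical axis -/
noncomputable def Rx : (ℝ × ℝ) →L[ℝ] (ℝ × ℝ) :=
  (-ContinuousLinearMap.fst ℝ ℝ ℝ).prod (ContinuousLinearMap.snd ℝ ℝ ℝ)

theorem det_Rx : LinearMap.det (Rx : ℝ × ℝ →ₗ[ℝ] ℝ × ℝ) = -1 := by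
  rw [det_eq]; simp [Rx]

namespace Fol0

variable (h : Fol0 F U)
include h

theorem hasFDerivAt_TF (z : ℝ × ℝ) :
    HasFDerivAt (TF F) (Rx.comp (((h.dE (Fi F (Rx z))).symm : (ℝ × ℝ) →L[ℝ] (ℝ × ℝ)).comp Rx)) z := by
  have e : TF F = fun z => Rx (Fi F (Rx z)) := by funext z; rfl
  rw [e]
  exact Rx.hasFDerivAt.comp z ((h.hasFDerivAt_Fi (Rx z)).comp z Rx.hasFDerivAt)

theorem det_symm (z : ℝ × ℝ) :
    LinearMap.det (((h.dE z).symm : (ℝ × ℝ) →L[ℝ] (ℝ × ℝ)) : ℝ × ℝ →ₗ[ℝ] ℝ × ℝ) = 1 := by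
  have h1 : (((h.dE z).symm : (ℝ × ℝ) →L[ℝ] (ℝ × ℝ)) : ℝ × ℝ →ₗ[ℝ] ℝ × ℝ) ∘ₗ
      (((h.dE z) : (ℝ × ℝ) →L[ℝ] (ℝ × ℝ)) : ℝ × ℝ →ₗ[ℝ] ℝ × ℝ) = LinearMap.id := by
    ext <;> simp
  have h2 := congrArg LinearMap.det h1
  rw [LinearMap.det_comp, h.coe_dE, h.det, LinearMap.det_id, mul_one] at h2
  exact h2

theorem fol0_TF : Fol0 (TF F) (TU U) := by
  refine ⟨⟨?_, ?_, ?_, ?_, ?_, ?_, ?_, ?_, ?_⟩, ?_⟩
  · have e : TF F = fun z => Rx (Fi F (Rx z)) := by funext z; rfl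
    rw [e]
    have h1 : AnalyticOnNhd ℝ (fun z : ℝ × ℝ => Rx z) univ := Rx.analyticOnNhd univ
    exact (Rx.analyticOnNhd univ).comp (h.analytic_Fi.comp h1 (fun _ _ => mem_univ _))
      (fun _ _ => mem_univ _)
  · have hR : Function.Bijective (fun z : ℝ × ℝ => Rx z) := by
      have hi : Function.Involutive (fun z : ℝ × ℝ => Rx z) := fun z => by
        ext <;> simp [Rx]
      exact hi.bijective
    have hF : Function.Bijective (Fi F) := ⟨fun a b e => by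
      rw [← h.F_Fi a, ← h.F_Fi b, e], fun z => ⟨F z, h.Fi_F z⟩⟩
    exact hR.comp (hF.comp hR)
  · intro x y
    have e1 : -(x + 1) = -x - 1 := by ring
    simp only [TF, e1, h.Fi_per]
    ext <;> simp; ring
  · intro z
    rw [(h.hasFDerivAt_TF z).fderiv]
    rw [ContinuousLinearMap.toLinearMap_comp, ContinuousLinearMap.toLinearMap_comp,
      LinearMap.det_comp, LinearMap.det_comp, h.det_symm, det_Rx]
    norm_num
  · intro x y
    have h1 := h.hasFDerivAt_TF (x, y)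
    have h2 : HasDerivAt (fun t : ℝ => ((x, t) : ℝ × ℝ)) ((0 : ℝ), (1 : ℝ)) y :=
      (hasDerivAt_const y x).prodMk (hasDerivAt_id y)
    have h3 := (ContinuousLinearMap.fst ℝ ℝ ℝ).hasFDerivAt.comp_hasDerivAt y
      (h1.comp_hasDerivAt y h2)
    have h4 : deriv (fun t : ℝ => (TF F (x, t)).1) y = _ := h3.deriv
    rw [h4]
    set w := Fi F (Rx (x, y)) with hw
    set v := (h.dE w).symm ((0 : ℝ), (1 : ℝ)) with hv
    have h5 : fderiv ℝ F w v = (0, 1) := by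
      rw [← h.coe_dE w, hv]; simp
    have h6 := inv_fst (h.det w) v
    have h7 : ((fderiv ℝ F w : ℝ × ℝ →ₗ[ℝ] ℝ × ℝ)) v = (0, 1) := h5
    rw [h7] at h6
    have h8 : 0 < (fderiv ℝ F w (0, 1)).1 := by
      have := h.deriv_iter_pos 0 w
      simpa using this
    have h9 : (ContinuousLinearMap.fst ℝ ℝ ℝ) ((Rx.comp (((h.dE w).symm :
        (ℝ × ℝ) →L[ℝ] (ℝ × ℝ)).comp Rx)) (0, 1)) = -v.1 := by
      have : Rx ((0 : ℝ), (1 : ℝ)) = (0, 1) := by simp [Rx]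
      simp only [ContinuousLinearMap.comp_apply, this]
      rfl
    rw [h9, h6]
    simp only [mul_zero, mul_one, zero_sub, neg_neg]
    exact h8
  · intro c
    exact (h.cont c).comp continuous_neg
  · intro c x
    have e1 : -(x + 1) = -x - 1 := by ring
    simp only [TU, e1, h.uper_neg]
  · intro c x
    obtain ⟨z, -, hz⟩ := h.Fi_graph c (-x)
    simp only [TF, TU, hz, neg_neg]
  · intro p
    refine ⟨lab U (-p.1) p.2, (h.lab_spec _ _).symm, fun c hc => (h.eq_lab hc.symm).symm⟩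
  · intro Y
    simp [TU, h.zero]

end Fol0

end Pool.Agent.Helper37.FTM
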