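import Pool.Agent.Helper37.Fol.Leaves

/-! # Iterates: no conjugate points, and stability of the class -/

set_option autoImplicit false

namespace Pool.Agent.Helper37.FTM

open Set Filter Topology

/-- the determinant of an endomorphism of the plane -/
theorem det_eq (A : ℝ × ℝ →ₗ[ℝ] ℝ × ℝ) :
    LinearMap.det A = (A (1, 0)).1 * (A (0, 1)).2 - (A (0, 1)).1 * (A (1, 0)).2 := by
  rw [← LinearMap.det_toMatrix (Module.Basis.finTwoProd ℝ), Matrix.det_fin_two]
  simp [LinearMap.toMatrix_apply]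

theorem app_eq (A : ℝ × ℝ →ₗ[ℝ] ℝ × ℝ) (v : ℝ × ℝ) :
    A v = v.1 • A (1, 0) + v.2 • A (0, 1) := by
  rw [← map_smul, ← map_smul, ← map_add]
  congr 1
  ext <;> simp

/-- inverse of a unimodular matrix, first component -/
theorem inv_fst {A : ℝ × ℝ →ₗ[ℝ] ℝ × ℝ} (hA : LinearMap.det A = 1) (v : ℝ × ℝ) :
    v.1 = (A (0, 1)).2 * (A v).1 - (A (0, 1)).1 * (A v).2 := by
  rw [det_eq] at hA
  rw [app_eq A v]
  simp only [Prod.fst_add, Prod.smul_fst, smul_eq_mul, Prod.snd_add, Prod.smul_snd]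
  linear_combination (-v.1) * hA

variable {F : ℝ × ℝ → ℝ × ℝ} {U : ℝ → ℝ → ℝ}

namespace Fol0

variable (h : Fol0 F U)
include h

theorem iter_graph (Y : ℝ) (n : ℕ) (x : ℝ) :
    F^[n] (x, U Y x) = ((ff F U Y)^[n] x, U Y ((ff F U Y)^[n] x)) := by
  induction n with
  | zero => rfl
  | succ n ih => rw [Function.iterate_succ_apply', ih, h.F_graph, Function.iterate_succ_apply']

theorem iter_fst (n : ℕ) (x y : ℝ) : (F^[n] (x, y)).1 = (ff F U (lab U x y))^[n] x := by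
  have := h.iter_graph (lab U x y) n x
  rw [h.lab_spec] at this
  rw [this]

theorem iter_mono_left {Y Y' : ℝ} (hY : Y < Y') (n : ℕ) (x : ℝ) :
    (ff F U Y)^[n + 1] x < (ff F U Y')^[n + 1] x := by
  induction n with
  | zero => simpa using h.ff_mono_left hY x
  | succ n ih =>
    rw [Function.iterate_succ_apply', Function.iterate_succ_apply' (ff F U Y')]
    exact (h.ff_mono_left hY _).trans (h.ff_strictMono Y' ih)

theorem iter_strictMono (n : ℕ) (x : ℝ) : StrictMono fun y => (F^[n + 1] (x, y)).1 := by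
  intro y y' hy
  show (F^[n + 1] (x, y)).1 < (F^[n + 1] (x, y')).1
  rw [h.iter_fst, h.iter_fst]
  exact h.iter_mono_left (h.lab_strictMono x hy) n x

theorem differentiableAt_F (p : ℝ × ℝ) : DifferentiableAt ℝ F p :=
  (h.an p (mem_univ p)).differentiableAt

theorem an_iter (n : ℕ) : AnalyticOnNhd ℝ (F^[n]) univ := by
  induction n with
  | zero => exact analyticOnNhd_id
  | succ n ih =>
    rw [Function.iterate_succ']
    exact h.an.comp ih (fun _ _ => mem_univ _)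

theorem differentiable_iter (n : ℕ) : Differentiable ℝ (F^[n]) := fun p =>
  ((h.an_iter n) p (mem_univ p)).differentiableAt

theorem fderiv_iter_succ (n : ℕ) (p : ℝ × ℝ) :
    fderiv ℝ (F^[n + 1]) p = (fderiv ℝ F (F^[n] p)).comp (fderiv ℝ (F^[n]) p) := by
  rw [Function.iterate_succ']
  exact fderiv_comp p (h.differentiableAt_F _) (h.differentiable_iter n p)

theorem det_iter (n : ℕ) (p : ℝ × ℝ) :
    LinearMap.det (fderiv ℝ (F^[n]) p : ℝ × ℝ →ₗ[ℝ] ℝ × ℝ) = 1 := by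
  induction n with
  | zero =>
    rw [Function.iterate_zero, fderiv_id]
    exact LinearMap.det_id
  | succ n ih =>
    rw [h.fderiv_iter_succ, ContinuousLinearMap.toLinearMap_comp, LinearMap.det_comp, h.det, ih,
      one_mul]

theorem hasDerivAt_iter (n : ℕ) (x y : ℝ) :
    HasDerivAt (fun t : ℝ => F^[n] (x, t)) (fderiv ℝ (F^[n]) (x, y) (0, 1)) y := by
  have h1 : HasFDerivAt (F^[n]) (fderiv ℝ (F^[n]) (x, y)) (x, y) :=
    (h.differentiable_iter n (x, y)).hasFDerivAt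
  have h2 : HasDerivAt (fun t : ℝ => ((x, t) : ℝ × ℝ)) ((0 : ℝ), (1 : ℝ)) y :=
    (hasDerivAt_const y x).prodMk (hasDerivAt_id y)
  exact h1.comp_hasDerivAt y h2

theorem hasDerivAt_iter_fst (n : ℕ) (x y : ℝ) :
    HasDerivAt (fun t : ℝ => (F^[n] (x, t)).1) (fderiv ℝ (F^[n]) (x, y) (0, 1)).1 y := by
  have h1 := h.hasDerivAt_iter n x y
  have h2 : HasFDerivAt (Prod.fst : ℝ × ℝ → ℝ) (ContinuousLinearMap.fst ℝ ℝ ℝ) (F^[n] (x, y)) :=
    hasFDerivAt_fst
  exact h2.comp_hasDerivAt y h1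

theorem deriv_iter_nonneg (n : ℕ) (p : ℝ × ℝ) : 0 ≤ (fderiv ℝ (F^[n]) p (0, 1)).1 := by
  cases n with
  | zero => rw [Function.iterate_zero, fderiv_id]; simp
  | succ n =>
    have h1 := h.hasDerivAt_iter_fst (n + 1) p.1 p.2
    rw [← h1.deriv]
    exact (h.iter_strictMono n p.1).monotone.deriv_nonneg

/-- no conjugate points -/
theorem deriv_iter_pos (n : ℕ) (p : ℝ × ℝ) : 0 < (fderiv ℝ (F^[n + 1]) p (0, 1)).1 := by
  refine lt_of_le_of_ne (h.deriv_iter_nonneg (n + 1) p) fun e => ?_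
  have tw : ∀ q : ℝ × ℝ, 0 < (fderiv ℝ F q (0, 1)).1 := fun q => by
    have h1 := h.hasDerivAt_iter_fst 1 q.1 q.2
    have h2 := h.twist q.1 q.2
    rw [Function.iterate_one] at h1
    rwa [h1.deriv] at h2
  set v : ℝ × ℝ := fderiv ℝ (F^[n]) p (0, 1) with hv
  set w : ℝ × ℝ := fderiv ℝ (F^[n + 1]) p (0, 1) with hw
  have hwv : w = fderiv ℝ F (F^[n] p) v := by rw [hw, h.fderiv_iter_succ]; rfl
  have h1 : v.1 = (fderiv ℝ F (F^[n] p) (0, 1)).2 * w.1 - (fderiv ℝ F (F^[n] p) (0, 1)).1 * w.2 := by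
    have := inv_fst (h.det (F^[n] p)) v
    rw [hwv]; exact this
  have hv0 : 0 ≤ v.1 := h.deriv_iter_nonneg n p
  have ht := tw (F^[n] p)
  -- next iterate
  have h2 : (fderiv ℝ (F^[n + 1 + 1]) p (0, 1)).1 = (fderiv ℝ F (F^[n + 1] p) w).1 := by
    rw [h.fderiv_iter_succ (n + 1)]; rfl
  have h3 : (fderiv ℝ F (F^[n + 1] p) w).1 = w.2 * (fderiv ℝ F (F^[n + 1] p) (0, 1)).1 := by
    have := app_eq (fderiv ℝ F (F^[n + 1] p) : ℝ × ℝ →ₗ[ℝ] ℝ × ℝ) w
    have h4 := congrArg Prod.fst this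
    simp only [ContinuousLinearMap.coe_coe, Prod.fst_add, Prod.smul_fst, smul_eq_mul] at h4
    rw [h4, ← e]; ring
  have h5 := h.deriv_iter_nonneg (n + 1 + 1) p
  rw [h2, h3] at h5
  have ht' := tw (F^[n + 1] p)
  have hw2 : 0 ≤ w.2 := nonneg_of_mul_nonneg_left h5 ht'
  have hw2' : w.2 ≠ 0 := by
    intro e2
    have hw0 : w = 0 := Prod.ext e.symm e2
    have h6 := inv_fst (h.det_iter (n + 1) p) ((0 : ℝ), (1 : ℝ))
    have h7 := det_eq (fderiv ℝ (F^[n + 1]) p : ℝ × ℝ →ₗ[ℝ] ℝ × ℝ)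
    rw [h.det_iter] at h7
    have h8 : (fderiv ℝ (F^[n + 1]) p : ℝ × ℝ →ₗ[ℝ] ℝ × ℝ) (0, 1) = w := rfl
    rw [h8, hw0] at h7
    simp at h7
  have hw2'' : 0 < w.2 := lt_of_le_of_ne hw2 (Ne.symm hw2')
  rw [← e] at h1
  have : v.1 < 0 := by rw [h1]; nlinarith
  linarith

theorem per_iter (n : ℕ) (x y : ℝ) :
    F^[n] (x + 1, y) = ((F^[n] (x, y)).1 + 1, (F^[n] (x, y)).2) := by
  induction n with
  | zero => rfl
  | succ n ih => rw [Function.iterate_succ_apply', ih, h.per, Function.iterate_succ_apply']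

end Fol0

/-- the map `F^q - (p, 0)` -/
noncomputable def GG (F : ℝ × ℝ → ℝ × ℝ) (q : ℕ) (p : ℤ) (z : ℝ × ℝ) : ℝ × ℝ :=
  ((F^[q] z).1 - p, (F^[q] z).2)

namespace Fol0

variable (h : Fol0 F U)
include h

theorem U_add_int (Y x : ℝ) (m : ℤ) : U Y (x + m) = U Y x := by
  have hp : Function.Periodic (U Y) 1 := fun x => h.uper Y x
  have := hp.int_mul m x
  simpa using this

/-- the class is stable -/
theorem fol0_GG (q : ℕ) (p : ℤ) : Fol0 (GG F (q + 1) p) U := by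
  have hGG : GG F (q + 1) p = fun z => F^[q + 1] z - ((p : ℝ), (0 : ℝ)) := by
    funext z; ext <;> simp [GG]
  refine ⟨⟨?_, ?_, ?_, ?_, ?_, h.cont, h.uper, ?_, h.part⟩, h.zero⟩
  · rw [hGG]
    exact (h.an_iter (q + 1)).sub analyticOnNhd_const
  · rw [hGG]
    exact (Equiv.subRight ((p : ℝ), (0 : ℝ))).bijective.comp (h.bij.iterate (q + 1))
  · intro x y
    simp only [GG, h.per_iter]
    ext <;> simp; ring
  · intro z
    rw [hGG, fderiv_sub_const]
    exact h.det_iter (q + 1) z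
  · intro x y
    have h1 : HasDerivAt (fun t : ℝ => (GG F (q + 1) p (x, t)).1)
        (fderiv ℝ (F^[q + 1]) (x, y) (0, 1)).1 y := by
      simpa [GG] using (h.hasDerivAt_iter_fst (q + 1) x y).sub_const (p : ℝ)
    rw [h1.deriv]
    exact h.deriv_iter_pos q (x, y)
  · intro Y x
    simp only [GG, h.iter_graph]
    rw [sub_eq_add_neg, ← Int.cast_neg, h.U_add_int]

theorem ff_GG (q : ℕ) (p : ℤ) (Y x : ℝ) : ff (GG F q p) U Y x = (ff F U Y)^[q] x - p := by
  simp only [ff, GG, h.iter_graph]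

end Fol0

end Pool.Agent.Helper37.FTM
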