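import Pool.Agent.Helper37.Fol.Defs

/-! # Order and joint continuity of the leaves -/

set_option autoImplicit false

namespace Pool.Agent.Helper37.FTM

open Set Filter Topology

variable {F : ℝ × ℝ → ℝ × ℝ} {U : ℝ → ℝ → ℝ}

/-- the label (height at `0`) of the leaf through `(x, y)` -/
noncomputable def lab (U : ℝ → ℝ → ℝ) (x y : ℝ) : ℝ := Function.invFun (fun Y => U Y x) y

/-- the lift of the circle homeomorphism on the leaf `Y` -/
noncomputable def ff (F : ℝ × ℝ → ℝ × ℝ) (U : ℝ → ℝ → ℝ) (Y x : ℝ) : ℝ := (F (x, U Y x)).1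

namespace Fol0

variable (h : Fol0 F U)
include h

theorem inj_at {Y Y' x : ℝ} (e : U Y x = U Y' x) : Y = Y' := by
  obtain ⟨c, -, hc⟩ := h.part (x, U Y x)
  rw [hc Y rfl, hc Y' e]

theorem mono {Y Y' : ℝ} (hY : Y < Y') (x : ℝ) : U Y x < U Y' x := by
  by_contra hx
  push Not at hx
  have hne : ∀ z, U Y' z - U Y z ≠ 0 := fun z hz =>
    (ne_of_lt hY) (h.inj_at (x := z) (by linarith))
  have hc : Continuous fun z => U Y' z - U Y z := (h.cont Y').sub (h.cont Y)
  have h0 : 0 < U Y' 0 - U Y 0 := by rw [h.zero, h.zero]; linarith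
  have hx' : U Y' x - U Y x ≤ 0 := by linarith
  obtain ⟨z, hz⟩ := mem_range_of_exists_le_of_exists_ge hc ⟨x, hx'⟩ ⟨0, h0.le⟩
  exact hne z hz

theorem strictMono (x : ℝ) : StrictMono fun Y => U Y x := fun _ _ hY => h.mono hY x

theorem surj (x : ℝ) : Function.Surjective fun Y => U Y x := by
  intro y
  obtain ⟨c, hc, -⟩ := h.part (x, y)
  exact ⟨c, hc.symm⟩

theorem lab_spec (x y : ℝ) : U (lab U x y) x = y :=
  Function.invFun_eq (f := fun Y => U Y x) (h.surj x y)

theorem lab_U (Y x : ℝ) : lab U x (U Y x) = Y := h.inj_at (h.lab_spec x (U Y x))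

theorem eq_lab {Y x y : ℝ} (e : U Y x = y) : lab U x y = Y := by rw [← e, h.lab_U]

theorem lt_lab_iff {Y x y : ℝ} : Y < lab U x y ↔ U Y x < y := by
  conv_rhs => rw [← h.lab_spec x y]
  exact ((h.strictMono x).lt_iff_lt (a := Y) (b := lab U x y)).symm

theorem lab_lt_iff {Y x y : ℝ} : lab U x y < Y ↔ y < U Y x := by
  conv_rhs => rw [← h.lab_spec x y]
  exact ((h.strictMono x).lt_iff_lt (a := lab U x y) (b := Y)).symm

theorem lab_strictMono (x : ℝ) : StrictMono (lab U x) := fun y y' hy => by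
  rw [h.lt_lab_iff, h.lab_spec]; exact hy

theorem continuous_lab : Continuous fun p : ℝ × ℝ => lab U p.1 p.2 := by
  refine continuous_iff_continuousAt.2 fun p => ?_
  refine tendsto_order.2 ⟨fun a ha => ?_, fun a ha => ?_⟩
  · rw [h.lt_lab_iff] at ha
    have hc : Continuous fun q : ℝ × ℝ => q.2 - U a q.1 :=
      continuous_snd.sub ((h.cont a).comp continuous_fst)
    have := hc.continuousAt.eventually (lt_mem_nhds (show (0:ℝ) < p.2 - U a p.1 by linarith))
    filter_upwards [this] with q hq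
    rw [h.lt_lab_iff]; linarith
  · have ha : lab U p.1 p.2 < a := ha
    rw [h.lab_lt_iff] at ha
    have hc : Continuous fun q : ℝ × ℝ => U a q.1 - q.2 :=
      ((h.cont a).comp continuous_fst).sub continuous_snd
    have := hc.continuousAt.eventually (lt_mem_nhds (show (0:ℝ) < U a p.1 - p.2 by linarith))
    filter_upwards [this] with q hq
    rw [h.lab_lt_iff]; linarith

theorem continuous_U : Continuous fun p : ℝ × ℝ => U p.1 p.2 := by
  refine continuous_iff_continuousAt.2 fun p => ?_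
  refine tendsto_order.2 ⟨fun a ha => ?_, fun a ha => ?_⟩
  · obtain ⟨a', ha', ha''⟩ := exists_between ha
    have h1 : lab U p.2 a' < p.1 := by rw [h.lab_lt_iff]; exact ha''
    set Y1 := lab U p.2 a' with hY1
    have h2 : U Y1 p.2 = a' := h.lab_spec _ _
    have hc : Continuous fun q : ℝ × ℝ => U Y1 q.2 := (h.cont Y1).comp continuous_snd
    have e1 := hc.continuousAt.eventually (lt_mem_nhds (show a < U Y1 p.2 by rw [h2]; exact ha'))
    have e2 : ∀ᶠ q : ℝ × ℝ in 𝓝 p, Y1 < q.1 :=
      continuous_fst.continuousAt.eventually (lt_mem_nhds h1)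
    filter_upwards [e1, e2] with q hq1 hq2
    exact hq1.trans (h.mono hq2 _)
  · obtain ⟨a', ha', ha''⟩ := exists_between ha
    have h1 : p.1 < lab U p.2 a' := by rw [h.lt_lab_iff]; exact ha'
    set Y1 := lab U p.2 a' with hY1
    have h2 : U Y1 p.2 = a' := h.lab_spec _ _
    have hc : Continuous fun q : ℝ × ℝ => U Y1 q.2 := (h.cont Y1).comp continuous_snd
    have e1 := hc.continuousAt.eventually (gt_mem_nhds (show U Y1 p.2 < a by rw [h2]; exact ha''))
    have e2 : ∀ᶠ q : ℝ × ℝ in 𝓝 p, q.1 < Y1 :=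
      continuous_fst.continuousAt.eventually (gt_mem_nhds h1)
    filter_upwards [e1, e2] with q hq1 hq2
    exact (h.mono hq2 _).trans hq1

theorem continuous_F : Continuous F := by
  rw [continuous_iff_continuousAt]
  exact fun x => (h.an x (mem_univ x)).continuousAt

theorem F_graph (Y x : ℝ) : F (x, U Y x) = (ff F U Y x, U Y (ff F U Y x)) :=
  Prod.ext rfl (h.inv Y x)

theorem lab_F (p : ℝ × ℝ) : lab U (F p).1 (F p).2 = lab U p.1 p.2 := by
  refine h.eq_lab ?_
  have h1 := h.F_graph (lab U p.1 p.2) p.1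
  rw [h.lab_spec] at h1
  have h2 : F p = (ff F U (lab U p.1 p.2) p.1, U (lab U p.1 p.2) (ff F U (lab U p.1 p.2) p.1)) := h1
  rw [h2]

theorem F_fst (x y : ℝ) : (F (x, y)).1 = ff F U (lab U x y) x := by
  rw [ff, h.lab_spec]

theorem lab_add_one (x y : ℝ) : lab U (x + 1) y = lab U x y := by
  refine h.eq_lab ?_
  rw [h.uper, h.lab_spec]

theorem continuous_ff : Continuous fun p : ℝ × ℝ => ff F U p.1 p.2 := by
  unfold ff
  exact continuous_fst.comp (h.continuous_F.comp (continuous_snd.prodMk h.continuous_U))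

theorem continuous_ff' (Y : ℝ) : Continuous (ff F U Y) :=
  h.continuous_ff.comp (continuous_const.prodMk continuous_id)

theorem ff_add_one (Y x : ℝ) : ff F U Y (x + 1) = ff F U Y x + 1 := by
  unfold ff; rw [h.uper, h.per]

theorem ff_injective (Y : ℝ) : Function.Injective (ff F U Y) := by
  intro x x' e
  have : F (x, U Y x) = F (x', U Y x') := by rw [h.F_graph, h.F_graph, e]
  exact congrArg Prod.fst (h.bij.1 this)

theorem ff_strictMono (Y : ℝ) : StrictMono (ff F U Y) := by
  rcases (h.continuous_ff' Y).strictMono_of_inj (h.ff_injective Y) with h1 | h1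
  · exact h1
  · exfalso
    have h2 := h1 (show (0:ℝ) < 0 + 1 by norm_num)
    rw [h.ff_add_one] at h2
    linarith

theorem X_strictMono (x : ℝ) : StrictMono fun y => (F (x, y)).1 :=
  strictMono_of_deriv_pos fun y => h.twist x y

theorem ff_mono_left {Y Y' : ℝ} (hY : Y < Y') (x : ℝ) : ff F U Y x < ff F U Y' x :=
  h.X_strictMono x (h.mono hY x)

end Fol0

end Pool.Agent.Helper37.FTM
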