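import Pool.Agent.Helper37.Fol.Inverse

/-! # The uniform Lipschitz estimate for the leaves -/

set_option autoImplicit false

namespace Pool.Agent.Helper37.FTM

open Set Filter Topology

variable {F : ℝ × ℝ → ℝ × ℝ} {U : ℝ → ℝ → ℝ}

namespace Fol0

variable (h : Fol0 F U)
include h

theorem F_add_int (z : ℝ × ℝ) (m : ℤ) : F (z + ((m : ℝ), 0)) = F z + ((m : ℝ), 0) := by
  obtain ⟨x, y⟩ := z
  induction m with
  | zero => simp
  | succ i hi =>
    have e : ((x, y) : ℝ × ℝ) + (((i + 1 : ℤ) : ℝ), 0) = (x + (i : ℝ) + 1, y) := by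
      ext <;> push_cast <;> simp <;> ring
    have e' : ((x, y) : ℝ × ℝ) + (((i : ℤ) : ℝ), 0) = (x + (i : ℝ), y) := by
      ext <;> push_cast <;> simp
    rw [e, h.per, ← e', hi]
    ext <;> push_cast <;> simp <;> ring
  | pred i hi =>
    have e : ((x, y) : ℝ × ℝ) + (((-(i : ℤ) - 1 : ℤ) : ℝ), 0) = (x - (i : ℝ) - 1, y) := by
      ext <;> push_cast <;> simp <;> ring
    have e' : ((x, y) : ℝ × ℝ) + (((-(i : ℤ) : ℤ) : ℝ), 0) = (x - (i : ℝ), y) := by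
      ext <;> push_cast <;> simp; ring
    rw [e, h.per_neg, ← e', hi]
    ext <;> push_cast <;> simp; ring

theorem fderiv_add_int (z : ℝ × ℝ) (m : ℤ) : fderiv ℝ F (z + ((m : ℝ), 0)) = fderiv ℝ F z := by
  have h1 : (fun w => F (w + ((m : ℝ), 0))) = fun w => F w + ((m : ℝ), 0) := by
    funext w; exact h.F_add_int w m
  have h2 : fderiv ℝ (fun w => F (w + ((m : ℝ), 0))) z = fderiv ℝ F (z + ((m : ℝ), 0)) :=
    fderiv_comp_add_right _
  rw [← h2, h1, fderiv_add_const]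

theorem fderiv_fract (x y : ℝ) : fderiv ℝ F (Int.fract x, y) = fderiv ℝ F (x, y) := by
  have := h.fderiv_add_int (Int.fract x, y) ⌊x⌋
  rw [← this]
  congr 1
  ext <;> simp

theorem continuous_fderiv : Continuous (fderiv ℝ F) := by
  have h1 : AnalyticOnNhd ℝ (fderiv ℝ F) univ := h.an.fderiv
  exact continuous_iff_continuousAt.2 fun z => (h1 z (mem_univ z)).continuousAt

/-- a bound for a continuous function of the derivative on a strip -/
theorem exists_bound (φ : ((ℝ × ℝ) →L[ℝ] (ℝ × ℝ)) → ℝ) (hφ : Continuous φ) (m M : ℝ) :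
    ∃ A : ℝ, ∀ x, ∀ y ∈ Icc m M, φ (fderiv ℝ F (x, y)) ≤ A := by
  have hc : Continuous fun z => φ (fderiv ℝ F z) := hφ.comp h.continuous_fderiv
  obtain ⟨A, hA⟩ := (isCompact_Icc.prod isCompact_Icc : IsCompact (Icc (0:ℝ) 1 ×ˢ Icc m M)).bddAbove_image
    hc.continuousOn
  refine ⟨A, fun x y hy => ?_⟩
  rw [← h.fderiv_fract x y]
  exact hA (mem_image_of_mem _ ⟨⟨Int.fract_nonneg x, (Int.fract_lt_one x).le⟩, hy⟩)

theorem exists_pos_bound (m M : ℝ) :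
    ∃ β : ℝ, 0 < β ∧ ∀ x, ∀ y ∈ Icc m M, β ≤ (fderiv ℝ F (x, y) (0, 1)).1 := by
  have hφ : Continuous fun A : (ℝ × ℝ) →L[ℝ] (ℝ × ℝ) => (A (0, 1)).1 := by fun_prop
  have hc : Continuous fun z => (fderiv ℝ F z (0, 1)).1 := hφ.comp h.continuous_fderiv
  rcases lt_or_ge M m with hmM | hmM
  · exact ⟨1, one_pos, fun x y hy => absurd (hy.1.trans hy.2) (not_le.2 hmM)⟩
  have hne : (Icc (0:ℝ) 1 ×ˢ Icc m M).Nonempty := ⟨(0, m), ⟨⟨le_rfl, zero_le_one⟩, ⟨le_rfl, hmM⟩⟩⟩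
  obtain ⟨z, hz, hmin⟩ := (isCompact_Icc.prod isCompact_Icc :
    IsCompact (Icc (0:ℝ) 1 ×ˢ Icc m M)).exists_isMinOn hne hc.continuousOn
  have h0 : 0 < (fderiv ℝ F z (0, 1)).1 := by simpa using h.deriv_iter_pos 0 z
  refine ⟨_, h0, fun x y hy => ?_⟩
  rw [← h.fderiv_fract x y]
  exact hmin (show (Int.fract x, y) ∈ _ from ⟨⟨Int.fract_nonneg x, (Int.fract_lt_one x).le⟩, hy⟩)

/-- leaves with labels in a bounded interval stay in a strip -/
theorem exists_strip (Y1 Y2 : ℝ) : ∃ m M : ℝ, ∀ Y ∈ Icc Y1 Y2, ∀ x, U Y x ∈ Icc m M := by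
  obtain ⟨m, hm⟩ := (isCompact_Icc.prod isCompact_Icc :
    IsCompact (Icc Y1 Y2 ×ˢ Icc (0:ℝ) 1)).bddBelow_image h.continuous_U.continuousOn
  obtain ⟨M, hM⟩ := (isCompact_Icc.prod isCompact_Icc :
    IsCompact (Icc Y1 Y2 ×ˢ Icc (0:ℝ) 1)).bddAbove_image h.continuous_U.continuousOn
  refine ⟨m, M, fun Y hY x => ?_⟩
  have e : U Y x = U Y (Int.fract x) := by
    conv_lhs => rw [← Int.fract_add_floor x]
    exact h.U_add_int _ _ _
  have hmem : (Y, Int.fract x) ∈ Icc Y1 Y2 ×ˢ Icc (0:ℝ) 1 :=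
    ⟨hY, ⟨Int.fract_nonneg x, (Int.fract_lt_one x).le⟩⟩
  rw [e]
  exact ⟨hm (mem_image_of_mem _ hmem), hM (mem_image_of_mem _ hmem)⟩

theorem hasDerivAt_x (x y : ℝ) :
    HasDerivAt (fun t => (F (t, y)).1) (fderiv ℝ F (x, y) (1, 0)).1 x := by
  have h2 : HasDerivAt (fun t : ℝ => ((t, y) : ℝ × ℝ)) ((1 : ℝ), (0 : ℝ)) x :=
    (hasDerivAt_id x).prodMk (hasDerivAt_const x y)
  exact (ContinuousLinearMap.fst ℝ ℝ ℝ).hasFDerivAt.comp_hasDerivAt x
      ((h.differentiableAt_F (x, y)).hasFDerivAt.comp_hasDerivAt x h2)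

theorem hasDerivAt_y (x y : ℝ) :
    HasDerivAt (fun t => (F (x, t)).1) (fderiv ℝ F (x, y) (0, 1)).1 y := by
  have h2 : HasDerivAt (fun t : ℝ => ((x, t) : ℝ × ℝ)) ((0 : ℝ), (1 : ℝ)) y :=
    (hasDerivAt_const y x).prodMk (hasDerivAt_id y)
  exact (ContinuousLinearMap.fst ℝ ℝ ℝ).hasFDerivAt.comp_hasDerivAt y
      ((h.differentiableAt_F (x, y)).hasFDerivAt.comp_hasDerivAt y h2)

theorem lip_one (Y1 Y2 : ℝ) : ∃ C : ℝ, 0 < C ∧ ∀ Y ∈ Icc Y1 Y2, ∀ x x' : ℝ, x ≤ x' →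
    U Y x - U Y x' ≤ C * (x' - x) := by
  obtain ⟨m, M, hmM⟩ := h.exists_strip Y1 Y2
  obtain ⟨A, hA⟩ := h.exists_bound (fun A => (A (1, 0)).1) (by fun_prop) m M
  obtain ⟨β, hβ, hβ'⟩ := h.exists_pos_bound m M
  refine ⟨(|A| + 1) / β, by positivity, fun Y hY x x' hx => ?_⟩
  have hA0 : A ≤ |A| + 1 := by linarith [le_abs_self A]
  rcases le_or_gt (U Y x) (U Y x') with hle | hlt
  · have : 0 ≤ (|A| + 1) / β * (x' - x) := by
      apply mul_nonneg (by positivity) (by linarith)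
    linarith
  have hy := hmM Y hY x
  have hy' := hmM Y hY x'
  have h1 : (F (x, U Y x)).1 ≤ (F (x', U Y x')).1 := (h.ff_strictMono Y).monotone hx
  have h2 : β * (U Y x - U Y x') ≤ (F (x', U Y x)).1 - (F (x', U Y x')).1 := by
    refine (convex_Icc m M).mul_sub_le_image_sub_of_le_deriv
      (f := fun t => (F (x', t)).1) ?_ ?_ ?_ _ hy' _ hy hlt.le
    · exact fun t _ => (h.hasDerivAt_y x' t).continuousAt.continuousWithinAt
    · exact fun t _ => (h.hasDerivAt_y x' t).differentiableAt.differentiableWithinAt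
    · intro t ht
      rw [(h.hasDerivAt_y x' t).deriv]
      exact hβ' x' t (interior_subset ht)
  have h3 : (F (x', U Y x)).1 - (F (x, U Y x)).1 ≤ A * (x' - x) := by
    refine convex_univ.image_sub_le_mul_sub_of_deriv_le
      (f := fun t => (F (t, U Y x)).1) ?_ ?_ ?_ _ (mem_univ _) _ (mem_univ _) hx
    · exact fun t _ => (h.hasDerivAt_x t _).continuousAt.continuousWithinAt
    · exact fun t _ => (h.hasDerivAt_x t _).differentiableAt.differentiableWithinAt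
    · intro t _
      rw [(h.hasDerivAt_x t _).deriv]
      exact hA t _ hy
  have h4 : A * (x' - x) ≤ (|A| + 1) * (x' - x) := mul_le_mul_of_nonneg_right hA0 (by linarith)
  rw [div_mul_eq_mul_div, le_div_iff₀ hβ]
  linarith

/-- **uniform Lipschitz estimate** -/
theorem lip (Y1 Y2 : ℝ) : ∃ C : ℝ, 0 < C ∧ ∀ Y ∈ Icc Y1 Y2, ∀ x x' : ℝ,
    |U Y x - U Y x'| ≤ C * |x - x'| := by
  obtain ⟨C1, hC1, H1⟩ := h.lip_one Y1 Y2
  obtain ⟨C2, hC2, H2⟩ := h.fol0_TF.lip_one Y1 Y2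
  have key : ∀ Y ∈ Icc Y1 Y2, ∀ x x' : ℝ, x ≤ x' →
      |U Y x - U Y x'| ≤ max C1 C2 * (x' - x) := by
    intro Y hY x x' hx
    have a1 := H1 Y hY x x' hx
    have a2 := H2 Y hY (-x') (-x) (by linarith)
    simp only [TU, neg_neg] at a2
    have b1 : C1 * (x' - x) ≤ max C1 C2 * (x' - x) :=
      mul_le_mul_of_nonneg_right (le_max_left _ _) (by linarith)
    have b2 : C2 * (x' - x) ≤ max C1 C2 * (x' - x) :=
      mul_le_mul_of_nonneg_right (le_max_right _ _) (by linarith)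
    rw [abs_le]
    constructor <;> nlinarith
  refine ⟨max C1 C2, lt_max_of_lt_left hC1, fun Y hY x x' => ?_⟩
  rcases le_total x x' with hx | hx
  · have := key Y hY x x' hx
    rw [abs_sub_comm x x', abs_of_nonneg (sub_nonneg.2 hx)]
    exact this
  · have := key Y hY x' x hx
    rw [abs_sub_comm (U Y x), abs_of_nonneg (sub_nonneg.2 hx)]
    exact this

end Fol0

end Pool.Agent.Helper37.FTM
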