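import Pool.Agent.Helper37.Fol.CxOn
import Pool.Agent.Helper37.Fol.Jac

/-! # The momentum as a function of position and velocity -/

set_option autoImplicit false

namespace Pool.Agent.Helper37.FTM

open Set Filter Topology

variable {F : ℝ × ℝ → ℝ × ℝ} {U : ℝ → ℝ → ℝ}

/-- position and velocity -/
noncomputable def Th (F : ℝ × ℝ → ℝ × ℝ) (p : ℝ × ℝ) : ℝ × ℝ := (p.1, (F p).1 - p.1)

/-- the attainable pairs position, velocity -/
def Wd (F : ℝ × ℝ → ℝ × ℝ) : Set (ℝ × ℝ) := range (Th F)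

/-- the momentum as a function of position and velocity -/
noncomputable def PR (F : ℝ × ℝ → ℝ × ℝ) (z : ℝ × ℝ) : ℝ :=
  Function.invFun (fun y => (F (z.1, y)).1 - z.1) z.2

namespace Fol0

variable (h : Fol0 F U)
include h

theorem Th_injective : Function.Injective (Th F) := by
  rintro ⟨x, y⟩ ⟨x', y'⟩ e
  have e1 : x = x' := congrArg Prod.fst e
  subst e1
  have e2 : (F (x, y)).1 - x = (F (x, y')).1 - x := congrArg Prod.snd e
  have e3 : (F (x, y)).1 = (F (x, y')).1 := by linarith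
  have := (h.X_strictMono x).injective e3
  rw [this]

theorem vel_injective (x : ℝ) : Function.Injective fun y => (F (x, y)).1 - x := by
  intro y y' e
  have e3 : (F (x, y)).1 = (F (x, y')).1 := by
    have : (F (x, y)).1 - x = (F (x, y')).1 - x := e
    linarith
  exact (h.X_strictMono x).injective e3

theorem PR_Th (p : ℝ × ℝ) : PR F (Th F p) = p.2 := by
  unfold PR
  exact Function.leftInverse_invFun (h.vel_injective p.1) p.2

theorem PR_eq {x w y : ℝ} (e : (F (x, y)).1 - x = w) : PR F (x, w) = y := by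
  have : Th F (x, y) = (x, w) := by rw [← e]; rfl
  rw [← this, h.PR_Th]

theorem F_PR {z : ℝ × ℝ} (hz : z ∈ Wd F) : (F (z.1, PR F z)).1 = z.1 + z.2 := by
  obtain ⟨p, rfl⟩ := hz
  rw [h.PR_Th]
  show (F (p.1, p.2)).1 = p.1 + ((F p).1 - p.1)
  simp

theorem Wd_trans (p : ℝ × ℝ) : p + (1, 0) ∈ Wd F ↔ p ∈ Wd F := by
  constructor
  · rintro ⟨q, hq⟩
    refine ⟨(q.1 - 1, q.2), ?_⟩
    have h1 := congrArg Prod.fst hq
    have h2 := congrArg Prod.snd hq
    simp only [Th, Prod.fst_add, Prod.snd_add, add_zero] at h1 h2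
    rw [Th, h.per_neg, Prod.mk.eta]
    ext
    · show q.1 - 1 = p.1; linarith
    · show (F q).1 - 1 - (q.1 - 1) = p.2; linarith
  · rintro ⟨q, rfl⟩
    refine ⟨(q.1 + 1, q.2), ?_⟩
    rw [Th, h.per, Prod.mk.eta]
    ext
    · simp [Th]
    · simp [Th]

theorem PR_per (x w : ℝ) : PR F (x + 1, w) = PR F (x, w) + 0 := by
  unfold PR
  have : (fun y => (F (x + 1, y)).1 - (x + 1)) = fun y => (F (x, y)).1 - x := by
    funext y; rw [h.per]; simp
  simp only [this, add_zero]

theorem hasFDerivAt_Th (p : ℝ × ℝ) : HasFDerivAt (Th F) ((ContinuousLinearMap.fst ℝ ℝ ℝ).prod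
    ((ContinuousLinearMap.fst ℝ ℝ ℝ).comp (fderiv ℝ F p) - ContinuousLinearMap.fst ℝ ℝ ℝ)) p := by
  have h1 : HasFDerivAt (fun q => (F q).1)
      ((ContinuousLinearMap.fst ℝ ℝ ℝ).comp (fderiv ℝ F p)) p :=
    (ContinuousLinearMap.fst ℝ ℝ ℝ).hasFDerivAt.comp p (h.differentiableAt_F p).hasFDerivAt
  exact hasFDerivAt_fst.prodMk (h1.sub hasFDerivAt_fst)

theorem analytic_Th : AnalyticOnNhd ℝ (Th F) univ := by
  intro p hp
  have h1 : AnalyticAt ℝ (fun q => (F q).1) p := analyticAt_fst.comp_of_eq (h.an p hp) rfl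
  exact AnalyticAt.prod analyticAt_fst (h1.sub analyticAt_fst)

/-- the derivative of `Th` as an invertible map -/
noncomputable def dTh (p : ℝ × ℝ) : (ℝ × ℝ) ≃L[ℝ] (ℝ × ℝ) :=
  ContinuousLinearMap.toContinuousLinearEquivOfDetNeZero (fderiv ℝ (Th F) p) (by
    have h1 := h.twist' p
    have e : ContinuousLinearMap.det (fderiv ℝ (Th F) p) = (fderiv ℝ F p (0, 1)).1 := by
      rw [ContinuousLinearMap.det, det_eq, (h.hasFDerivAt_Th p).fderiv]
      simp
    rw [e]; exact h1.ne')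

theorem coe_dTh (p : ℝ × ℝ) : (h.dTh p : (ℝ × ℝ) →L[ℝ] (ℝ × ℝ)) = fderiv ℝ (Th F) p :=
  ContinuousLinearMap.coe_toContinuousLinearEquivOfDetNeZero _ _

theorem isOpenMap_Th : IsOpenMap (Th F) := by
  refine isOpenMap_of_hasStrictFDerivAt_equiv (f' := fun z => h.dTh z) fun z => ?_
  rw [h.coe_dTh]
  exact (h.analytic_Th z (mem_univ z)).hasStrictFDerivAt

theorem continuous_Th : Continuous (Th F) :=
  continuous_iff_continuousAt.2 fun p => (h.analytic_Th p (mem_univ p)).continuousAt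

theorem isOpen_Wd : IsOpen (Wd F) := h.isOpenMap_Th.isOpen_range

theorem openEmb : IsOpenEmbedding (Th F) :=
  IsOpenEmbedding.of_continuous_injective_isOpenMap h.continuous_Th h.Th_injective h.isOpenMap_Th

theorem analytic_PR : AnalyticOnNhd ℝ (PR F) (Wd F) := by
  rintro _ ⟨p, rfl⟩
  have hs : AnalyticAt ℝ (h.openEmb.toOpenPartialHomeomorph (Th F)).symm (Th F p) := by
    refine OpenPartialHomeomorph.analyticAt_symm _ (i := h.dTh p) ?_ ?_ ?_
    · show Th F p ∈ (h.openEmb.toOpenPartialHomeomorph (Th F)).target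
      simp
    · have : (h.openEmb.toOpenPartialHomeomorph (Th F)).symm (Th F p) = p :=
        h.openEmb.toOpenPartialHomeomorph_left_inv
      rw [this]
      exact h.analytic_Th p (mem_univ p)
    · have : (h.openEmb.toOpenPartialHomeomorph (Th F)).symm (Th F p) = p :=
        h.openEmb.toOpenPartialHomeomorph_left_inv
      rw [this, h.coe_dTh]
      rfl
  have h2 : AnalyticAt ℝ (fun z => ((h.openEmb.toOpenPartialHomeomorph (Th F)).symm z).2)
      (Th F p) := analyticAt_snd.comp_of_eq hs rfl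
  refine h2.congr ?_
  filter_upwards [h.isOpen_Wd.mem_nhds (mem_range_self p)] with z hz
  obtain ⟨q, rfl⟩ := hz
  rw [h.PR_Th]
  have : (h.openEmb.toOpenPartialHomeomorph (Th F)).symm (Th F q) = q :=
    h.openEmb.toOpenPartialHomeomorph_left_inv
  rw [this]

/-- the complexified momentum -/
theorem exists_Pc : ∃ (O : Set (ℂ × ℂ)) (P : ℂ × ℂ → ℂ), CxFunOn (PR F) (Wd F) 0 O P :=
  exists_cx_on h.isOpen_Wd h.Wd_trans h.analytic_PR h.PR_per

end Fol0

end Pool.Agent.Helper37.FTM
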