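import Pool.Agent.Helper37.Fol.Dense
import Pool.Agent.Helper11.TW.InvAn

/-! # Rational leaves are analytic -/

set_option autoImplicit false

namespace Pool.Agent.Helper37.FTM

open Set Filter Topology

variable {F : ℝ × ℝ → ℝ × ℝ} {U : ℝ → ℝ → ℝ}

namespace Fol0

variable (h : Fol0 F U)
include h

/-- a leaf of periodic points is analytic -/
theorem analytic_of_periodic {q : ℕ} {p : ℤ} {Y : ℝ}
    (hp : ∀ x, (ff F U Y)^[q + 1] x = x + p) : AnalyticOnNhd ℝ (U Y) univ := by
  have hG := h.fol0_GG q p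
  refine Pool.Agent.Helper83.TW.impAn (fun z => (GG F (q + 1) p z).1 - z.1) (U Y) ?_ (h.cont Y)
    ?_ ?_
  · have h1 : AnalyticOnNhd ℝ (fun z : ℝ × ℝ => (GG F (q + 1) p z).1) univ := fun z hz =>
      analyticAt_fst.comp (hG.an z hz)
    exact h1.sub (fun z _ => analyticAt_fst)
  · intro x
    have h1 := h.ff_GG (q + 1) p Y x
    rw [hp] at h1
    simp only [ff] at h1
    simp only [h1]
    ring
  · intro x
    have h1 := hG.twist x (U Y x)
    have h2 : deriv (fun t => (GG F (q + 1) p (x, t)).1 - x) (U Y x)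
      = deriv (fun t => (GG F (q + 1) p (x, t)).1) (U Y x) := deriv_sub_const _
    show deriv (fun t => (GG F (q + 1) p (x, t)).1 - x) (U Y x) ≠ 0
    rw [h2]
    exact h1.ne'

/-- analytic leaves are dense -/
theorem exists_analytic_between {Y Y' : ℝ} (hY : Y < Y') :
    ∃ Y0 ∈ Ioo Y Y', AnalyticOnNhd ℝ (U Y0) univ := by
  obtain ⟨Y0, hY0, q, p, hp⟩ := h.exists_rational_between hY
  exact ⟨Y0, hY0, h.analytic_of_periodic hp⟩

end Fol0

end Pool.Agent.Helper37.FTM
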