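import Pool.Agent.Helper37.Fol.Fixed

/-! # Rational leaves consist of periodic points -/

set_option autoImplicit false

namespace Pool.Agent.Helper37.FTM

open Set Filter Topology MeasureTheory

variable {F : ℝ × ℝ → ℝ × ℝ} {U : ℝ → ℝ → ℝ}

/-- conjugation by `-id` -/
noncomputable def Rf (F : ℝ × ℝ → ℝ × ℝ) (z : ℝ × ℝ) : ℝ × ℝ := -F (-z)

/-- reflected leaves -/
noncomputable def RU (U : ℝ → ℝ → ℝ) (Y x : ℝ) : ℝ := -U (-Y) (-x)

namespace Fol0

variable (h : Fol0 F U)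
include h

theorem uper_neg (Y x : ℝ) : U Y (x - 1) = U Y x := by
  have := h.uper Y (x - 1)
  rw [sub_add_cancel] at this
  exact this.symm

theorem per_neg (x y : ℝ) : F (x - 1, y) = ((F (x, y)).1 - 1, (F (x, y)).2) := by
  have := h.per (x - 1) y
  rw [sub_add_cancel] at this
  rw [this]; simp

theorem fol0_refl : Fol0 (Rf F) (RU U) := by
  have hd : ∀ z : ℝ × ℝ, HasFDerivAt (Rf F) (fderiv ℝ F (-z)) z := fun z => by
    have h1 : HasFDerivAt F (fderiv ℝ F (-z)) (-z) := (h.differentiableAt_F (-z)).hasFDerivAt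
    have h2 : HasFDerivAt (fun z : ℝ × ℝ => -z) (-ContinuousLinearMap.id ℝ (ℝ × ℝ)) z :=
      (hasFDerivAt_id z).neg
    have h3 := (h1.comp z h2).neg
    have e : -(fderiv ℝ F (-z) ∘SL (-ContinuousLinearMap.id ℝ (ℝ × ℝ))) = fderiv ℝ F (-z) := by
      ext <;> simp
    rw [e] at h3
    exact h3
  refine ⟨⟨?_, ?_, ?_, ?_, ?_, ?_, ?_, ?_, ?_⟩, ?_⟩
  · have h1 : AnalyticOnNhd ℝ (fun z : ℝ × ℝ => -z) univ := analyticOnNhd_id.neg
    exact (h.an.comp h1 (fun _ _ => mem_univ _)).neg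
  · have hb := (Equiv.neg (ℝ × ℝ)).bijective.comp (h.bij.comp (Equiv.neg (ℝ × ℝ)).bijective)
    exact hb
  · intro x y
    have e1 : Neg.neg ((x + 1, y) : ℝ × ℝ) = (-x - 1, -y) := by
      refine Prod.ext ?_ rfl
      show -(x + 1) = -x - 1
      ring
    have e2 : Neg.neg ((x, y) : ℝ × ℝ) = (-x, -y) := rfl
    simp only [Rf, e1, e2, h.per_neg]
    ext <;> simp; ring
  · intro z
    rw [(hd z).fderiv]; exact h.det _
  · intro x y
    have h1 := h.twist (-x) (-y)
    have h2 : (fun t : ℝ => (Rf F (x, t)).1) = fun t : ℝ => -(fun s : ℝ => (F (-x, s)).1) (-t) := by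
      funext t; rfl
    rw [h2, deriv.fun_neg, deriv_comp_neg (fun s : ℝ => (F (-x, s)).1)]
    simpa using h1
  · intro c
    exact ((h.cont (-c)).comp continuous_neg).neg
  · intro c x
    have : -(x + 1) = -x - 1 := by ring
    simp only [RU, this, h.uper_neg]
  · intro c x
    have e2 : -((x, RU U c x) : ℝ × ℝ) = (-x, U (-c) (-x)) := by
      ext <;> simp [RU]
    simp only [Rf, e2, h.F_graph]
    simp [RU]
  · intro p
    refine ⟨-lab U (-p.1) (-p.2), ?_, ?_⟩
    · simp [RU, h.lab_spec]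
    · intro c hc
      have : U (-c) (-p.1) = -p.2 := by simp only [RU] at hc; linarith
      have := h.eq_lab this
      linarith
  · intro Y
    simp [RU, h.zero]

omit h in
theorem ff_refl (Y x : ℝ) : ff (Rf F) (RU U) Y x = -ff F U (-Y) (-x) := by
  have e2 : -((x, RU U Y x) : ℝ × ℝ) = (-x, U (-Y) (-x)) := by
    ext <;> simp [RU]
  simp only [ff, Rf, e2]
  rfl

/-- a leaf with one fixed point consists of fixed points -/
theorem eq_of_fixed {Y0 x0 : ℝ} (hx0 : ff F U Y0 x0 = x0) (x : ℝ) : ff F U Y0 x = x := by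
  refine le_antisymm (not_lt.1 (h.not_gt_of_fixed hx0 x)) ?_
  have h1 := (h.fol0_refl).not_gt_of_fixed (Y0 := -Y0) (x0 := -x0)
    (by rw [ff_refl, neg_neg, neg_neg, hx0]) (-x)
  rw [ff_refl, neg_neg, neg_neg] at h1
  linarith

/-- a leaf with one periodic point of type `(q, p)` consists of such points -/
theorem periodic_leaf {q : ℕ} {p : ℤ} {Y0 x0 : ℝ} (hx0 : (ff F U Y0)^[q + 1] x0 = x0 + p) (x : ℝ) :
    (ff F U Y0)^[q + 1] x = x + p := by
  have h1 := (h.fol0_GG q p).eq_of_fixed (Y0 := Y0) (x0 := x0) (by rw [h.ff_GG, hx0]; ring) x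
  rw [h.ff_GG] at h1
  linarith

/-- there is at most one leaf with periodic points of type `(q, p)` -/
theorem periodic_unique {q : ℕ} {p : ℤ} {Y Y' x x' : ℝ} (hx : (ff F U Y)^[q + 1] x = x + p)
    (hx' : (ff F U Y')^[q + 1] x' = x' + p) : Y = Y' := by
  rcases lt_trichotomy Y Y' with e | e | e
  · have h1 := h.iter_mono_left e q 0
    rw [h.periodic_leaf hx, h.periodic_leaf hx'] at h1
    exact absurd h1 (lt_irrefl _)
  · exact e
  · have h1 := h.iter_mono_left e q 0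
    rw [h.periodic_leaf hx, h.periodic_leaf hx'] at h1
    exact absurd h1 (lt_irrefl _)

theorem continuous_ff_iter (q : ℕ) : Continuous fun z : ℝ × ℝ => (ff F U z.1)^[q] z.2 := by
  induction q with
  | zero => exact continuous_snd
  | succ q ih =>
    simp only [Function.iterate_succ_apply']
    exact h.continuous_ff.comp (continuous_fst.prodMk ih)

/-- intermediate values: between a leaf with `f^q x ≤ x + p` and a leaf with
`x' + p ≤ f^q x'` there is a leaf with `f^q = id + p` -/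
theorem exists_periodic {q : ℕ} {p : ℤ} {Y Y' x x' : ℝ} (hY : Y ≤ Y')
    (h1 : (ff F U Y)^[q + 1] x ≤ x + p) (h2 : x' + p ≤ (ff F U Y')^[q + 1] x') :
    ∃ Y0 ∈ Icc Y Y', ∀ z, (ff F U Y0)^[q + 1] z = z + p := by
  have hc : Continuous fun z : ℝ × ℝ => (ff F U z.1)^[q + 1] z.2 - z.2 - p :=
    ((h.continuous_ff_iter (q + 1)).sub continuous_snd).sub continuous_const
  have hconn : IsPreconnected (Icc Y Y' ×ˢ (univ : Set ℝ)) :=
    isPreconnected_Icc.prod isPreconnected_univ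
  have hm : ((Y, x) : ℝ × ℝ) ∈ Icc Y Y' ×ˢ (univ : Set ℝ) := ⟨⟨le_rfl, hY⟩, mem_univ _⟩
  have hm' : ((Y', x') : ℝ × ℝ) ∈ Icc Y Y' ×ˢ (univ : Set ℝ) := ⟨⟨hY, le_rfl⟩, mem_univ _⟩
  obtain ⟨z, hz, hz0⟩ := hconn.intermediate_value hm hm' hc.continuousOn
    (show (0:ℝ) ∈ Icc _ _ from ⟨by simp only; linarith, by simp only; linarith⟩)
  refine ⟨z.1, hz.1, h.periodic_leaf (x0 := z.2) ?_⟩
  simp only at hz0
  linarith

end Fol0

end Pool.Agent.Helper37.FTM
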